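import Pool.Agent.Lib.MP_34b234_co.D00
import Pool.Agent.Lib.MP_34b234_co.D01
import Pool.Agent.Lib.MP_34b234_co.D02
import Pool.Agent.Lib.MP_34b234_co.D03
import Pool.Agent.Lib.MP_34b234_co.D04
import Pool.Agent.Lib.MP_34b234_co.D05
import Pool.Agent.Lib.MP_34b234_co.D06
import Pool.Agent.Lib.MP_34b234_co.D07
import Pool.Agent.Lib.MP_34b234_co.D08
import Pool.Agent.Lib.MP_34b234_co.D09
import Pool.Agent.Lib.MP_34b234_co.D10
import Pool.Agent.Lib.MP_34b234_co.D11
import Pool.Agent.Lib.MP_34b234_co.D12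
import Pool.Agent.Lib.MP_34b234_co.D13
import Pool.Agent.Lib.MP_34b234_co.D14
import Pool.Agent.Lib.MP_34b234_co.D15
import Pool.Agent.Lib.MP_34b234_co.D16
import Pool.Agent.Lib.MP_34b234_co.D17
import Pool.Agent.Lib.MP_34b234_co.D18
import Pool.Agent.Lib.MP_34b234_co.D19
import Pool.Agent.Lib.MP_34b234_co.D20
import Pool.Agent.Lib.MP_34b234_co.D21
import Pool.Agent.Lib.MP_34b234_co.D22
import Pool.Agent.Lib.MP_34b234_co.D23
import Pool.Agent.Lib.MP_34b234_co.D24
import Pool.Agent.Lib.MP_34b234_co.D25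
import Pool.Agent.Lib.MP_34b234_co.D26
import Pool.Agent.Lib.MP_34b234_co.D27
import Pool.Agent.Lib.MP_34b234_co.D28
import Pool.Agent.Lib.MP_34b234_co.D29
import Pool.Agent.Lib.MP_34b234_co.D30
import Pool.Agent.Lib.MP_34b234_co.D31
import Pool.Agent.Lib.MP_34b234_co.D32
import Pool.Agent.Lib.MP_34b234_co.D33
import Pool.Agent.Lib.MP_34b234_co.D34
import Pool.Agent.Lib.MP_34b234_co.D35
import Pool.Agent.Lib.MP_34b234_co.D36
import Pool.Agent.Lib.MP_34b234_co.D37
import Pool.Agent.Lib.MP_34b234_co.D38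
import Pool.Agent.Lib.MP_34b234_co.D39
import Pool.Agent.Lib.MP_34b234_co.D40
import Pool.Agent.Lib.MP_34b234_co.D41
import Pool.Agent.Lib.MP_34b234_co.D42
import Pool.Agent.Lib.MP_34b234_co.D43
import Pool.Agent.Lib.MP_34b234_co.D44
import Pool.Agent.Lib.MP_34b234_co.D45
import Pool.Agent.Lib.MP_34b234_co.D46
import Pool.Agent.Lib.MP_34b234_co.D47

set_option autoImplicit false

namespace Pool.Agent.Lib.MP_34b234_co

theorem all_rows : Rng 1 2731 :=
  (((((((((((((((((((((((((((((((((((((((((((((((blk0).trans blk1).trans blk2).trans blk3).trans blk4).trans blk5).trans blk6).trans blk7).trans blk8).trans blk9).trans blk10).trans blk11).trans blk12).trans blk13).trans blk14).trans blk15).trans blk16).trans blk17).trans blk18).trans blk19).trans blk20).trans blk21).trans blk22).trans blk23).trans blk24).trans blk25).trans blk26).trans blk27).trans blk28).trans blk29).trans blk30).trans blk31).trans blk32).trans blk33).trans blk34).trans blk35).trans blk36).trans blk37).trans blk38).trans blk39).trans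 blk40).trans blk41).trans blk42).trans blk43).trans blk44).trans blk45).trans blk46).trans blk47

end Pool.Agent.Lib.MP_34b234_co
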