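import Mathlib

/-! Window counts of a Sidon family of `n` points in an `n × n` box. -/

set_option autoImplicit false

open Finset

namespace Pool.Agent.Lib.MP_34b234_co.Ap

variable {ι : Type} [DecidableEq ι]

/-- the square of the integer interval from `a` to `b` -/
noncomputable def box (a b : ℤ) : Finset (ℤ × ℤ) := Ico a b ×ˢ Ico a b

/-- differences of distinct points are distinct -/
def Sid (p : ι → ℤ × ℤ) : Prop :=
  ∀ i j k l, i ≠ j → p i - p j = p k - p l → i = k ∧ j = l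

/-- `d` is a difference of two points -/
def Used (p : ι → ℤ × ℤ) (d : ℤ × ℤ) : Prop := ∃ b c, b ≠ c ∧ d = p b - p c

/-- number of points in the window below `y` -/
noncomputable def cnt (v : ℕ) (p : ι → ℤ × ℤ) (X : Finset ι) (y : ℤ × ℤ) : ℕ :=
  (X.filter fun i => y - p i ∈ box 0 v).card

theorem mem_box {a b : ℤ} {x : ℤ × ℤ} :
    x ∈ box a b ↔ (a ≤ x.1 ∧ x.1 < b) ∧ (a ≤ x.2 ∧ x.2 < b) := by
  simp [box]

theorem card_box (a : ℤ) (v : ℕ) : (box a (a + v)).card = v ^ 2 := by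
  simp [box, sq]

theorem card_box0 (v : ℕ) : (box 0 v).card = v ^ 2 := by
  simpa using card_box 0 v

omit [DecidableEq ι] in
theorem sum_cnt {n v : ℕ} {p : ι → ℤ × ℤ} (X : Finset ι) (hp : ∀ i, p i ∈ box 0 n) :
    ∑ y ∈ box 0 ((n + v : ℕ) : ℤ), cnt v p X y = X.card * v ^ 2 := by
  simp only [cnt, card_filter]
  rw [sum_comm, ← smul_eq_mul, ← sum_const]
  refine sum_congr rfl fun i _ => ?_
  rw [← card_filter, ← card_box0 v]
  have h := mem_box.1 (hp i)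
  refine card_nbij' (fun y => y - p i) (fun w => w + p i) (fun y hy => ?_) (fun w hw => ?_)
    (fun y _ => by simp) (fun w _ => by simp)
  · exact (mem_filter.1 (mem_coe.1 hy)).2
  · have hw' := mem_box.1 (mem_coe.1 hw)
    refine mem_coe.2 (mem_filter.2 ⟨mem_box.2 ?_, by simpa using mem_coe.1 hw⟩)
    simp only [Prod.fst_add, Prod.snd_add]
    push_cast
    omega

/-- number of windows containing two given points -/
noncomputable def ov (B : Finset (ℤ × ℤ)) (v : ℕ) (a b : ℤ × ℤ) : ℕ :=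
  (B.filter fun y => y - a ∈ box 0 v ∧ y - b ∈ box 0 v).card

omit [DecidableEq ι] in
theorem sum_cnt_mul (B : Finset (ℤ × ℤ)) (v : ℕ) (p p' : ι → ℤ × ℤ) (X Y : Finset ι) :
    ∑ y ∈ B, cnt v p X y * cnt v p' Y y = ∑ i ∈ X, ∑ j ∈ Y, ov B v (p i) (p' j) := by
  simp only [cnt, ov, card_filter, sum_mul_sum]
  rw [sum_comm]
  refine sum_congr rfl fun i _ => ?_
  rw [sum_comm]
  refine sum_congr rfl fun j _ => sum_congr rfl fun y _ => ?_
  by_cases h1 : y - p i ∈ box 0 v <;> by_cases h2 : y - p' j ∈ box 0 v <;> simp [h1, h2]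

theorem ov_le (B : Finset (ℤ × ℤ)) (v : ℕ) (a b : ℤ × ℤ) : ov B v a b ≤ v ^ 2 := by
  rw [← card_box0 v]
  refine card_le_card_of_injOn (fun y => y - a) (fun y hy => ?_) (fun y _ z _ h => ?_)
  · exact (mem_filter.1 (mem_coe.1 hy)).2.1
  · simpa using h

theorem ov_zero (B : Finset (ℤ × ℤ)) (v : ℕ) (a b : ℤ × ℤ) (h : a - b ∉ box (-v) v) :
    ov B v a b = 0 := by
  refine card_eq_zero.2 (filter_eq_empty_iff.2 fun y _ hy => h ?_)
  have h1 := mem_box.1 hy.1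
  have h2 := mem_box.1 hy.2
  refine mem_box.2 ?_
  simp only [Prod.fst_sub, Prod.snd_sub] at h1 h2 ⊢
  omega

open Classical in
theorem energy_le (B : Finset (ℤ × ℤ)) (v : ℕ) {p : ι → ℤ × ℤ} (hp : Sid p) (X : Finset ι) :
    ∑ y ∈ B, cnt v p X y * cnt v p X y +
      ((box 0 v ×ˢ box 0 v).filter fun w => ¬ Used p (w.2 - w.1)).card ≤
      X.card * v ^ 2 + v ^ 4 := by
  have h1 := card_filter_add_card_filter_not (s := box 0 v ×ˢ box 0 v)
    (fun w => Used p (w.2 - w.1))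
  rw [card_product, card_box0, ← pow_add] at h1
  have h2 : ∑ z ∈ X.offDiag, ov B v (p z.1) (p z.2) ≤
      ((box 0 v ×ˢ box 0 v).filter fun w => Used p (w.2 - w.1)).card := by
    simp only [ov]
    rw [← card_sigma]
    refine card_le_card_of_injOn (fun z => (z.2 - p z.1.1, z.2 - p z.1.2)) (fun z hz => ?_)
      (fun z hz z' hz' h => ?_)
    · have hz1 := mem_sigma.1 (mem_coe.1 hz)
      have hz2 := (mem_filter.1 hz1.2).2
      refine mem_coe.2 (mem_filter.2 ⟨mem_product.2 hz2, z.1.1, z.1.2,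
        (mem_offDiag.1 hz1.1).2.2, ?_⟩)
      simp
    · have hz1 := mem_sigma.1 (mem_coe.1 hz)
      obtain ⟨⟨i, j⟩, y⟩ := z
      obtain ⟨⟨k, l⟩, y'⟩ := z'
      simp only [Prod.mk.injEq] at h
      have h3 : p i - p j = p k - p l := by
        have e1 : p i - p j = (y - p j) - (y - p i) := by abel
        have e2 : p k - p l = (y' - p l) - (y' - p k) := by abel
        rw [e1, e2, h.1, h.2]
      obtain ⟨rfl, rfl⟩ := hp i j k l (mem_offDiag.1 hz1.1).2.2 h3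
      have h4 : y = y' := by simpa using h.1
      rw [h4]
  have h3 : ∑ z ∈ X.diag, ov B v (p z.1) (p z.2) ≤ X.card * v ^ 2 := by
    rw [← diag_card, ← smul_eq_mul]
    exact sum_le_card_nsmul _ _ _ fun z _ => ov_le _ _ _ _
  have h4 : ∑ i ∈ X, ∑ j ∈ X, ov B v (p i) (p j) =
      ∑ z ∈ X.diag, ov B v (p z.1) (p z.2) + ∑ z ∈ X.offDiag, ov B v (p z.1) (p z.2) := by
    rw [← sum_union (disjoint_diag_offDiag X), diag_union_offDiag, sum_product]
  rw [sum_cnt_mul, h4]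
  have h5 : 2 + 2 = 4 := rfl
  rw [h5] at h1
  omega

theorem ratio_le {n v : ℝ} (hn : 0 < n) (hv : 0 ≤ v) :
    v ^ 4 - n ^ 2 * v ^ 4 / (n + v) ^ 2 ≤ 2 * v ^ 5 / n := by
  have h1 : 0 < (n + v) ^ 2 := by positivity
  have h2 : v ^ 4 - n ^ 2 * v ^ 4 / (n + v) ^ 2 = v ^ 4 * (2 * n * v + v ^ 2) / (n + v) ^ 2 := by
    field_simp
    ring
  rw [h2, div_le_div_iff₀ h1 hn]
  have h3 : 0 ≤ v ^ 5 * (3 * n * v + 2 * v ^ 2) := by positivity
  nlinarith

omit [DecidableEq ι] in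
theorem energy_ge [Fintype ι] {n v : ℕ} (hn : 0 < n) (hι : Fintype.card ι = n) {p : ι → ℤ × ℤ}
    (hp : ∀ i, p i ∈ box 0 n) :
    (n : ℝ) ^ 2 * v ^ 4 / (n + v) ^ 2 ≤
      ∑ y ∈ box 0 ((n + v : ℕ) : ℤ), (cnt v p univ y : ℝ) ^ 2 := by
  have h1 := sq_sum_le_card_mul_sum_sq (s := box 0 ((n + v : ℕ) : ℤ))
    (f := fun y => (cnt v p univ y : ℝ))
  rw [← Nat.cast_sum, sum_cnt univ hp, card_box0, card_univ, hι] at h1
  have h2 : (0 : ℝ) < (n + v) ^ 2 := by positivity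
  rw [div_le_iff₀ h2]
  push_cast at h1 ⊢
  nlinarith

open Classical in
theorem unused_le [Fintype ι] {n u : ℕ} (hn : 0 < n) (hu : 0 < u) (hι : Fintype.card ι = n)
    {p : ι → ℤ × ℤ} (hp : ∀ i, p i ∈ box 0 n) (hs : Sid p) :
    (((box (-u) u).filter fun d => ¬ Used p d).card : ℝ) ≤ 9 * n + 486 * (u : ℝ) ^ 3 / n := by
  have h1 := energy_le (box 0 ((n + 3 * u : ℕ) : ℤ)) (3 * u) hs univ
  have h2 := energy_ge (v := 3 * u) hn hι hp
  have h3 : ((box (-u) u).filter fun d => ¬ Used p d).card * u ^ 2 ≤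
      ((box 0 ((3 * u : ℕ) : ℤ) ×ˢ box 0 ((3 * u : ℕ) : ℤ)).filter
        fun w => ¬ Used p (w.2 - w.1)).card := by
    rw [← card_box u u, ← card_product]
    refine card_le_card_of_injOn (fun z => (z.2, z.2 + z.1)) (fun z hz => ?_)
      (fun z _ z' _ h => ?_)
    · have hz1 := mem_product.1 (mem_coe.1 hz)
      have hz2 := mem_filter.1 hz1.1
      have a1 := mem_box.1 hz1.2
      have a2 := mem_box.1 hz2.1
      refine mem_coe.2 (mem_filter.2 ⟨mem_product.2 ⟨mem_box.2 ?_, mem_box.2 ?_⟩, ?_⟩)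
      · push_cast
        omega
      · simp only [Prod.fst_add, Prod.snd_add]
        push_cast
        omega
      · simpa using hz2.2
    · simp only [Prod.mk.injEq] at h
      refine Prod.ext ?_ h.1
      have h2 := h.2
      rw [h.1] at h2
      exact add_left_cancel h2
  have hn' : (0 : ℝ) < n := by exact_mod_cast hn
  have hu' : (0 : ℝ) < u := by exact_mod_cast hu
  have h4 := ratio_le (v := ((3 * u : ℕ) : ℝ)) hn' (Nat.cast_nonneg _)
  rw [card_univ, hι] at h1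
  have h5 := (Nat.cast_le (α := ℝ)).2 (le_trans (Nat.add_le_add_left h3 _) h1)
  simp only [sq] at h2
  push_cast at h2 h4 h5
  have h6 : (((box (-u) u).filter fun d => ¬ Used p d).card : ℝ) * (u : ℝ) ^ 2 ≤
      (9 * n + 486 * (u : ℝ) ^ 3 / n) * (u : ℝ) ^ 2 := by
    have e : (9 * n + 486 * (u : ℝ) ^ 3 / n) * (u : ℝ) ^ 2 =
        n * (3 * (u : ℝ)) ^ 2 + 2 * (3 * (u : ℝ)) ^ 5 / n := by
      field_simp
      ring
    rw [e]
    simp only [sq] at h4 h5 ⊢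
    linarith
  exact le_of_mul_le_mul_right h6 (by positivity)

open Classical in
theorem cross_ge [Fintype ι] {n u : ℕ} (hn : 0 < n) (hι : Fintype.card ι = n) (hun : u ≤ n)
    (hnu : n ≤ u ^ 2) {p p' : ι → ℤ × ℤ} (hp : ∀ i, p i ∈ box 0 n) (hs : Sid p)
    (hp' : ∀ i, p' i ∈ box 0 n) (hs' : Sid p') (X : Finset ι) {q : ℝ} (hq : 0 < q) :
    X.card * (u : ℝ) ^ 2 / (4 * n) - (u : ℝ) ^ 2 / q - q * (n + 2 * (u : ℝ) ^ 3 / n) / 2 ≤
      ∑ i ∈ X, (((univ : Finset ι).filter fun j => p' i - p j ∈ box (-u) u).card : ℝ) := by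
  have hn' : (0 : ℝ) < n := by exact_mod_cast hn
  have hu0 : 0 < u := Nat.pos_of_ne_zero fun h => by
    rw [h] at hnu
    omega
  have hu' : (0 : ℝ) < u := by exact_mod_cast hu0
  have hun' : (u : ℝ) ≤ n := by exact_mod_cast hun
  have hnu' : (n : ℝ) ≤ (u : ℝ) ^ 2 := by exact_mod_cast hnu
  set B := box 0 ((n + u : ℕ) : ℤ) with hB
  set μ : ℝ := n * (u : ℝ) ^ 2 / (n + u) ^ 2 with hμ
  have hP : (0 : ℝ) < (n + u) ^ 2 := by positivity
  have hBc : (B.card : ℝ) = (n + u) ^ 2 := by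
    rw [hB, card_box0]
    push_cast
    rfl
  have sA : ∑ y ∈ B, (cnt u p univ y : ℝ) = n * (u : ℝ) ^ 2 := by
    rw [← Nat.cast_sum, sum_cnt univ hp, card_univ, hι]
    push_cast
    rfl
  have sX : ∑ y ∈ B, (cnt u p' X y : ℝ) = X.card * (u : ℝ) ^ 2 := by
    rw [← Nat.cast_sum, sum_cnt X hp']
    push_cast
    rfl
  have eA : ∑ y ∈ B, (cnt u p univ y : ℝ) ^ 2 ≤ n * (u : ℝ) ^ 2 + (u : ℝ) ^ 4 := by
    have h := le_trans (Nat.le_add_right _ _) (energy_le B u hs univ)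
    rw [card_univ, hι] at h
    simp only [sq ((cnt u p univ _ : ℕ) : ℝ)]
    exact_mod_cast h
  have hXn : (X.card : ℝ) ≤ n := by
    have h := card_le_univ X
    rw [hι] at h
    exact_mod_cast h
  have eX : ∑ y ∈ B, (cnt u p' X y : ℝ) ^ 2 ≤ 2 * (u : ℝ) ^ 4 := by
    have h := le_trans (Nat.le_add_right _ _) (energy_le B u hs' X)
    have h' : ∑ y ∈ B, (cnt u p' X y : ℝ) ^ 2 ≤ X.card * (u : ℝ) ^ 2 + (u : ℝ) ^ 4 := by
      simp only [sq ((cnt u p' X _ : ℕ) : ℝ)]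
      exact_mod_cast h
    have h2 : (X.card : ℝ) * (u : ℝ) ^ 2 ≤ (u : ℝ) ^ 2 * (u : ℝ) ^ 2 :=
      mul_le_mul_of_nonneg_right (hXn.trans hnu') (by positivity)
    nlinarith
  have vA : ∑ y ∈ B, ((cnt u p univ y : ℝ) - μ) ^ 2 ≤ n * (u : ℝ) ^ 2 + 2 * (u : ℝ) ^ 5 / n := by
    have e : ∑ y ∈ B, ((cnt u p univ y : ℝ) - μ) ^ 2 =
        ∑ y ∈ B, (cnt u p univ y : ℝ) ^ 2 - 2 * μ * ∑ y ∈ B, (cnt u p univ y : ℝ) +
          B.card * μ ^ 2 := by
      rw [mul_sum, ← sum_sub_distrib, ← nsmul_eq_mul, ← sum_const, ← sum_add_distrib]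
      exact sum_congr rfl fun y _ => by ring
    have e2 : 2 * μ * (n * (u : ℝ) ^ 2) - (n + u) ^ 2 * μ ^ 2 =
        (n : ℝ) ^ 2 * (u : ℝ) ^ 4 / (n + u) ^ 2 := by
      rw [hμ]
      field_simp
      ring
    have h := ratio_le hn' hu'.le
    rw [e, sA, hBc]
    linarith
  have pw : ∀ y ∈ B, μ * (cnt u p' X y : ℝ) - (cnt u p' X y : ℝ) ^ 2 / (2 * q) -
      q / 2 * ((cnt u p univ y : ℝ) - μ) ^ 2 ≤ (cnt u p' X y : ℝ) * (cnt u p univ y : ℝ) := by
    intro y _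
    have h : 0 ≤ ((cnt u p' X y : ℝ) + q * ((cnt u p univ y : ℝ) - μ)) ^ 2 / (2 * q) := by
      positivity
    have e : ((cnt u p' X y : ℝ) + q * ((cnt u p univ y : ℝ) - μ)) ^ 2 / (2 * q) =
        (cnt u p' X y : ℝ) ^ 2 / (2 * q) + (cnt u p' X y : ℝ) * ((cnt u p univ y : ℝ) - μ) +
          q / 2 * ((cnt u p univ y : ℝ) - μ) ^ 2 := by
      field_simp
      ring
    rw [e] at h
    nlinarith
  have low := sum_le_sum pw
  rw [sum_sub_distrib, sum_sub_distrib, ← mul_sum, ← mul_sum, ← sum_div, sX] at low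
  have up : ∑ y ∈ B, (cnt u p' X y : ℝ) * (cnt u p univ y : ℝ) ≤ (u : ℝ) ^ 2 *
      ∑ i ∈ X, (((univ : Finset ι).filter fun j => p' i - p j ∈ box (-u) u).card : ℝ) := by
    have h : ∑ y ∈ B, cnt u p' X y * cnt u p univ y ≤ u ^ 2 *
        ∑ i ∈ X, ((univ : Finset ι).filter fun j => p' i - p j ∈ box (-u) u).card := by
      rw [sum_cnt_mul, mul_sum]
      refine sum_le_sum fun i _ => ?_
      rw [card_filter, mul_sum]
      refine sum_le_sum fun j _ => ?_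
      split_ifs with hj
      · rw [mul_one]
        exact ov_le _ _ _ _
      · rw [ov_zero _ _ _ _ hj]
        exact Nat.zero_le _
    exact_mod_cast h
  have hμ4 : (u : ℝ) ^ 2 / (4 * n) ≤ μ := by
    rw [hμ, div_le_div_iff₀ (by positivity) hP]
    have h : ((n : ℝ) + u) ^ 2 ≤ (2 * n) ^ 2 := pow_le_pow_left₀ (by positivity) (by linarith) 2
    have h2 := mul_le_mul_of_nonneg_left h (by positivity : (0 : ℝ) ≤ (u : ℝ) ^ 2)
    nlinarith
  have a1 := mul_le_mul_of_nonneg_right hμ4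
    (by positivity : (0 : ℝ) ≤ X.card * (u : ℝ) ^ 2)
  have a2 := div_le_div_of_nonneg_right eX (by positivity : (0 : ℝ) ≤ 2 * q)
  have a3 := mul_le_mul_of_nonneg_left vA (by positivity : (0 : ℝ) ≤ q / 2)
  refine le_of_mul_le_mul_left ?_ (by positivity : (0 : ℝ) < (u : ℝ) ^ 2)
  have e : (u : ℝ) ^ 2 * (X.card * (u : ℝ) ^ 2 / (4 * n) - (u : ℝ) ^ 2 / q -
      q * (n + 2 * (u : ℝ) ^ 3 / n) / 2) =
      (u : ℝ) ^ 2 / (4 * n) * (X.card * (u : ℝ) ^ 2) - 2 * (u : ℝ) ^ 4 / (2 * q) -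
        q / 2 * (n * (u : ℝ) ^ 2 + 2 * (u : ℝ) ^ 5 / n) := by
    field_simp
  rw [e]
  linarith

end Pool.Agent.Lib.MP_34b234_co.Ap
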