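import Mathlib

/-! Counting colourings that avoid a family of disjoint monochromatic sets. -/

set_option autoImplicit false

open Finset

namespace Pool.Agent.Lib.MP_34b234_co.Ap

variable {ι : Type} [Fintype ι] [DecidableEq ι] {q : ℕ}

open Classical in
/-- the colourings with a property -/
noncomputable def cset (P : (ι → Fin q) → Prop) : Finset (ι → Fin q) := univ.filter P

theorem mem_cset {P : (ι → Fin q) → Prop} {χ : ι → Fin q} : χ ∈ cset P ↔ P χ := by
  simp [cset]

/-- the number of colourings with a property -/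
noncomputable def num (P : (ι → Fin q) → Prop) : ℕ := (cset P).card

theorem num_mono {P Q : (ι → Fin q) → Prop} (h : ∀ χ, P χ → Q χ) : num P ≤ num Q :=
  card_le_card fun χ hχ => mem_cset.2 (h χ (mem_cset.1 hχ))

theorem num_true : num (fun _ : ι → Fin q => True) = q ^ Fintype.card ι := by
  simp [num, cset]

theorem num_split (P Q : (ι → Fin q) → Prop) :
    num (fun χ => P χ ∧ Q χ) + num (fun χ => P χ ∧ ¬ Q χ) = num P := by
  unfold num
  rw [← card_union_of_disjoint (disjoint_left.2 fun χ h h' =>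
    (mem_cset.1 h').2 (mem_cset.1 h).2)]
  congr 1
  ext χ
  simp only [mem_union, mem_cset]
  tauto

theorem num_exists {κ : Type} (K : Finset κ) (P : κ → (ι → Fin q) → Prop) :
    num (fun χ => ∃ k ∈ K, P k χ) ≤ ∑ k ∈ K, num (P k) := by
  unfold num
  refine le_trans (card_le_card (t := K.biUnion fun k => cset (P k)) fun χ hχ => ?_)
    card_biUnion_le
  obtain ⟨k, hk, h⟩ := mem_cset.1 hχ
  exact mem_biUnion.2 ⟨k, hk, mem_cset.2 h⟩

theorem num_or (P Q : (ι → Fin q) → Prop) : num (fun χ => P χ ∨ Q χ) ≤ num P + num Q := by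
  unfold num
  refine le_trans (card_le_card fun χ hχ => ?_) (card_union_le _ _)
  rcases mem_cset.1 hχ with h | h
  · exact mem_union_left _ (mem_cset.2 h)
  · exact mem_union_right _ (mem_cset.2 h)

theorem num_coord (P : (ι → Fin q) → Prop) (i : ι) (c : Fin q)
    (hP : ∀ χ a, P (Function.update χ i a) ↔ P χ) :
    q * num (fun χ => P χ ∧ χ i = c) = num P := by
  have h1 : num P = ∑ a : Fin q, ((cset P).filter fun χ => χ i = a).card :=
    card_eq_sum_card_fiberwise fun _ _ => mem_coe.2 (mem_univ _)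
  have h2 : ∀ a : Fin q, ((cset P).filter fun χ => χ i = a).card =
      num (fun χ => P χ ∧ χ i = c) := by
    intro a
    unfold num
    refine card_nbij' (fun χ => Function.update χ i c) (fun χ => Function.update χ i a)
      (fun χ hχ => ?_) (fun χ hχ => ?_) (fun χ hχ => ?_) (fun χ hχ => ?_)
    · have h := mem_filter.1 (mem_coe.1 hχ)
      exact mem_coe.2 (mem_cset.2 ⟨(hP _ _).2 (mem_cset.1 h.1), by simp⟩)
    · have h := mem_cset.1 (mem_coe.1 hχ)
      exact mem_coe.2 (mem_filter.2 ⟨mem_cset.2 ((hP _ _).2 h.1), by simp⟩)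
    · have h := (mem_filter.1 (mem_coe.1 hχ)).2
      simp [← h]
    · have h := mem_cset.1 (mem_coe.1 hχ)
      simp [← h.2]
  rw [h1, sum_congr rfl fun a _ => h2 a]
  simp

theorem num_block (c : Fin q) (T : Finset ι) : ∀ P : (ι → Fin q) → Prop,
    (∀ i ∈ T, ∀ χ a, P (Function.update χ i a) ↔ P χ) →
      q ^ T.card * num (fun χ => P χ ∧ ∀ i ∈ T, χ i = c) = num P := by
  induction T using Finset.induction_on with
  | empty => intro P _; simp
  | insert j T hj ih =>
    intro P hP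
    have h1 := ih P fun i hi => hP i (mem_insert_of_mem hi)
    have h2 := num_coord (fun χ => P χ ∧ ∀ i ∈ T, χ i = c) j c fun χ a => by
      refine and_congr (hP j (mem_insert_self _ _) χ a) (forall₂_congr fun i hi => ?_)
      rw [Function.update_of_ne (fun h : i = j => hj (h ▸ hi))]
    have h3 : (fun χ : ι → Fin q => P χ ∧ ∀ i ∈ insert j T, χ i = c) =
        fun χ => (P χ ∧ ∀ i ∈ T, χ i = c) ∧ χ j = c := by
      funext χ
      rw [forall_mem_insert]
      exact propext ⟨fun h => ⟨⟨h.1, h.2.2⟩, h.2.1⟩, fun h => ⟨h.1.1, h.2, h.1.2⟩⟩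
    rw [card_insert_of_notMem hj, pow_succ, mul_assoc, h3, h2, h1]

theorem num_family {κ : Type} [DecidableEq κ] (c : Fin q) (T : κ → Finset ι) (t : ℕ)
    (K : Finset κ) : (∀ k ∈ K, (T k).card ≤ t) →
      (∀ k ∈ K, ∀ l ∈ K, k ≠ l → Disjoint (T k) (T l)) →
      (num (fun χ : ι → Fin q => ∀ k ∈ K, ¬ ∀ i ∈ T k, χ i = c) : ℝ) ≤
        (q : ℝ) ^ Fintype.card ι * Real.exp (-(K.card / (q : ℝ) ^ t)) := by
  have hq : 1 ≤ q := c.pos
  have hq' : (1 : ℝ) ≤ q := by exact_mod_cast hq
  induction K using Finset.induction_on with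
  | empty =>
    intro _ _
    have h := num_mono (P := fun χ : ι → Fin q => ∀ k ∈ (∅ : Finset κ), ¬ ∀ i ∈ T k, χ i = c)
      (Q := fun _ => True) fun _ _ => trivial
    rw [num_true] at h
    simp only [card_empty, Nat.cast_zero, zero_div, neg_zero, Real.exp_zero, mul_one]
    exact_mod_cast h
  | insert k K hk ih =>
    intro ht hd
    have h1 := ih (fun l hl => ht l (mem_insert_of_mem hl))
      fun l hl m hm => hd l (mem_insert_of_mem hl) m (mem_insert_of_mem hm)
    set P : (ι → Fin q) → Prop := fun χ => ∀ l ∈ K, ¬ ∀ i ∈ T l, χ i = c with hP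
    have h2 := num_block c (T k) P fun i hi χ a => by
      refine forall₂_congr fun l hl => not_congr (forall₂_congr fun j hj => ?_)
      have hdis := hd k (mem_insert_self _ _) l (mem_insert_of_mem hl) fun h => hk (h ▸ hl)
      rw [Function.update_of_ne fun h : j = i => disjoint_left.1 hdis hi (h ▸ hj)]
    have h3 := num_split P fun χ => ∀ i ∈ T k, χ i = c
    have h4 : (fun χ : ι → Fin q => ∀ l ∈ insert k K, ¬ ∀ i ∈ T l, χ i = c) =
        fun χ => P χ ∧ ¬ ∀ i ∈ T k, χ i = c := by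
      funext χ
      rw [forall_mem_insert]
      exact propext and_comm
    have h5 : num P ≤ q ^ t * num (fun χ => P χ ∧ ∀ i ∈ T k, χ i = c) := by
      rw [← h2]
      exact Nat.mul_le_mul_right _ (Nat.pow_le_pow_right hq (ht k (mem_insert_self _ _)))
    have hqt : (0 : ℝ) < (q : ℝ) ^ t := by positivity
    have h6 : (num P : ℝ) / (q : ℝ) ^ t ≤ num (fun χ => P χ ∧ ∀ i ∈ T k, χ i = c) := by
      rw [div_le_iff₀' hqt]
      exact_mod_cast h5
    have h7 : (num (fun χ => P χ ∧ ∀ i ∈ T k, χ i = c) : ℝ) +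
        num (fun χ => P χ ∧ ¬ ∀ i ∈ T k, χ i = c) = num P := by exact_mod_cast h3
    have h8 := Real.add_one_le_exp (-(1 / (q : ℝ) ^ t))
    have h9 : (num (fun χ => P χ ∧ ¬ ∀ i ∈ T k, χ i = c) : ℝ) ≤
        num P * Real.exp (-(1 / (q : ℝ) ^ t)) := by
      have h := mul_le_mul_of_nonneg_left h8 (Nat.cast_nonneg (α := ℝ) (num P))
      have e : (num P : ℝ) * (-(1 / (q : ℝ) ^ t) + 1) = num P - num P / (q : ℝ) ^ t := by ring
      linarith
    rw [h4, card_insert_of_notMem hk]
    refine h9.trans ((mul_le_mul_of_nonneg_right h1 (Real.exp_pos _).le).trans (le_of_eq ?_))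
    rw [mul_assoc, ← Real.exp_add]
    push_cast
    congr 2
    ring

theorem num_sample (c : Fin q) (H : Finset ι) (j : ℕ) (hj : j ≤ H.card) :
    (num (fun χ : ι → Fin q => (H.filter fun i => χ i = c).card ≤ j) : ℝ) ≤
      (H.card : ℝ) ^ j * ((q : ℝ) ^ Fintype.card ι * Real.exp (-((H.card - j) / q))) := by
  have h1 := num_mono (P := fun χ : ι → Fin q => (H.filter fun i => χ i = c).card ≤ j)
    (Q := fun χ => ∃ J ∈ powersetCard j H, ∀ k ∈ H \ J, ¬ ∀ i ∈ ({k} : Finset ι), χ i = c)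
    fun χ hχ => by
      obtain ⟨J, h1, h2, h3⟩ := exists_subsuperset_card_eq (filter_subset _ H) hχ hj
      refine ⟨J, mem_powersetCard.2 ⟨h2, h3⟩, fun k hk h => ?_⟩
      exact (mem_sdiff.1 hk).2 (h1 (mem_filter.2 ⟨(mem_sdiff.1 hk).1, h k (mem_singleton_self k)⟩))
  have h2 := (Nat.cast_le (α := ℝ)).2 (h1.trans (num_exists _ _))
  rw [Nat.cast_sum] at h2
  refine h2.trans ((sum_le_card_nsmul _ _
    ((q : ℝ) ^ Fintype.card ι * Real.exp (-((H.card - j) / q))) fun J hJ => ?_).trans ?_)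
  · have h := num_family c (fun k : ι => ({k} : Finset ι)) 1 (H \ J) (fun k _ => by simp)
      fun k _ l _ hkl => disjoint_singleton.2 hkl
    rw [card_sdiff_of_subset (mem_powersetCard.1 hJ).1, (mem_powersetCard.1 hJ).2,
      Nat.cast_sub hj, pow_one] at h
    exact h
  · rw [nsmul_eq_mul, card_powersetCard]
    refine mul_le_mul_of_nonneg_right ?_ (by positivity)
    exact_mod_cast Nat.choose_le_pow _ _

omit [Fintype ι] in
theorem exists_disjoint (G : Finset ι) (T : ι → Finset ι) (h1 : ∀ i ∈ G, i ∈ T i)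
    (h3 : ∀ i ∈ G, (T i).card ≤ 3) (h4 : ∀ k, (G.filter fun i => k ∈ T i).card ≤ 4) :
    ∃ K ⊆ G, (∀ k ∈ K, ∀ l ∈ K, k ≠ l → Disjoint (T k) (T l)) ∧ G.card ≤ 12 * K.card := by
  obtain ⟨K, hK, hmax⟩ := exists_max_image
    (G.powerset.filter fun K => ∀ k ∈ K, ∀ l ∈ K, k ≠ l → Disjoint (T k) (T l)) card
    ⟨∅, by simp⟩
  have hKG := mem_powerset.1 (mem_filter.1 hK).1
  have hKd := (mem_filter.1 hK).2
  refine ⟨K, hKG, hKd, ?_⟩
  have hcov : G ⊆ (K.biUnion T).biUnion fun k => G.filter fun i => k ∈ T i := by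
    intro i hi
    by_contra hn
    have hdis : ∀ l ∈ K, Disjoint (T i) (T l) := fun l hl => disjoint_left.2 fun a ha hb =>
      hn (mem_biUnion.2 ⟨a, mem_biUnion.2 ⟨l, hl, hb⟩, mem_filter.2 ⟨hi, ha⟩⟩)
    have hiK : i ∉ K := fun h => disjoint_left.1 (hdis i h) (h1 i hi) (h1 i hi)
    have h := hmax (insert i K) (mem_filter.2 ⟨mem_powerset.2 (insert_subset hi hKG),
      fun k hk l hl hkl => by
        rcases mem_insert.1 hk with rfl | hk' <;> rcases mem_insert.1 hl with rfl | hl'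
        · exact absurd rfl hkl
        · exact hdis l hl'
        · exact (hdis k hk').symm
        · exact hKd k hk' l hl' hkl⟩)
    rw [card_insert_of_notMem hiK] at h
    omega
  have a1 := card_biUnion_le_card_mul (K.biUnion T) (fun k => G.filter fun i => k ∈ T i) 4
    fun k _ => h4 k
  have a2 := card_biUnion_le_card_mul K T 3 fun k hk => h3 k (hKG hk)
  have a3 := card_le_card hcov
  omega

theorem exists_class {κ : Type} (K : Finset κ) (B : κ → Finset ι → Prop) (hq : 0 < q) {η : ℝ}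
    (hB : ∀ c : Fin q, ∀ k ∈ K,
      (num (fun χ : ι → Fin q => B k (univ.filter fun i => χ i = c)) : ℝ) ≤
        (q : ℝ) ^ Fintype.card ι * η) (hη : q * (K.card * η) < 1) :
    ∃ S : Finset ι, S.card * q ≤ Fintype.card ι ∧ ∀ k ∈ K, ¬ B k S := by
  have hq' : (0 : ℝ) < q := by exact_mod_cast hq
  have h1 := (Nat.cast_le (α := ℝ)).2 (num_exists ((univ : Finset (Fin q)) ×ˢ K)
    fun z (χ : ι → Fin q) => B z.2 (univ.filter fun i => χ i = z.1))
  rw [Nat.cast_sum] at h1
  have h2 := h1.trans (sum_le_card_nsmul _ _ _ fun z hz => hB z.1 z.2 (mem_product.1 hz).2)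
  rw [nsmul_eq_mul, card_product, card_univ, Fintype.card_fin] at h2
  push_cast at h2
  have h3 : ∃ χ : ι → Fin q, ¬ ∃ z ∈ (univ : Finset (Fin q)) ×ˢ K,
      B z.2 (univ.filter fun i => χ i = z.1) := by
    by_contra hn
    have h4 := num_mono (P := fun _ : ι → Fin q => True)
      (Q := fun χ => ∃ z ∈ (univ : Finset (Fin q)) ×ˢ K, B z.2 (univ.filter fun i => χ i = z.1))
      fun χ _ => by_contra fun h => hn ⟨χ, h⟩
    rw [num_true] at h4
    have h5 := ((Nat.cast_le (α := ℝ)).2 h4).trans h2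
    push_cast at h5
    have h6 := mul_lt_mul_of_pos_left hη (by positivity : (0 : ℝ) < (q : ℝ) ^ Fintype.card ι)
    nlinarith
  obtain ⟨χ, hχ⟩ := h3
  have h7 : ∃ c : Fin q, (univ.filter fun i => χ i = c).card * q ≤ Fintype.card ι := by
    by_contra hn
    have h8 : ∑ _c : Fin q, Fintype.card ι < ∑ c : Fin q, (univ.filter fun i => χ i = c).card * q :=
      sum_lt_sum_of_nonempty ⟨⟨0, hq⟩, mem_univ _⟩ fun c _ => not_le.1 fun h => hn ⟨c, h⟩
    rw [← sum_mul, ← card_eq_sum_card_fiberwise fun _ _ => mem_coe.2 (mem_univ _)] at h8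
    simp [mul_comm] at h8
  obtain ⟨c, hc⟩ := h7
  exact ⟨_, hc, fun k hk h => hχ ⟨(c, k), mem_product.2 ⟨mem_univ _, hk⟩, h⟩⟩

end Pool.Agent.Lib.MP_34b234_co.Ap
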