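import Mathlib

set_option autoImplicit false

namespace Pool.Agent.Lib.MP_34b234_co

/-- A permutation is Costas if its displacement vectors are pairwise distinct. -/
def IsCostas {n : ℕ} (f : Equiv.Perm (Fin n)) : Prop :=
  ∀ i j k l : Fin n, i < j → k < l →
    (((j : ℕ) : ℤ) - ((i : ℕ) : ℤ), ((f j : ℕ) : ℤ) - ((f i : ℕ) : ℤ)) =
      (((l : ℕ) : ℤ) - ((k : ℕ) : ℤ), ((f l : ℕ) : ℤ) - ((f k : ℕ) : ℤ)) →
    i = k ∧ j = l

/-- The values on the positions in `S` determine a Costas permutation among Costas permutations. -/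
def Determines {n : ℕ} (S : Finset (Fin n)) : Prop :=
  ∀ f g : Equiv.Perm (Fin n), IsCostas f → IsCostas g → (∀ i ∈ S, f i = g i) → f = g

/-- The degrees of freedom `k(n)`. -/
noncomputable def dof (n : ℕ) : ℕ :=
  sInf {k : ℕ | 1 ≤ k ∧ k ≤ n ∧ ∃ S : Finset (Fin n), S.card = k ∧ Determines S}

end Pool.Agent.Lib.MP_34b234_co
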