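import Mathlib
import Pool.Agent.Lib.MP_34b234_co.Defs
import Pool.Agent.Lib.MP_34b234_co.ApEnergy
import Pool.Agent.Lib.MP_34b234_co.ApProb

/-! One random set of positions nearly determines every member of a family of Costas
permutations. -/

set_option autoImplicit false

open Finset

namespace Pool.Agent.Lib.MP_34b234_co.Ap

variable {ι : Type} [Fintype ι] [DecidableEq ι] {q : ℕ}

open Classical in
/-- points near `x` whose difference to `x` is used -/
noncomputable def locU (p : ι → ℤ × ℤ) (u : ℕ) (x : ℤ × ℤ) : Finset ι :=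
  univ.filter fun j => x - p j ∈ box (-u) u ∧ Used p (x - p j)

open Classical in
/-- points near `x` whose difference to `x` is not used -/
noncomputable def locN (p : ι → ℤ × ℤ) (u : ℕ) (x : ℤ × ℤ) : Finset ι :=
  univ.filter fun j => x - p j ∈ box (-u) u ∧ ¬ Used p (x - p j)

/-- three points of `S` forbid the cell `x` -/
def Kill (p : ι → ℤ × ℤ) (x : ℤ × ℤ) (S : Finset ι) : Prop :=
  ∃ a ∈ S, ∃ b ∈ S, ∃ c ∈ S, b ≠ c ∧ x - p a = p b - p c

omit [DecidableEq ι] in
theorem mem_locU {p : ι → ℤ × ℤ} {u : ℕ} {x : ℤ × ℤ} {j : ι} :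
    j ∈ locU p u x ↔ x - p j ∈ box (-u) u ∧ Used p (x - p j) := by
  simp [locU]

omit [DecidableEq ι] in
theorem mem_locN {p : ι → ℤ × ℤ} {u : ℕ} {x : ℤ × ℤ} {j : ι} :
    j ∈ locN p u x ↔ x - p j ∈ box (-u) u ∧ ¬ Used p (x - p j) := by
  simp [locN]

theorem kill_num {p : ι → ℤ × ℤ} (hs : Sid p) {x : ℤ × ℤ} (hx : ∀ k, x ≠ p k) (u : ℕ)
    (col : Fin q) {M : ℝ} (hM : 12 * (q : ℝ) ^ 3 * M ≤ (locU p u x).card) :
    (num (fun χ : ι → Fin q => ¬ Kill p x (univ.filter fun i => χ i = col)) : ℝ) ≤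
      (q : ℝ) ^ Fintype.card ι * Real.exp (-M) := by
  have hex : ∀ i, ∃ b c, i ∈ locU p u x → b ≠ c ∧ x - p i = p b - p c := fun i => by
    by_cases hi : i ∈ locU p u x
    · obtain ⟨b, c, h⟩ := (mem_locU.1 hi).2
      exact ⟨b, c, fun _ => h⟩
    · exact ⟨i, i, fun h => absurd h hi⟩
  choose b c hbc using hex
  obtain ⟨K, hK, hd, hc⟩ := exists_disjoint (locU p u x) (fun i => {i, b i, c i})
    (fun i _ => mem_insert_self _ _) (fun i _ => card_le_three) fun k => by
      have a1 : ((locU p u x).filter fun i => i = k).card ≤ 1 :=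
        card_le_one.2 fun i hi j hj => (mem_filter.1 hi).2.trans (mem_filter.1 hj).2.symm
      have a2 : ((locU p u x).filter fun i => b i = k).card ≤ 1 :=
        card_le_one.2 fun i hi j hj => by
          have hi' := mem_filter.1 hi
          have hj' := mem_filter.1 hj
          have e1 := (hbc i hi'.1).2
          have e2 := (hbc j hj'.1).2
          rw [hi'.2] at e1
          rw [hj'.2] at e2
          have e3 : p i - p (c i) = x - p k := by linear_combination -e1
          have e4 : p j - p (c j) = x - p k := by linear_combination -e2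
          have hne : i ≠ c i := fun h => hx k (by
            rw [← h, sub_self] at e3
            exact (sub_eq_zero.1 e3.symm))
          exact (hs _ _ _ _ hne (e3.trans e4.symm)).1
      have a3 : ((locU p u x).filter fun i => c i = k).card ≤ 2 := by
        rcases ((locU p u x).filter fun i => c i = k).eq_empty_or_nonempty with h | ⟨j, hj⟩
        · rw [h]; simp
        refine le_trans (card_le_card (t := {j, b j}) fun i hi => ?_) card_le_two
        have hi' := mem_filter.1 hi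
        have hj' := mem_filter.1 hj
        have e1 := (hbc i hi'.1).2
        have e2 := (hbc j hj'.1).2
        rw [hi'.2] at e1
        rw [hj'.2] at e2
        by_cases hij : i = j
        · exact mem_insert.2 (Or.inl hij)
        · have e3 : p i - p j = p (b j) - p (b i) := by linear_combination e2 - e1
          exact mem_insert.2 (Or.inr (mem_singleton.2 (hs _ _ _ _ hij e3).1))
      have a4 : ((locU p u x).filter fun i => k ∈ ({i, b i, c i} : Finset ι)) ⊆
          ((locU p u x).filter fun i => i = k) ∪ (((locU p u x).filter fun i => b i = k) ∪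
            ((locU p u x).filter fun i => c i = k)) := fun i hi => by
        have hi' := mem_filter.1 hi
        simp only [mem_insert, mem_singleton] at hi'
        simp only [mem_union, mem_filter]
        rcases hi'.2 with h | h | h
        · exact Or.inl ⟨hi'.1, h.symm⟩
        · exact Or.inr (Or.inl ⟨hi'.1, h.symm⟩)
        · exact Or.inr (Or.inr ⟨hi'.1, h.symm⟩)
      have a5 := (card_le_card a4).trans
        ((card_union_le _ _).trans (Nat.add_le_add_left (card_union_le _ _) _))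
      omega
  have h1 := num_family col (fun i => ({i, b i, c i} : Finset ι)) 3 K
    (fun i _ => card_le_three) hd
  have h2 := num_mono (P := fun χ : ι → Fin q => ¬ Kill p x (univ.filter fun i => χ i = col))
    (Q := fun χ => ∀ k ∈ K, ¬ ∀ i ∈ ({k, b k, c k} : Finset ι), χ i = col) fun χ hχ k hk h =>
      hχ ⟨k, mem_filter.2 ⟨mem_univ _, h _ (by simp)⟩, b k, mem_filter.2 ⟨mem_univ _, h _ (by simp)⟩,
        c k, mem_filter.2 ⟨mem_univ _, h _ (by simp)⟩, hbc k (hK hk)⟩
  refine ((Nat.cast_le (α := ℝ)).2 h2).trans (h1.trans (mul_le_mul_of_nonneg_left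
    (Real.exp_le_exp.2 (neg_le_neg ?_)) (by positivity)))
  have hq : (0 : ℝ) < q := by exact_mod_cast col.pos
  have hc' : ((locU p u x).card : ℝ) ≤ 12 * K.card := by exact_mod_cast hc
  rw [le_div_iff₀ (by positivity)]
  linarith

theorem sample_num (H : Finset ι) (col : Fin q) {M l : ℝ} (hl : 1 ≤ l)
    (hN : (Fintype.card ι : ℝ) ≤ Real.exp l) (hM : 2 * q * M ≤ H.card) :
    (num (fun χ : ι → Fin q =>
      4 * q * l * ((H ∩ univ.filter fun i => χ i = col).card : ℝ) ≤ H.card) : ℝ) ≤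
      (q : ℝ) ^ Fintype.card ι * Real.exp (-M) := by
  have hq : (1 : ℝ) ≤ q := by exact_mod_cast col.pos
  have hql : (1 : ℝ) ≤ q * l := one_le_mul_of_one_le_of_one_le hq hl
  have hκ : (0 : ℝ) < 4 * q * l := by nlinarith
  have hH : (0 : ℝ) ≤ H.card := Nat.cast_nonneg _
  set j := ⌊(H.card : ℝ) / (4 * q * l)⌋₊ with hj
  have hj1 : (j : ℝ) * (4 * q * l) ≤ H.card :=
    (le_div_iff₀ hκ).1 (Nat.floor_le (by positivity))
  have hj0 : (0 : ℝ) ≤ j := Nat.cast_nonneg _
  have hj2 : 4 * (j : ℝ) ≤ H.card := by nlinarith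
  have hj3 : j ≤ H.card := by
    have h : (j : ℝ) ≤ H.card := by linarith
    exact_mod_cast h
  have h1 := num_sample col H j hj3
  have h2 := num_mono (P := fun χ : ι → Fin q =>
      4 * q * l * ((H ∩ univ.filter fun i => χ i = col).card : ℝ) ≤ H.card)
    (Q := fun χ => (H.filter fun i => χ i = col).card ≤ j) fun χ hχ => by
      have e : (H ∩ univ.filter fun i => χ i = col) = H.filter fun i => χ i = col := by
        ext i
        simp
      rw [e] at hχ
      exact Nat.le_floor ((le_div_iff₀' hκ).2 hχ)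
  have h3 : (H.card : ℝ) ^ j ≤ Real.exp (j * l) := by
    rw [Real.exp_nat_mul]
    refine pow_le_pow_left₀ hH (le_trans ?_ hN) j
    exact_mod_cast card_le_univ H
  refine ((Nat.cast_le (α := ℝ)).2 h2).trans (h1.trans
    ((mul_le_mul_of_nonneg_right h3 (by positivity)).trans ?_))
  rw [mul_left_comm, ← Real.exp_add]
  refine mul_le_mul_of_nonneg_left (Real.exp_le_exp.2 ?_) (by positivity)
  have hq0 : (0 : ℝ) < q := by linarith
  have h4 : M + j * l ≤ (H.card - j) / q := by
    rw [le_div_iff₀ hq0]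
    nlinarith
  linarith

theorem close_le {n u : ℕ} (hn : 0 < n) (hι : Fintype.card ι = n) (hun : u ≤ n)
    (hnu : n ≤ u ^ 2) {p p' : ι → ℤ × ℤ} (hp : ∀ i, p i ∈ box 0 n) (hs : Sid p)
    (hp' : ∀ i, p' i ∈ box 0 n) (hs' : Sid p') (S X : Finset ι) (hS : ∀ i ∈ S, p i = p' i)
    (hX : ∀ i ∈ X, i ∉ S) {r R h κ : ℝ} (hr : 0 < r) (hh : 0 ≤ h) (hκ : 0 ≤ κ)
    (hU : ∀ i ∈ X, ((locU p u (p' i)).card : ℝ) < R ∨ Kill p (p' i) S)
    (hN : ∀ i ∈ X, ((locN p u (p' i)).card : ℝ) < h ∨
      ((locN p u (p' i)).card : ℝ) < κ * ((locN p u (p' i) ∩ S).card : ℝ))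
    (hR : R + h ≤ (u : ℝ) ^ 2 / (8 * n)) :
    X.card * ((u : ℝ) ^ 2 / (8 * n)) ≤ (u : ℝ) ^ 2 / r + r * (n + 2 * (u : ℝ) ^ 3 / n) / 2 +
      κ * (9 * n + 486 * (u : ℝ) ^ 3 / n) := by
  classical
  have hu0 : 0 < u := Nat.pos_of_ne_zero fun h => by
    rw [h] at hnu
    omega
  have h1 := cross_ge hn hι hun hnu hp hs hp' hs' X hr
  have h2 := unused_le hn hu0 hι hp hs
  have h3 : ∑ i ∈ X, (locN p u (p' i) ∩ S).card ≤
      ((box (-u) u).filter fun d => ¬ Used p d).card := by
    rw [← card_sigma]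
    refine card_le_card_of_injOn (fun z => p' z.1 - p z.2) (fun z hz => ?_)
      (fun z hz z' hz' e => ?_)
    · have hz1 := mem_sigma.1 (mem_coe.1 hz)
      exact mem_coe.2 (mem_filter.2 (mem_locN.1 (mem_inter.1 hz1.2).1))
    · have hz1 := mem_sigma.1 (mem_coe.1 hz)
      have hz2 := mem_sigma.1 (mem_coe.1 hz')
      obtain ⟨i, s⟩ := z
      obtain ⟨k, t⟩ := z'
      have a1 : s ∈ S := (mem_inter.1 hz1.2).2
      have a2 : t ∈ S := (mem_inter.1 hz2.2).2
      have e' : p' i - p s = p' k - p t := e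
      rw [hS s a1, hS t a2] at e'
      obtain ⟨rfl, rfl⟩ := hs' i s k t (fun h => hX i hz1.1 (h ▸ a1)) e'
      rfl
  have h4 : ∀ i ∈ X, (((univ : Finset ι).filter fun j => p' i - p j ∈ box (-u) u).card : ℝ) ≤
      (u : ℝ) ^ 2 / (8 * n) + κ * ((locN p u (p' i) ∩ S).card : ℝ) := by
    intro i hi
    have a1 : ((univ : Finset ι).filter fun j => p' i - p j ∈ box (-u) u) ⊆
        locU p u (p' i) ∪ locN p u (p' i) := fun j hj => by
      by_cases hj' : Used p (p' i - p j)
      · exact mem_union_left _ (mem_locU.2 ⟨(mem_filter.1 hj).2, hj'⟩)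
      · exact mem_union_right _ (mem_locN.2 ⟨(mem_filter.1 hj).2, hj'⟩)
    have a2 := (Nat.cast_le (α := ℝ)).2 ((card_le_card a1).trans (card_union_le _ _))
    push_cast at a2
    have a3 : ((locU p u (p' i)).card : ℝ) < R := by
      refine (hU i hi).resolve_right ?_
      rintro ⟨a, ha, b, hb, c, hc, hbc, e⟩
      rw [hS a ha, hS b hb, hS c hc] at e
      exact hX i hi ((hs' b c i a hbc e.symm).1 ▸ hb)
    have a4 : 0 ≤ κ * ((locN p u (p' i) ∩ S).card : ℝ) := by positivity
    rcases hN i hi with a5 | a5 <;> linarith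
  have h5 := h1.trans (sum_le_sum h4)
  rw [sum_add_distrib, sum_const, nsmul_eq_mul, ← mul_sum, ← Nat.cast_sum] at h5
  have h6 := mul_le_mul_of_nonneg_left (((Nat.cast_le (α := ℝ)).2 h3).trans h2) hκ
  have e : X.card * (u : ℝ) ^ 2 / (4 * n) = 2 * (X.card * ((u : ℝ) ^ 2 / (8 * n))) := by ring
  linarith

/-- the points of the permutation matrix -/
def pt {n : ℕ} (f : Equiv.Perm (Fin n)) (i : Fin n) : ℤ × ℤ := (((i : ℕ) : ℤ), ((f i : ℕ) : ℤ))

theorem pt_mem {n : ℕ} (f : Equiv.Perm (Fin n)) (i : Fin n) : pt f i ∈ box 0 n := by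
  have h1 := i.2
  have h2 := (f i).2
  refine mem_box.2 ?_
  simp only [pt]
  omega

theorem pt_sid {n : ℕ} {f : Equiv.Perm (Fin n)} (hf : IsCostas f) : Sid (pt f) := by
  intro i j k l hij e
  simp only [pt, Prod.mk_sub_mk, Prod.mk.injEq] at e
  rcases lt_or_gt_of_ne hij with h | h
  · have h' : (i : ℕ) < j := h
    have h2 : k < l := Fin.lt_def.2 (by omega)
    exact hf i j k l h h2 (Prod.ext (by simp only; omega) (by simp only; omega))
  · have h' : (j : ℕ) < i := h
    have h2 : l < k := Fin.lt_def.2 (by omega)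
    exact (hf j i l k h h2 (Prod.ext (by simp only; omega) (by simp only; omega))).symm

theorem round {n q u : ℕ} (hn : 0 < n) (hq : 0 < q) (hqn : q ≤ n) (hun : u ≤ n)
    (hnu : n ^ 2 ≤ u ^ 3) (F : Finset (Equiv.Perm (Fin n))) (hF : ∀ f ∈ F, IsCostas f)
    {L l : ℝ} (hL0 : 0 ≤ L) (hL : (F.card : ℝ) ≤ Real.exp L) (hl : 1 ≤ l)
    (hnl : (n : ℝ) ≤ Real.exp l)
    (hc : 14 * (q : ℝ) ^ 3 * (L + 4 * l) ≤ (u : ℝ) ^ 2 / (8 * n)) :
    ∃ S : Finset (Fin n), S.card * q ≤ n ∧ ∀ f ∈ F, ∀ g : Equiv.Perm (Fin n), IsCostas g →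
      (∀ i ∈ S, f i = g i) →
      ((univ.filter fun i => f i ≠ g i).card : ℝ) ≤ 8 * n / q + 18000 * q * l * u := by
  have hn' : (0 : ℝ) < n := by exact_mod_cast hn
  have hq' : (1 : ℝ) ≤ q := by exact_mod_cast hq
  have hqn' : (q : ℝ) ≤ n := by exact_mod_cast hqn
  have hnu' : (n : ℝ) ^ 2 ≤ (u : ℝ) ^ 3 := by exact_mod_cast hnu
  have hnu2 : n ≤ u ^ 2 := by
    have h1 : u ^ 3 ≤ u ^ 2 * n := by
      rw [pow_succ]
      exact Nat.mul_le_mul_left _ hun
    have h2 : n * n ≤ u ^ 2 * n := by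
      rw [← sq]
      exact hnu.trans h1
    exact Nat.le_of_mul_le_mul_right h2 hn
  have hu0 : 0 < u := Nat.pos_of_ne_zero fun h => by
    rw [h] at hnu2
    omega
  have hu' : (0 : ℝ) < u := by exact_mod_cast hu0
  obtain ⟨S, hS, hB⟩ := exists_class (ι := Fin n) (q := q) (F ×ˢ box 0 n)
    (fun k S => (∀ j, k.2 ≠ pt k.1 j) ∧
      ((12 * (q : ℝ) ^ 3 * (L + 4 * l) ≤ (locU (pt k.1) u k.2).card ∧ ¬ Kill (pt k.1) k.2 S) ∨
      (2 * q * (L + 4 * l) ≤ (locN (pt k.1) u k.2).card ∧
        4 * q * l * ((locN (pt k.1) u k.2 ∩ S).card : ℝ) ≤ (locN (pt k.1) u k.2).card)))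
    hq (η := 2 * Real.exp (-(L + 4 * l))) (fun c k hk => by
      have hs := pt_sid (hF _ (mem_product.1 hk).1)
      have h0 : ∀ P : (Fin n → Fin q) → Prop, (∀ χ, ¬ P χ) → (num P : ℝ) ≤
          (q : ℝ) ^ Fintype.card (Fin n) * Real.exp (-(L + 4 * l)) := fun P hP => by
        have e : num P = 0 := card_eq_zero.2 (eq_empty_of_forall_notMem fun χ h =>
          hP χ (mem_cset.1 h))
        rw [e, Nat.cast_zero]
        positivity
      have h1 : (num (fun χ : Fin n → Fin q => (∀ j, k.2 ≠ pt k.1 j) ∧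
          12 * (q : ℝ) ^ 3 * (L + 4 * l) ≤ (locU (pt k.1) u k.2).card ∧
            ¬ Kill (pt k.1) k.2 (univ.filter fun i => χ i = c)) : ℝ) ≤
          (q : ℝ) ^ Fintype.card (Fin n) * Real.exp (-(L + 4 * l)) := by
        by_cases a : (∀ j, k.2 ≠ pt k.1 j) ∧
          12 * (q : ℝ) ^ 3 * (L + 4 * l) ≤ (locU (pt k.1) u k.2).card
        · exact ((Nat.cast_le (α := ℝ)).2 (num_mono fun χ h => h.2.2)).trans
            (kill_num hs a.1 u c a.2)
        · exact h0 _ fun χ h => a ⟨h.1, h.2.1⟩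
      have h2 : (num (fun χ : Fin n → Fin q =>
          2 * q * (L + 4 * l) ≤ (locN (pt k.1) u k.2).card ∧
            4 * q * l * ((locN (pt k.1) u k.2 ∩ univ.filter fun i => χ i = c).card : ℝ) ≤
              (locN (pt k.1) u k.2).card) : ℝ) ≤
          (q : ℝ) ^ Fintype.card (Fin n) * Real.exp (-(L + 4 * l)) := by
        by_cases a : 2 * q * (L + 4 * l) ≤ (locN (pt k.1) u k.2).card
        · exact ((Nat.cast_le (α := ℝ)).2 (num_mono fun χ h => h.2)).trans
            (sample_num _ c hl (by rwa [Fintype.card_fin]) a)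
        · exact h0 _ fun χ h => a h.1
      refine le_trans ((Nat.cast_le (α := ℝ)).2 ((num_mono fun χ h => ?_).trans (num_or _ _)))
        (le_trans (le_of_eq (Nat.cast_add _ _)) ((add_le_add h1 h2).trans (le_of_eq (by ring))))
      exact h.2.imp (fun h' => ⟨h.1, h'⟩) id) (by
      rw [card_product, card_box0]
      push_cast
      have h1 : (q : ℝ) * (n : ℝ) ^ 2 ≤ Real.exp l ^ 3 := by
        have h := pow_le_pow_left₀ hn'.le hnl 3
        nlinarith
      have h2 : Real.exp L * Real.exp l ^ 3 * Real.exp (-(L + 4 * l)) * Real.exp l = 1 := by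
        rw [← Real.exp_nat_mul, ← Real.exp_add, ← Real.exp_add, ← Real.exp_add, ← Real.exp_zero]
        congr 1
        push_cast
        ring
      have h3 : (2 : ℝ) < Real.exp l := by
        have h := Real.add_one_lt_exp (x := l) (by linarith)
        linarith
      have h4 := mul_le_mul_of_nonneg_right
        (mul_le_mul hL h1 (by positivity) (Real.exp_pos L).le) (Real.exp_pos (-(L + 4 * l))).le
      have h5 : 0 < Real.exp L * Real.exp l ^ 3 * Real.exp (-(L + 4 * l)) := by positivity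
      nlinarith)
  rw [Fintype.card_fin] at hS
  refine ⟨S, hS, fun f hf g hg hfg => ?_⟩
  have hx : ∀ i ∈ univ.filter fun i => f i ≠ g i, ∀ j, pt g i ≠ pt f j := fun i hi j e => by
    simp only [pt, Prod.mk.injEq, Nat.cast_inj] at e
    have e1 : i = j := Fin.ext e.1
    subst e1
    exact (mem_filter.1 hi).2 (Fin.ext e.2.symm)
  have hb := fun i (hi : i ∈ univ.filter fun i => f i ≠ g i) =>
    not_or.1 fun h => hB (f, pt g i) (mem_product.2 ⟨hf, pt_mem g i⟩) ⟨hx i hi, h⟩
  have hM : 0 ≤ L + 4 * l := by linarith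
  have h1 := close_le hn (Fintype.card_fin n) hun hnu2 (pt_mem f) (pt_sid (hF f hf)) (pt_mem g)
    (pt_sid hg) S (univ.filter fun i => f i ≠ g i) (fun i hi => by simp only [pt, hfg i hi])
    (fun i hi h => (mem_filter.1 hi).2 (hfg i h)) (r := q) (R := 12 * (q : ℝ) ^ 3 * (L + 4 * l))
    (h := 2 * q * (L + 4 * l)) (κ := 4 * q * l) (by linarith) (by positivity) (by positivity)
    (fun i hi => by
      by_contra h
      exact (hb i hi).1 ⟨not_lt.1 fun h' => h (Or.inl h'), fun h' => h (Or.inr h')⟩)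
    (fun i hi => by
      by_contra h
      exact (hb i hi).2 ⟨not_lt.1 fun h' => h (Or.inl h'), not_lt.1 fun h' => h (Or.inr h')⟩)
    (by
      have h : (q : ℝ) ≤ (q : ℝ) ^ 3 := le_self_pow₀ hq' (by norm_num)
      have h' := mul_le_mul_of_nonneg_right h hM
      linarith)
  have h2 : (n : ℝ) ≤ (u : ℝ) ^ 3 / n := by
    rw [le_div_iff₀ hn']
    nlinarith
  set w := (u : ℝ) ^ 3 / n with hw
  have hw0 : 0 ≤ w := by positivity
  have e1 : 2 * (u : ℝ) ^ 3 / n = 2 * w := by rw [hw]; ring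
  have e2 : 486 * (u : ℝ) ^ 3 / n = 486 * w := by rw [hw]; ring
  rw [e1, e2] at h1
  have hql : (q : ℝ) ≤ q * l := le_mul_of_one_le_right (by linarith) hl
  have a1 : (q : ℝ) * (n + 2 * w) ≤ q * l * (3 * w) :=
    mul_le_mul hql (by linarith) (by positivity) (by positivity)
  have a2 : 4 * q * l * (9 * n + 486 * w) ≤ 4 * q * l * (495 * w) :=
    mul_le_mul_of_nonneg_left (by linarith) (by positivity)
  have a3 : 0 ≤ q * l * w := by positivity
  refine le_of_mul_le_mul_right ?_ (by positivity : (0 : ℝ) < (u : ℝ) ^ 2 / (8 * n))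
  have e3 : (8 * n / q + 18000 * q * l * u) * ((u : ℝ) ^ 2 / (8 * n)) =
      (u : ℝ) ^ 2 / q + 2250 * (q * l * w) := by
    rw [hw]
    field_simp
    ring
  rw [e3]
  nlinarith

end Pool.Agent.Lib.MP_34b234_co.Ap
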