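import Mathlib
import Pool.Agent.Lib.MP_34b234_co.ApRound

/-! The number of Costas permutations, and one set of positions for all of them. -/

set_option autoImplicit false

open Finset

namespace Pool.Agent.Lib.MP_34b234_co.Ap

theorem card_small (α : Type) [Fintype α] [DecidableEq α] (s : ℕ) :
    ((univ : Finset (Finset α)).filter fun B => B.card ≤ s).card ≤ (Fintype.card α + 1) ^ s := by
  have h1 : ((univ : Finset (Finset α)).filter fun B => B.card ≤ s) ⊆
      (range (s + 1)).biUnion fun k => powersetCard k univ := fun B hB =>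
    mem_biUnion.2 ⟨B.card, mem_range.2 (Nat.lt_succ_of_le (mem_filter.1 hB).2),
      mem_powersetCard.2 ⟨subset_univ _, rfl⟩⟩
  refine (card_le_card h1).trans (card_biUnion_le.trans ?_)
  rw [add_pow]
  refine sum_le_sum fun k hk => ?_
  rw [card_powersetCard, card_univ, one_pow, mul_one, Nat.cast_id]
  exact (Nat.choose_le_pow _ _).trans
    (Nat.le_mul_of_pos_right _ (Nat.choose_pos (Nat.lt_succ_iff.1 (mem_range.1 hk))))

theorem count_le {n s m : ℕ} (F : Finset (Equiv.Perm (Fin n)))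
    (h : ∀ f ∈ F, ∃ S : Finset (Fin n), S.card ≤ s ∧ ∀ g ∈ F, (∀ i ∈ S, f i = g i) →
      (univ.filter fun i => f i ≠ g i).card ≤ m) : F.card ≤ (n * n + 1) ^ (s + m) := by
  choose! S hS using h
  let key : Equiv.Perm (Fin n) → Finset (Fin n × Fin n) := fun f => (S f).image fun i => (i, f i)
  have hc : Fintype.card (Fin n × Fin n) = n * n := by simp
  have h1 : (F.image key).card ≤ (n * n + 1) ^ s := by
    rw [← hc]
    refine (card_le_card fun B hB => ?_).trans (card_small _ s)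
    obtain ⟨f, hf, rfl⟩ := mem_image.1 hB
    exact mem_filter.2 ⟨mem_univ _, card_image_le.trans (hS f hf).1⟩
  have h2 : ∀ B ∈ F.image key, (F.filter fun g => key g = B).card ≤ (n * n + 1) ^ m := by
    intro B hB
    obtain ⟨f, hf, rfl⟩ := mem_image.1 hB
    rw [← hc]
    refine le_trans (card_le_card_of_injOn
      (fun g => (univ.filter fun i => f i ≠ g i).image fun i => (i, g i)) (fun g hg => ?_)
      fun g _ g' _ e => ?_) (card_small _ m)
    · have hg' := mem_filter.1 (mem_coe.1 hg)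
      refine mem_coe.2 (mem_filter.2 ⟨mem_univ _,
        card_image_le.trans ((hS f hf).2 g hg'.1 fun i hi => ?_)⟩)
      have a : (i, f i) ∈ key g := by
        rw [hg'.2]
        exact mem_image_of_mem _ hi
      obtain ⟨j, _, e⟩ := mem_image.1 a
      obtain ⟨rfl, e2⟩ := Prod.mk.inj e
      exact e2.symm
    · have key2 : ∀ a b : Equiv.Perm (Fin n),
          ((univ.filter fun i => f i ≠ a i).image fun i => (i, a i)) =
            ((univ.filter fun i => f i ≠ b i).image fun i => (i, b i)) →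
          ∀ i, f i ≠ a i → b i = a i := fun a b e i hi => by
        have a1 : (i, a i) ∈ (univ.filter fun i => f i ≠ b i).image fun i => (i, b i) := by
          rw [← e]
          exact mem_image_of_mem _ (mem_filter.2 ⟨mem_univ _, hi⟩)
        obtain ⟨j, _, e⟩ := mem_image.1 a1
        obtain ⟨rfl, e2⟩ := Prod.mk.inj e
        exact e2
      refine Equiv.ext fun i => ?_
      by_cases a : f i = g i
      · by_cases b : f i = g' i
        · exact a.symm.trans b
        · exact key2 g' g e.symm i b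
      · exact (key2 g g' e i a).symm
  rw [pow_add, mul_comm]
  exact (card_le_mul_card_image F _ h2).trans (Nat.mul_le_mul_left _ h1)

theorem round_t {n t : ℕ} (ht : 0 < t) (F : Finset (Equiv.Perm (Fin n)))
    (hF : ∀ f ∈ F, IsCostas f) {L l : ℝ} (hL0 : 0 ≤ L) (hL : (F.card : ℝ) ≤ Real.exp L)
    (hl : 1 ≤ l) (hnl : (n : ℝ) ≤ Real.exp l) (hc : 448 * (t : ℝ) ^ 7 * (L + 4 * l) ≤ n) :
    ∃ S : Finset (Fin n), (S.card : ℝ) ≤ n / t ∧ ∀ f ∈ F, ∀ g : Equiv.Perm (Fin n), IsCostas g →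
      (∀ i ∈ S, f i = g i) →
      ((univ.filter fun i => f i ≠ g i).card : ℝ) ≤ 18008 * l * (n / t) := by
  have ht' : (1 : ℝ) ≤ t := by exact_mod_cast ht
  have ht0 : (0 : ℝ) < t := by linarith
  have h7 : 8 * t ^ 7 ≤ n := by
    have h1 : (0 : ℝ) < (t : ℝ) ^ 7 := by positivity
    have h2 : (8 : ℝ) * (t : ℝ) ^ 7 ≤ n := by nlinarith
    exact_mod_cast h2
  have p1 : t ≤ t ^ 7 := Nat.le_self_pow (by norm_num) t
  have p2 : t ^ 2 ≤ t ^ 7 := Nat.pow_le_pow_right ht (by norm_num)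
  have p6 : t ^ 6 ≤ t ^ 7 := Nat.pow_le_pow_right ht (by norm_num)
  have hn : 0 < n := by omega
  have hn' : (0 : ℝ) < n := by exact_mod_cast hn
  have ht2 : 0 < t ^ 2 := by positivity
  have hu1 : n / t ^ 2 * t ^ 2 ≤ n := Nat.div_mul_le_self _ _
  have hu2 : n < n / t ^ 2 * t ^ 2 + t ^ 2 := Nat.lt_div_mul_add ht2
  set u := n / t ^ 2 with hu
  have hu3 : n ≤ 2 * (u * t ^ 2) := by omega
  have hu1' : (u : ℝ) * (t : ℝ) ^ 2 ≤ n := by exact_mod_cast hu1
  have hu3' : (n : ℝ) ≤ 2 * (u * (t : ℝ) ^ 2) := by exact_mod_cast hu3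
  have hnu : n ^ 2 ≤ u ^ 3 := by
    have a1 : n ^ 3 ≤ (2 * (u * t ^ 2)) ^ 3 := Nat.pow_le_pow_left hu3 3
    have a2 : (2 * (u * t ^ 2)) ^ 3 = u ^ 3 * (8 * t ^ 6) := by ring
    have a3 : u ^ 3 * (8 * t ^ 6) ≤ u ^ 3 * n := Nat.mul_le_mul_left _ (by omega)
    have a4 : n ^ 2 * n ≤ u ^ 3 * n := by
      have e : n ^ 2 * n = n ^ 3 := by ring
      omega
    exact Nat.le_of_mul_le_mul_right a4 hn
  obtain ⟨S, hS, h⟩ := round hn ht (by omega) (Nat.div_le_self _ _) hnu F hF hL0 hL hl hnl (by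
    rw [le_div_iff₀ (by positivity)]
    have a1 := pow_le_pow_left₀ hn'.le hu3' 2
    have a2 := mul_le_mul_of_nonneg_right hc hn'.le
    refine le_of_mul_le_mul_right ?_ (by positivity : (0 : ℝ) < 4 * (t : ℝ) ^ 4)
    nlinarith)
  refine ⟨S, ?_, fun f hf g hg hfg => (h f hf g hg hfg).trans ?_⟩
  · rw [le_div_iff₀ ht0]
    exact_mod_cast hS
  · have a1 : (t : ℝ) * u ≤ n / t := by
      rw [le_div_iff₀ ht0]
      nlinarith
    have a2 := mul_le_mul_of_nonneg_left a1 (by linarith : 0 ≤ l)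
    have a3 : (n : ℝ) / t ≤ l * (n / t) := le_mul_of_one_le_left (by positivity) hl
    have e : 8 * (n : ℝ) / t = 8 * (n / t) := by ring
    nlinarith

theorem floor_half {z : ℝ} (hz : 1 ≤ z) : 0 < ⌊z⌋₊ ∧ (⌊z⌋₊ : ℝ) ≤ z ∧ z ≤ 2 * ⌊z⌋₊ := by
  have h1 : 0 < ⌊z⌋₊ := Nat.floor_pos.2 hz
  have h2 : (1 : ℝ) ≤ ⌊z⌋₊ := by exact_mod_cast h1
  have h3 := Nat.lt_floor_add_one z
  exact ⟨h1, Nat.floor_le (by linarith), by linarith⟩

theorem one_le_log {n : ℕ} (hn : 3 ≤ n) : 1 ≤ Real.log n := by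
  have h3 : (3 : ℝ) ≤ n := by exact_mod_cast hn
  rw [Real.le_log_iff_exp_le (by linarith)]
  exact (Real.exp_one_lt_d9.le.trans (by norm_num)).trans h3

theorem count_pow {n : ℕ} (hn : 3 ≤ n) (F : Finset (Equiv.Perm (Fin n)))
    (hF : ∀ f ∈ F, IsCostas f) {y : ℝ} (hy0 : 0 < y) (hy : y ^ 7 = n) :
    (F.card : ℝ) ≤ Real.exp (324162 * y ^ 6 * Real.log n ^ 3) := by
  have h3 : (3 : ℝ) ≤ n := by exact_mod_cast hn
  have hl := one_le_log hn
  have hnl : Real.exp (Real.log n) = n := Real.exp_log (by linarith)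
  set l := Real.log n with hldef
  have hy6 : 0 < y ^ 6 := by positivity
  have hl2 : l ^ 2 ≤ l ^ 3 := pow_le_pow_right₀ hl (by norm_num)
  rcases lt_or_ge y (3 * l) with h | h
  · have a1 : F.card ≤ n ^ n := by
      refine (card_le_univ F).trans ?_
      rw [Fintype.card_perm, Fintype.card_fin]
      exact Nat.factorial_le_pow n
    have a2 : (F.card : ℝ) ≤ Real.exp (n * l) := by
      rw [Real.exp_nat_mul, hnl]
      exact_mod_cast a1
    refine a2.trans (Real.exp_le_exp.2 ?_)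
    have a3 : (n : ℝ) ≤ y ^ 6 * (3 * l) := by
      rw [← hy, pow_succ]
      exact mul_le_mul_of_nonneg_left h.le hy6.le
    have a4 := mul_le_mul_of_nonneg_right a3 (by linarith : 0 ≤ l)
    have a5 := mul_le_mul_of_nonneg_left hl2 hy6.le
    have a6 : 0 ≤ y ^ 6 * l ^ 3 := by positivity
    nlinarith
  · have hl0 : 0 < 3 * l := by linarith
    obtain ⟨t1, t2, t3⟩ := floor_half ((one_le_div hl0).2 h)
    set t := ⌊y / (3 * l)⌋₊ with ht
    have ht0 : (0 : ℝ) < t := by exact_mod_cast t1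
    rw [le_div_iff₀ hl0] at t2
    rw [div_le_iff₀ hl0] at t3
    have hc : 448 * (t : ℝ) ^ 7 * (0 + 4 * l) ≤ n := by
      have a1 := pow_le_pow_left₀ (by positivity) t2 7
      have a2 : l ≤ l ^ 7 := le_self_pow₀ hl (by norm_num)
      have a3 := mul_le_mul_of_nonneg_left a2 (by positivity : (0 : ℝ) ≤ (t : ℝ) ^ 7)
      have a4 : 0 ≤ (t : ℝ) ^ 7 * l ^ 7 := by positivity
      rw [hy] at a1
      nlinarith
    have hnt : (n : ℝ) / t ≤ 6 * l * y ^ 6 := by
      rw [div_le_iff₀ ht0, ← hy, pow_succ]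
      nlinarith
    have hnt0 : 0 ≤ (n : ℝ) / t := by positivity
    have a1 := count_le (s := ⌊(n : ℝ) / t⌋₊) (m := ⌊18008 * l * (n / t)⌋₊) F fun f hf => by
      obtain ⟨S, hS, hh⟩ := round_t t1 {f} (fun g hg => by rw [mem_singleton.1 hg]; exact hF f hf)
        (L := 0) le_rfl (by simp) hl hnl.ge hc
      exact ⟨S, Nat.le_floor hS, fun g hg e =>
        Nat.le_floor (hh f (mem_singleton_self f) g (hF g hg) e)⟩
    have a2 : ((n * n + 1 : ℕ) : ℝ) ≤ Real.exp (3 * l) := by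
      have e : Real.exp (3 * l) = (n : ℝ) ^ 3 := by
        rw [← hnl, ← Real.exp_nat_mul]
        norm_num
      rw [e]
      push_cast
      nlinarith
    have a3 := ((Nat.cast_le (α := ℝ)).2 a1).trans
      (le_of_eq_of_le (Nat.cast_pow _ _) (pow_le_pow_left₀ (Nat.cast_nonneg _) a2 _))
    rw [← Real.exp_nat_mul] at a3
    refine a3.trans (Real.exp_le_exp.2 ?_)
    have b1 := Nat.floor_le hnt0
    have b2 := Nat.floor_le (a := 18008 * l * (n / t)) (by positivity)
    have b3 : (n : ℝ) / t ≤ l * (n / t) := le_mul_of_one_le_left hnt0 hl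
    have b4 := mul_le_mul_of_nonneg_left hnt (by linarith : 0 ≤ l)
    have b5 : ((⌊(n : ℝ) / t⌋₊ + ⌊18008 * l * (n / t)⌋₊ : ℕ) : ℝ) ≤
        18009 * (l * (6 * l * y ^ 6)) := by
      push_cast
      linarith
    have b6 := mul_le_mul_of_nonneg_right b5 hl0.le
    nlinarith

theorem root_pow {x : ℝ} (hx : 0 ≤ x) (a : ℝ) (k : ℕ) : (x ^ a) ^ k = x ^ (a * k) := by
  rw [← Real.rpow_natCast, ← Real.rpow_mul hx]

theorem count_main : ∃ C : ℝ, ∀ n : ℕ, 3 ≤ n →
    ({f : Equiv.Perm (Fin n) | IsCostas f}.ncard : ℝ) ≤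
      Real.exp (C * (n : ℝ) ^ (6 / 7 : ℝ) * Real.log n ^ 3) := by
  classical
  refine ⟨324162, fun n hn => ?_⟩
  have h0 : (0 : ℝ) < n := by exact_mod_cast (by omega : 0 < n)
  have h := count_pow hn (univ.filter IsCostas) (fun f hf => (mem_filter.1 hf).2)
    (y := (n : ℝ) ^ (1 / 7 : ℝ)) (by positivity) (by rw [root_pow h0.le]; norm_num)
  rw [root_pow h0.le] at h
  have e : {f : Equiv.Perm (Fin n) | IsCostas f} =
      ((univ.filter IsCostas : Finset (Equiv.Perm (Fin n))) : Set (Equiv.Perm (Fin n))) := by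
    ext f
    simp
  rw [e, Set.ncard_coe_finset]
  norm_num at h ⊢
  exact h

theorem hit_far {n q : ℕ} (hq : 0 < q) (F : Finset (Equiv.Perm (Fin n))) {L l : ℝ}
    (hL : (F.card : ℝ) ≤ Real.exp L) (hl : 0 < l) (hql : (q : ℝ) ≤ Real.exp l) :
    ∃ S : Finset (Fin n), S.card * q ≤ n ∧ ∀ f ∈ F, ∀ g ∈ F, (∀ i ∈ S, f i = g i) →
      ((univ.filter fun i => f i ≠ g i).card : ℝ) ≤ q * (2 * L + 2 * l) := by
  have hq' : (0 : ℝ) < q := by exact_mod_cast hq
  obtain ⟨S, hS, hB⟩ := exists_class (ι := Fin n) (q := q) (F ×ˢ F)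
    (fun k S => q * (2 * L + 2 * l) ≤ ((univ.filter fun i => k.1 i ≠ k.2 i).card : ℝ) ∧
      ∀ i ∈ S, k.1 i = k.2 i) hq (η := Real.exp (-(2 * L + 2 * l))) (fun c k _ => by
      by_cases a : q * (2 * L + 2 * l) ≤ ((univ.filter fun i => k.1 i ≠ k.2 i).card : ℝ)
      · have h := num_family c (fun i : Fin n => ({i} : Finset (Fin n))) 1
          (univ.filter fun i => k.1 i ≠ k.2 i) (fun i _ => by simp)
          fun i _ j _ hij => disjoint_singleton.2 hij
        refine ((Nat.cast_le (α := ℝ)).2 (num_mono fun χ hχ i hi hc => ?_)).trans (h.trans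
          (mul_le_mul_of_nonneg_left (Real.exp_le_exp.2 (neg_le_neg ?_)) (by positivity)))
        · exact (mem_filter.1 hi).2
            (hχ.2 i (mem_filter.2 ⟨mem_univ _, hc i (mem_singleton_self i)⟩))
        · rw [pow_one, le_div_iff₀' hq']
          exact a
      · rw [show num _ = 0 from card_eq_zero.2 (eq_empty_of_forall_notMem fun χ h =>
          a (mem_cset.1 h).1), Nat.cast_zero]
        positivity) (by
      rw [card_product]
      push_cast
      have h1 := mul_le_mul hql (mul_le_mul_of_nonneg_right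
        (mul_le_mul hL hL (Nat.cast_nonneg _) (Real.exp_pos L).le)
        (Real.exp_pos (-(2 * L + 2 * l))).le) (by positivity) (Real.exp_pos l).le
      refine h1.trans_lt ?_
      rw [← Real.exp_add, ← Real.exp_add, ← Real.exp_add, Real.exp_lt_one_iff]
      linarith)
  rw [Fintype.card_fin] at hS
  exact ⟨S, hS, fun f hf g hg e =>
    (not_le.1 fun h => hB (f, g) (mem_product.2 ⟨hf, hg⟩) ⟨h, e⟩).le⟩

theorem approx_main : ∃ C : ℝ, ∀ n q : ℕ, 3 ≤ n → 1 ≤ q → ∃ S : Finset (Fin n),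
    S.card * q ≤ n ∧
      ∀ f g : Equiv.Perm (Fin n), IsCostas f → IsCostas g → (∀ i ∈ S, f i = g i) →
        ((univ.filter fun i => f i ≠ g i).card : ℝ) ≤
          C * q * (n : ℝ) ^ (6 / 7 : ℝ) * Real.log n ^ 3 := by
  classical
  refine ⟨648326, fun n q hn hq => ?_⟩
  have h0 : (0 : ℝ) < n := by exact_mod_cast (by omega : 0 < n)
  have hl := one_le_log hn
  have hl3 : Real.log n ≤ Real.log n ^ 3 := le_self_pow₀ hl (by norm_num)
  have hy : (1 : ℝ) ≤ (n : ℝ) ^ (6 / 7 : ℝ) :=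
    Real.one_le_rpow (by exact_mod_cast (by omega : 1 ≤ n)) (by norm_num)
  have hyl : Real.log n ^ 3 ≤ (n : ℝ) ^ (6 / 7 : ℝ) * Real.log n ^ 3 :=
    le_mul_of_one_le_left (by positivity) hy
  have hq0 : (0 : ℝ) ≤ q := Nat.cast_nonneg q
  rcases le_or_gt q n with h | h
  · have hcnt := count_pow hn (univ.filter IsCostas) (fun f hf => (mem_filter.1 hf).2)
      (y := (n : ℝ) ^ (1 / 7 : ℝ)) (by positivity) (by rw [root_pow h0.le]; norm_num)
    have e : ((n : ℝ) ^ (1 / 7 : ℝ)) ^ 6 = (n : ℝ) ^ (6 / 7 : ℝ) := by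
      rw [root_pow h0.le]
      norm_num
    rw [e] at hcnt
    obtain ⟨S, hS, hh⟩ := hit_far hq _ hcnt (l := Real.log n) (by linarith)
      (by rw [Real.exp_log h0]; exact_mod_cast h)
    refine ⟨S, hS, fun f g hf hg a =>
      (hh f (mem_filter.2 ⟨mem_univ _, hf⟩) g (mem_filter.2 ⟨mem_univ _, hg⟩) a).trans ?_⟩
    have b := mul_le_mul_of_nonneg_left (hl3.trans hyl) hq0
    linarith
  · refine ⟨∅, by simp, fun f g _ _ _ => ?_⟩
    have a := card_le_univ (univ.filter fun i => f i ≠ g i)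
    rw [Fintype.card_fin] at a
    have a1 : ((univ.filter fun i => f i ≠ g i).card : ℝ) ≤ q := by
      exact_mod_cast a.trans h.le
    have b := mul_le_mul_of_nonneg_left ((hl.trans hl3).trans hyl) hq0
    linarith

end Pool.Agent.Lib.MP_34b234_co.Ap
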