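import Pool.Agent.Lib.MP_34b234_co.Defs
import Pool.Agent.Lib.MP_34b234_co.Check

/-!
The ring with `2 ^ 13` elements, its Zech logarithm, and discrete logarithms modulo `8191`.
-/

set_option autoImplicit false

namespace Pool.Agent.Lib.MP_34b234_co

open Polynomial

/-! ### The prime 8191 -/

instance fact_prime : Fact (Nat.Prime 8191) := ⟨by norm_num⟩

/-- The primitive root `17` modulo `8191`. -/
def gam : ZMod 8191 := 17

theorem gam_pow (l : ℕ) : gam ^ l = ((17 ^ l % 8191 : ℕ) : ZMod 8191) := by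
  rw [ZMod.natCast_mod]
  simp [gam]

theorem gam_pow_ne (l : ℕ) (h : 17 ^ l % 8191 ≠ 1) : gam ^ l ≠ 1 := by
  rw [gam_pow]
  intro e
  have := (ZMod.natCast_eq_natCast_iff' (17 ^ l % 8191) 1 8191).1 (by simpa using e)
  rw [Nat.mod_mod] at this
  exact h this

theorem orderOf_gam : orderOf gam = 8190 := by
  apply orderOf_eq_of_pow_and_pow_div_prime (by norm_num)
  · rw [gam_pow]
    have : 17 ^ 8190 % 8191 = 1 := by decide +kernel
    rw [this]; simp
  · intro q hq hd
    have h2 : q ∣ 2 * (3 * (3 * (5 * (7 * 13)))) := hd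
    have hq' : q = 2 ∨ q = 3 ∨ q = 5 ∨ q = 7 ∨ q = 13 := by
      simp only [hq.dvd_mul] at h2
      rcases h2 with h | h | h | h | h | h
      · exact Or.inl ((Nat.prime_dvd_prime_iff_eq hq (by norm_num)).1 h)
      · exact Or.inr (Or.inl ((Nat.prime_dvd_prime_iff_eq hq (by norm_num)).1 h))
      · exact Or.inr (Or.inl ((Nat.prime_dvd_prime_iff_eq hq (by norm_num)).1 h))
      · exact Or.inr (Or.inr (Or.inl ((Nat.prime_dvd_prime_iff_eq hq (by norm_num)).1 h)))
      · exact Or.inr (Or.inr (Or.inr (Or.inl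
          ((Nat.prime_dvd_prime_iff_eq hq (by norm_num)).1 h))))
      · exact Or.inr (Or.inr (Or.inr (Or.inr
          ((Nat.prime_dvd_prime_iff_eq hq (by norm_num)).1 h))))
    rcases hq' with rfl | rfl | rfl | rfl | rfl <;> apply gam_pow_ne <;> decide +kernel

theorem gam_ne_zero : gam ≠ 0 := by
  intro h
  have := pow_orderOf_eq_one gam
  rw [orderOf_gam, h] at this
  simp at this

theorem gam_pow_eq_iff (a b : ℕ) : gam ^ a = gam ^ b ↔ (a : ZMod 8190) = (b : ZMod 8190) := by
  have hfin : IsOfFinOrder gam := by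
    rw [← orderOf_pos_iff, orderOf_gam]; norm_num
  rw [hfin.pow_inj_mod, orderOf_gam, ZMod.natCast_eq_natCast_iff']

theorem exists_lg (z : ZMod 8191) (hz : z ≠ 0) : ∃ l, l < 8190 ∧ gam ^ l = z := by
  have hp : IsPrimitiveRoot gam 8190 := by
    have := IsPrimitiveRoot.orderOf gam
    rwa [orderOf_gam] at this
  exact hp.eq_pow_of_pow_eq_one (ZMod.pow_card_sub_one_eq_one hz)

/-- Discrete logarithm. -/
noncomputable def lg (z : ZMod 8191) : ℕ :=
  if h : z ≠ 0 then (exists_lg z h).choose else 0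

theorem lg_lt {z : ZMod 8191} (hz : z ≠ 0) : lg z < 8190 := by
  rw [lg, dif_pos hz]; exact (exists_lg z hz).choose_spec.1

theorem gam_lg {z : ZMod 8191} (hz : z ≠ 0) : gam ^ lg z = z := by
  rw [lg, dif_pos hz]; exact (exists_lg z hz).choose_spec.2

/-- Discrete logarithm as a residue. -/
noncomputable def lam (z : ZMod 8191) : ZMod 8190 := (lg z : ZMod 8190)

theorem lam_pow (l : ℕ) : lam (gam ^ l) = (l : ZMod 8190) :=
  (gam_pow_eq_iff _ _).1 (gam_lg (pow_ne_zero l gam_ne_zero))

theorem lam_mul {x y : ZMod 8191} (hx : x ≠ 0) (hy : y ≠ 0) : lam (x * y) = lam x + lam y := by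
  have := lam_pow (lg x + lg y)
  rw [pow_add, gam_lg hx, gam_lg hy] at this
  rw [this]; simp [lam]

theorem lam_inj {x y : ZMod 8191} (hx : x ≠ 0) (hy : y ≠ 0) (h : lam x = lam y) : x = y := by
  rw [← gam_lg hx, ← gam_lg hy]
  exact (gam_pow_eq_iff _ _).2 h

theorem lam_neg_one : lam (-1) = 4095 := by
  have : gam ^ 4095 = -1 := by
    rw [gam_pow]
    have : 17 ^ 4095 % 8191 = 8190 := by decide +kernel
    rw [this]
    decide +kernel
  rw [← this, lam_pow]
  simp

/-! ### The ring with `2 ^ 13` elements -/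

/-- The defining polynomial. -/
noncomputable def fpoly : (ZMod 2)[X] := X ^ 13 + X ^ 4 + X ^ 3 + X + 1

/-- The quotient ring. -/
abbrev RR : Type := AdjoinRoot fpoly

instance : Nontrivial RR := by
  apply AdjoinRoot.nontrivial
  have : fpoly.degree = 13 := by
    unfold fpoly
    compute_degree!
  rw [this]
  decide

/-- The class of the variable. -/
noncomputable def al : RR := AdjoinRoot.root fpoly

theorem two_eq_zero : (2 : RR) = 0 := by
  have : algebraMap (ZMod 2) RR 2 = 2 := map_ofNat _ 2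
  rw [← this]
  have h : (2 : ZMod 2) = 0 := by decide
  rw [h, map_zero]

theorem al_rel : al ^ 13 + al ^ 4 + al ^ 3 + al + 1 = 0 := by
  have : eval₂ (AdjoinRoot.of fpoly) al (X ^ 13 + X ^ 4 + X ^ 3 + X + 1) = 0 :=
    AdjoinRoot.eval₂_root fpoly
  simpa only [eval₂_add, eval₂_X_pow, eval₂_X, eval₂_one] using this

/-- Value of a bit vector. -/
noncomputable def ev (n : ℕ) : RR := ∑ i ∈ Finset.range 14, if n.testBit i then al ^ i else 0

theorem ev_xor (a b : ℕ) : ev (a ^^^ b) = ev a + ev b := by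
  rw [ev, ev, ev, ← Finset.sum_add_distrib]
  refine Finset.sum_congr rfl fun i _ => ?_
  rw [Nat.testBit_xor]
  cases a.testBit i <;> cases b.testBit i <;> simp
  rw [← two_mul, two_eq_zero, zero_mul]

theorem ev_two_mul {n : ℕ} (h : n < 8192) : ev (2 * n) = al * ev n := by
  have h13 : n.testBit 13 = false := Nat.testBit_lt_two_pow (by omega)
  rw [ev, ev, Finset.sum_range_succ' _ 13, Finset.sum_range_succ _ 13, h13]
  have h0 : (2 * n).testBit 0 = false := by simp
  simp only [h0, Bool.false_eq_true, ↓reduceIte, add_zero, Finset.mul_sum]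
  refine Finset.sum_congr rfl fun i _ => ?_
  have : (2 * n).testBit (i + 1) = n.testBit i := by
    rw [Nat.testBit_succ]; congr 1; omega
  rw [this]
  split_ifs
  · ring
  · simp

theorem ev_one : ev 1 = 1 := by
  simp +decide [ev, Finset.sum_range_succ]

theorem ev_poly : ev 8219 = 0 := by
  rw [← al_rel]
  simp +decide only [ev, Finset.sum_range_succ, Finset.sum_range_zero]
  simp
  ring

theorem E_lt (i : ℕ) : E i < 8192 := by
  have : E i ≤ 8191 := Nat.and_le_right
  omega

theorem ev_E (i : ℕ) (hi : i ≤ 8191) : ev (E i) = al ^ i := by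
  induction i with
  | zero => rw [E_zero, ev_one, pow_zero]
  | succ i ih =>
    have h := allLt_spec E_check i (by omega)
    rw [Bool.or_eq_true] at h
    rcases h with h | h
    · rw [Nat.eq_of_beq_eq_true h, ev_two_mul (E_lt i), ih (by omega), pow_succ']
    · rw [Nat.eq_of_beq_eq_true h]
      change ev (2 * E i ^^^ 8219) = _
      rw [ev_xor, ev_poly, add_zero, ev_two_mul (E_lt i), ih (by omega), pow_succ']

theorem al_pow : al ^ 8191 = 1 := by
  rw [← ev_E 8191 le_rfl, E_last, ev_one]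

/-- Powers with exponent modulo `8191`. -/
noncomputable def pw (z : ZMod 8191) : RR := al ^ z.val

theorem pw_natCast (n : ℕ) : pw (n : ZMod 8191) = al ^ n := by
  rw [pw, ZMod.val_natCast]
  conv_rhs => rw [← Nat.div_add_mod n 8191, pow_add, pow_mul, al_pow, one_pow, one_mul]

theorem pw_add (x y : ZMod 8191) : pw (x + y) = pw x * pw y := by
  rw [← ZMod.natCast_zmod_val x, ← ZMod.natCast_zmod_val y, ← Nat.cast_add, pw_natCast,
    pw_natCast, pw_natCast, pow_add]

theorem pw_zero : pw 0 = 1 := by simp [pw]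

theorem pw_isUnit (x : ZMod 8191) : IsUnit (pw x) :=
  IsUnit.of_mul_eq_one (pw (-x)) (by rw [← pw_add, add_neg_cancel, pw_zero])

theorem W_spec (l : ℕ) (hl : l < 8574) :
    pw (gam ^ l) + pw (W l : ZMod 8191) = 1 ∧ 1 ≤ W l ∧ W l ≤ 8190 := by
  have h := allLt_spec W_check l hl
  rw [Bool.and_eq_true, Bool.and_eq_true] at h
  obtain ⟨h1, h2, h3⟩ := h
  have h2' := Nat.le_of_ble_eq_true h2
  have h3' := Nat.le_of_ble_eq_true h3
  refine ⟨?_, h2', h3'⟩
  have h4 : E (17 ^ l % 8191) ^^^ E (W l) = 1 := Nat.eq_of_beq_eq_true h1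
  have h5 : 17 ^ l % 8191 < 8191 := Nat.mod_lt _ (by norm_num)
  rw [gam_pow, pw_natCast, pw_natCast, ← ev_E _ h5.le, ← ev_E _ (by omega), ← ev_xor, h4, ev_one]

/-- The Zech logarithm. -/
noncomputable def zech (z : ZMod 8191) : ZMod 8191 := (W (lg z) : ZMod 8191)

theorem natCast_ne_zero {x : ℕ} (h1 : 1 ≤ x) (h2 : x ≤ 8190) : (x : ZMod 8191) ≠ 0 := by
  intro h
  have := Nat.le_of_dvd (by omega) ((ZMod.natCast_eq_zero_iff x 8191).1 h)
  omega

theorem zech_spec {z : ZMod 8191} (hz : z ≠ 0) : pw z + pw (zech z) = 1 := by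
  have := (W_spec (lg z) (by have := lg_lt hz; omega)).1
  rwa [gam_lg hz] at this

theorem zech_ne_zero {z : ZMod 8191} (hz : z ≠ 0) : zech z ≠ 0 := by
  have := (W_spec (lg z) (by have := lg_lt hz; omega)).2
  exact natCast_ne_zero this.1 this.2

theorem pw_inj {x y : ZMod 8191} (h : pw x = pw y) : x = y := by
  by_contra hne
  have h1 : x - y ≠ 0 := sub_ne_zero.2 hne
  have h2 : pw (x - y) = 1 := by
    have : pw (x - y) * pw y = 1 * pw y := by rw [← pw_add, sub_add_cancel, one_mul, h]
    exact (pw_isUnit y).mul_right_cancel this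
  have h3 := zech_spec h1
  rw [h2, add_eq_left] at h3
  exact (pw_isUnit _).ne_zero h3

theorem zech_pow (l : ℕ) (hl : l < 8574) : zech (gam ^ l) = (W l : ZMod 8191) := by
  apply pw_inj
  have h1 := zech_spec (pow_ne_zero l gam_ne_zero)
  have h2 := (W_spec l hl).1
  exact add_left_cancel (h1.trans h2.symm)

theorem zech_inj {x y : ZMod 8191} (hx : x ≠ 0) (hy : y ≠ 0) (h : zech x = zech y) : x = y := by
  apply pw_inj
  have h1 := zech_spec hx
  have h2 := zech_spec hy
  rw [h] at h1
  exact add_right_cancel (h1.trans h2.symm)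

theorem zech_neg {z : ZMod 8191} (hz : z ≠ 0) : zech (-z) = zech z - z := by
  apply pw_inj
  have h1 := zech_spec hz
  have h2 := zech_spec (neg_ne_zero.2 hz)
  have h3 : pw (-z) * pw z = 1 := by rw [← pw_add, neg_add_cancel, pw_zero]
  rw [sub_eq_add_neg, pw_add]
  linear_combination h2 - pw (-z) * h1 + h3 - (pw (-z) - 1) * two_eq_zero

theorem zech_costas {x y h : ZMod 8191} (hx : x ≠ 0) (hy : y ≠ 0) (hh : h ≠ 0)
    (hxh : x + h ≠ 0) (hyh : y + h ≠ 0)
    (e : zech (x + h) + zech y = zech (y + h) + zech x) : x = y := by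
  apply pw_inj
  have e' := congrArg pw e
  rw [pw_add, pw_add] at e'
  have h1 := zech_spec hx
  have h2 := zech_spec hy
  have h3 := zech_spec hh
  have h4 := zech_spec hxh
  have h5 := zech_spec hyh
  rw [pw_add] at h4 h5
  have : (pw x - pw y) * pw (zech h) = 0 := by
    have a1 : pw (zech x) = 1 - pw x := by linear_combination h1
    have a2 : pw (zech y) = 1 - pw y := by linear_combination h2
    have a3 : pw (zech h) = 1 - pw h := by linear_combination h3
    have a4 : pw (zech (x + h)) = 1 - pw x * pw h := by linear_combination h4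
    have a5 : pw (zech (y + h)) = 1 - pw y * pw h := by linear_combination h5
    rw [a1, a2, a4, a5] at e'
    rw [a3]
    linear_combination e'
  exact sub_eq_zero.1 ((pw_isUnit _).mul_left_eq_zero.1 this)

end Pool.Agent.Lib.MP_34b234_co
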