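import Pool.Agent.Lib.MP_34b234_co.Defs

set_option autoImplicit false

namespace Pool.Agent.Lib.MP_34b234_co

/-- `f` is the Golomb permutation of two primitive elements of the field `F` with `n + 2`
elements; positions and values `0, …, n - 1` stand for the exponents `1, …, n`. -/
def IsGolomb (F : Type) [Field F] {n : ℕ} (f : Equiv.Perm (Fin n)) : Prop :=
  ∃ α β : F, orderOf α = n + 1 ∧ orderOf β = n + 1 ∧
    ∀ i : Fin n, α ^ ((i : ℕ) + 1) + β ^ ((f i : ℕ) + 1) = 1

end Pool.Agent.Lib.MP_34b234_co
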