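import Pool.Agent.Lib.MP_34b234_co.InSum
import Pool.Agent.Lib.MP_34b234_co.InDefs
import Pool.Agent.Lib.MP_cdccbc_an.Divisor

/-! Two Golomb permutations agree on any small set of early positions. -/

set_option autoImplicit false

namespace Pool.Agent.Lib.MP_34b234_co.Ty

open Finset

variable {F : Type} [Field F] [Fintype F] {n : ℕ}

theorem exists_pair (hn : Fintype.card F = n + 2) (h4 : 4 ∣ n + 1) {α : F}
    (hα : IsPrimitiveRoot α (n + 1)) : ∃ f g : Equiv.Perm (Fin n), f ≠ g ∧ IsGolomb F f ∧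
      IsGolomb F g ∧ IsCostas f ∧ IsCostas g ∧
      ∀ i : Fin n, IsSquare (1 - α ^ ((i : ℕ) + 1)) → f i = g i := by
  obtain ⟨t, ht⟩ := h4
  have hm : α ^ (2 * t) = -1 :=
    (hα.pow (by omega) (show n + 1 = 2 * t * 2 by omega)).eq_neg_one_of_two_right
  have hne : α ^ (2 * t) ≠ 1 := hα.pow_ne_one_of_pos_of_lt (by omega) (by omega)
  have hc : Nat.Coprime (1 + 2 * t) (n + 1) := by
    rw [ht]
    refine Nat.Coprime.mul_right ?_ ?_
    · have ho : Odd (1 + 2 * t) := ⟨t, by omega⟩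
      exact (Nat.coprime_two_right.2 ho).pow_right 2
    · exact (Nat.coprime_add_mul_right_left 1 t 2).2 (Nat.coprime_one_left t)
  have hβ : IsPrimitiveRoot (-α) (n + 1) := by
    have h := hα.pow_of_coprime _ hc
    rwa [pow_add, hm, pow_one, mul_neg, mul_one] at h
  obtain ⟨f, hf, ef⟩ := exists_golomb hn hα hα
  obtain ⟨g, hg, eg⟩ := exists_golomb hn hα hβ
  refine ⟨f, g, fun hfg => ?_, ⟨α, α, hα.eq_orderOf.symm, hα.eq_orderOf.symm, fun i => ?_⟩,
    ⟨α, -α, hα.eq_orderOf.symm, hβ.eq_orderOf.symm, fun i => ?_⟩, hf, hg,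
    fun i ⟨s, hs⟩ => pw_inj hβ ?_⟩
  · have h1 := ef (f.symm ⟨0, by omega⟩)
    have h2 := eg (f.symm ⟨0, by omega⟩)
    rw [← hfg, ← h1, Equiv.apply_symm_apply] at h2
    simp only [zero_add, pow_one] at h2
    refine hne (mul_left_cancel₀ (hα.ne_zero (by omega)) ?_)
    rw [hm, mul_neg, mul_one, h2]
  · rw [ef, add_sub_cancel]
  · rw [eg, add_sub_cancel]
  · rw [← ef] at hs
    have hs0 : s ≠ 0 := by
      rintro rfl
      exact pw_ne_zero hα _ (hs.trans (mul_zero _))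
    have h1 : (-1 : F) ^ ((f i : ℕ) + 1) = 1 := by
      rw [← hm, ← pow_mul, mul_comm, pow_mul, hs, ← pow_card hn hs0, mul_pow, ← pow_add]
      congr 1
      omega
    rw [eg, ← ef, neg_pow, h1, one_mul]

lemma le_totient_mul {N : ℕ} (hN : N ≠ 0) : N ≤ N.divisors.card * N.totient := by
  conv_lhs => rw [← Nat.sum_totient N]
  exact sum_le_card_nsmul _ _ _ fun d hd => Nat.le_of_dvd
    (Nat.totient_pos.2 (Nat.pos_of_ne_zero hN)) (Nat.totient_dvd_of_dvd (Nat.dvd_of_mem_divisors hd))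

theorem exists_prim (hn : Fintype.card F = n + 2) (h4 : 4 ∣ n + 1) (J : Finset ℕ) {k D : ℕ}
    (hk : J.card ≤ k) (hJ : ∀ j ∈ J, (j : F) ≠ 0 ∧ j ≤ D)
    (h : 114 * ((n + 1).divisors.card : ℝ) ^ 2 * (2 ^ k * k * D) * Real.sqrt (n + 2 : ℕ) <
      (n + 1 : ℕ)) :
    ∃ α : F, IsPrimitiveRoot α (n + 1) ∧ ∀ j ∈ J, IsSquare (1 - α ^ j) := by
  classical
  have hF : ringChar F ≠ 2 := fun h => by
    have := FiniteField.even_card_of_char_two h
    omega
  obtain ⟨g0, hg0⟩ := IsCyclic.exists_ofOrder_eq_natCard (α := Fˣ)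
  have hg : IsPrimitiveRoot (g0 : F) (n + 1) := by
    have h := IsPrimitiveRoot.orderOf g0
    rw [hg0, Nat.card_units, Nat.card_eq_fintype_card, hn] at h
    exact IsPrimitiveRoot.coe_units_iff.2 h
  have hm1 : IsSquare (-1 : F) := FiniteField.isSquare_neg_one_iff.2 (by omega)
  by_contra hc
  push Not at hc
  set A := (range (n + 1)).filter ((n + 1).Coprime ·) with hA
  have h1 : ∑ a ∈ A, ∏ j ∈ J, (1 + ch (((g0 : F) ^ a) ^ j - 1)) = 0 := by
    refine sum_eq_zero fun a ha => ?_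
    obtain ⟨j, hj, hs⟩ := hc _ (hg.pow_of_coprime a (mem_filter.1 ha).2.symm)
    refine prod_eq_zero hj ?_
    have h2 : ¬ IsSquare (((g0 : F) ^ a) ^ j - 1) := fun h3 =>
      hs (by simpa using hm1.mul h3)
    rw [ch, quadraticChar_neg_one_iff_not_isSquare.2 h2]
    norm_num
  rw [sum_congr rfl fun a _ => prod_one_add J, sum_comm,
    ← add_sum_erase _ _ (empty_mem_powerset J)] at h1
  simp only [prod_empty, sum_const, nsmul_eq_mul, mul_one] at h1
  rw [hA, ← Nat.totient_eq_card_coprime, ← hA] at h1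
  set E : ℝ := (n + 1).divisors.card * (114 * (k * D) * Real.sqrt (n + 2 : ℕ)) with hE
  have hE0 : 0 ≤ E := by positivity
  have h2 : |∑ T ∈ J.powerset.erase ∅, ∑ a ∈ A, ∏ j ∈ T, ch (((g0 : F) ^ a) ^ j - 1)| ≤
      2 ^ k * E := by
    refine (abs_sum_le_sum_abs _ _).trans ((sum_le_card_nsmul _ _ E fun T hT => ?_).trans ?_)
    · have h3 := mem_powerset.1 (mem_of_mem_erase hT)
      exact prim_sum hF hn hg (nonempty_iff_ne_empty.2 (ne_of_mem_erase hT))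
        ((card_le_card h3).trans hk) fun j hj => hJ j (h3 hj)
    · rw [nsmul_eq_mul]
      refine mul_le_mul_of_nonneg_right ?_ hE0
      have h3 : (J.powerset.erase ∅).card ≤ 2 ^ k := card_erase_le.trans
        (by rw [card_powerset]; exact Nat.pow_le_pow_right two_pos hk)
      exact_mod_cast h3
  have h3 : ((n + 1).totient : ℝ) ≤ 2 ^ k * E := by linarith [neg_abs_le (∑ T ∈
    J.powerset.erase ∅, ∑ a ∈ A, ∏ j ∈ T, ch (((g0 : F) ^ a) ^ j - 1))]
  have h5 : ((n + 1 : ℕ) : ℝ) ≤ (n + 1).divisors.card * (n + 1).totient := by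
    exact_mod_cast le_totient_mul (Nat.succ_ne_zero n)
  have h6 : ((n + 1).divisors.card : ℝ) * (n + 1).totient ≤ (n + 1).divisors.card * (2 ^ k * E) := by
    gcongr
  have h7 : ((n + 1).divisors.card : ℝ) * (2 ^ k * E) =
      114 * ((n + 1).divisors.card : ℝ) ^ 2 * (2 ^ k * k * D) * Real.sqrt (n + 2 : ℕ) := by
    rw [hE]
    ring
  linarith

/-- Exponents divisible by the characteristic are reduced to their prime-to-`p` parts. -/
theorem exists_prim' (hn : Fintype.card F = n + 2) (h4 : 4 ∣ n + 1) (S : Finset (Fin n)) {D : ℕ}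
    (hS : ∀ i ∈ S, (i : ℕ) < D)
    (h : 114 * ((n + 1).divisors.card : ℝ) ^ 2 * (2 ^ S.card * S.card * D) *
      Real.sqrt (n + 2 : ℕ) < (n + 1 : ℕ)) :
    ∃ α : F, IsPrimitiveRoot α (n + 1) ∧ ∀ i ∈ S, IsSquare (1 - α ^ ((i : ℕ) + 1)) := by
  have hp : (ringChar F).Prime := CharP.char_is_prime F _
  have : Fact (ringChar F).Prime := ⟨hp⟩
  obtain ⟨α, hα, hs⟩ := exists_prim hn h4
    (S.image fun i : Fin n => ordCompl[ringChar F] ((i : ℕ) + 1)) card_image_le (fun j hj => by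
      obtain ⟨i, hi, rfl⟩ := mem_image.1 hj
      exact ⟨fun h0 => Nat.not_dvd_ordCompl hp (Nat.succ_ne_zero _) ((ringChar.spec F _).1 h0),
        (Nat.ordCompl_le _ _).trans (hS i hi)⟩) h
  refine ⟨α, hα, fun i hi => ?_⟩
  have h1 := (hs _ (mem_image_of_mem _ hi)).pow
    (ringChar F ^ ((i : ℕ) + 1).factorization (ringChar F))
  rwa [sub_pow_char_pow, one_pow, ← pow_mul, mul_comm, Nat.ordProj_mul_ordCompl_eq_self] at h1

lemma large {ε : ℝ} (hε : 0 < ε) : ∃ N : ℕ, ∀ n : ℕ, N ≤ n →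
    114 * ((n + 1).divisors.card : ℝ) ^ 2 * ((n + 2 : ℕ) : ℝ) ^ (1 / 2 - ε) *
      Real.sqrt (n + 2 : ℕ) < (n + 1 : ℕ) := by
  obtain ⟨m, hm⟩ := exists_nat_gt (4 / ε)
  have hm0 : (0 : ℝ) < m := lt_trans (by positivity) hm
  set c : ℝ := Real.exp (2 ^ m * m) with hc
  have h1 := ((tendsto_rpow_atTop (half_pos hε)).comp tendsto_natCast_atTop_atTop).eventually_gt_atTop
    (228 * c ^ 2)
  obtain ⟨N, hN⟩ := Filter.eventually_atTop.1 h1
  refine ⟨N, fun n hn => ?_⟩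
  have h2 := hN (n + 2) (by omega)
  simp only [Function.comp] at h2
  set Q : ℝ := ((n + 2 : ℕ) : ℝ) with hQ
  have hQ1 : ((n + 1 : ℕ) : ℝ) = Q - 1 := by
    rw [hQ]
    push_cast
    ring
  have hQ2 : 2 ≤ Q := by
    rw [hQ]
    exact_mod_cast (by omega : 2 ≤ n + 2)
  have hQ0 : 0 < Q := by linarith
  have h3 := MP_cdccbc_an.card_divisors_le_exp (k := m) (by exact_mod_cast hm0)
    (Nat.succ_ne_zero n) (X := Q) (by rw [Nat.succ_eq_add_one, hQ1]; linarith)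
  have h5 : ((n + 1).divisors.card : ℝ) ≤ Q ^ (ε / 4) * c := by
    refine h3.trans ?_
    rw [Real.exp_add, Real.rpow_def_of_pos hQ0, div_eq_mul_inv]
    refine mul_le_mul_of_nonneg_right (Real.exp_le_exp.2 (mul_le_mul_of_nonneg_left ?_
      (Real.log_nonneg (by linarith)))) (by positivity)
    rw [inv_le_comm₀ hm0 (by positivity), inv_div]
    exact hm.le
  have h6 : ((n + 1).divisors.card : ℝ) ^ 2 ≤ Q ^ (ε / 2) * c ^ 2 := by
    refine (pow_le_pow_left₀ (by positivity) h5 2).trans (le_of_eq ?_)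
    rw [mul_pow, sq (Q ^ (ε / 4)), ← Real.rpow_add hQ0]
    congr 2
    ring
  have h7 : Q ^ (ε / 2) * Q ^ (1 / 2 - ε) * Real.sqrt Q * Q ^ (ε / 2) = Q := by
    rw [Real.sqrt_eq_rpow, ← Real.rpow_add hQ0, ← Real.rpow_add hQ0, ← Real.rpow_add hQ0]
    conv_rhs => rw [← Real.rpow_one Q]
    congr 1
    ring
  have h8 : 0 < Q ^ (ε / 2) * Q ^ (1 / 2 - ε) * Real.sqrt Q := by positivity
  have h9 : 114 * ((n + 1).divisors.card : ℝ) ^ 2 * Q ^ (1 / 2 - ε) * Real.sqrt Q ≤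
      114 * (Q ^ (ε / 2) * c ^ 2) * Q ^ (1 / 2 - ε) * Real.sqrt Q := by gcongr
  rw [hQ1]
  nlinarith [mul_lt_mul_of_pos_left h2 h8]

theorem initial {ε : ℝ} (hε : 0 < ε) : ∃ N : ℕ, ∀ (F : Type) [Field F] [Fintype F] (n : ℕ),
    Fintype.card F = n + 2 → (n + 2) % 4 = 1 → N ≤ n → ∀ (D : ℕ) (S : Finset (Fin n)),
    (∀ i ∈ S, (i : ℕ) < D) → (2 : ℝ) ^ S.card * S.card * D ≤ ((n + 2 : ℕ) : ℝ) ^ (1 / 2 - ε) →
    ∃ f g : Equiv.Perm (Fin n), f ≠ g ∧ IsGolomb F f ∧ IsGolomb F g ∧ IsCostas f ∧ IsCostas g ∧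
      ∀ i ∈ S, f i = g i := by
  obtain ⟨N, hN⟩ := large hε
  refine ⟨N, fun F _ _ n hn h4 hNn D S hS h => ?_⟩
  obtain ⟨α, hα, hs⟩ := exists_prim' hn (by omega) S hS (lt_of_le_of_lt (by gcongr) (hN n hNn))
  obtain ⟨f, g, h1, h2, h3, h5, h6, h7⟩ := exists_pair hn (by omega) hα
  exact ⟨f, g, h1, h2, h3, h5, h6, fun i hi => h7 i (hs i hi)⟩

end Pool.Agent.Lib.MP_34b234_co.Ty
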