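import Pool.Agent.Lib.MP_34b234_co.TyPair

/-! Quadratic character sums over primitive elements. -/

set_option autoImplicit false

namespace Pool.Agent.Lib.MP_34b234_co.Ty

open Polynomial Finset ArithmeticFunction

lemma sum_period (f : ℕ → ℝ) (m : ℕ) (hf : ∀ x, f (m + x) = f x) (d : ℕ) :
    ∑ x ∈ range (m * d), f x = d * ∑ x ∈ range m, f x := by
  induction d with
  | zero => simp
  | succ d ih =>
    rw [show m * (d + 1) = m + m * d by ring, sum_range_add, sum_congr rfl fun x _ => hf x, ih]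
    push_cast
    ring

lemma sum_coprime (H : ℕ → ℝ) {N : ℕ} (hN : N ≠ 0) :
    ∑ a ∈ (range N).filter (N.Coprime ·), H a =
      ∑ d ∈ N.divisors, (moebius d : ℝ) * ∑ b ∈ range (N / d), H (d * b) := by
  have h1 : ∀ a, (if N.Coprime a then H a else 0) =
      ∑ d ∈ N.divisors, (moebius d : ℝ) * if d ∣ a then H a else 0 := by
    intro a
    have h2 := coe_mul_zeta_apply (f := (moebius : ArithmeticFunction ℤ)) (x := N.gcd a)
    rw [moebius_mul_coe_zeta, one_apply] at h2
    have h3 : (N.gcd a).divisors = N.divisors.filter (· ∣ a) := by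
      ext d
      simp [Nat.dvd_gcd_iff, hN]
    have h4 := congrArg (fun z : ℤ => (z : ℝ) * H a) h2
    simp only [h3, sum_filter, Int.cast_sum, Int.cast_ite, Int.cast_one, Int.cast_zero, ite_mul,
      one_mul, zero_mul, sum_mul] at h4
    simpa only [mul_ite, mul_zero] using h4
  rw [sum_filter, sum_congr rfl fun a _ => h1 a, sum_comm]
  refine sum_congr rfl fun d hd => ?_
  obtain ⟨m, rfl⟩ := Nat.dvd_of_mem_divisors hd
  have hd0 : 0 < d := Nat.pos_of_mem_divisors hd
  rw [← mul_sum, ← sum_filter, Nat.mul_div_cancel_left _ hd0]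
  congr 1
  symm
  refine sum_bij (fun b _ => d * b) (fun b hb => ?_) (fun _ _ _ _ h => ?_) (fun a ha => ?_)
    fun _ _ => rfl
  · exact mem_filter.2 ⟨mem_range.2 (Nat.mul_lt_mul_of_pos_left (mem_range.1 hb) hd0),
      dvd_mul_right _ _⟩
  · exact Nat.eq_of_mul_eq_mul_left hd0 h
  · obtain ⟨h1, b, rfl⟩ := mem_filter.1 ha
    exact ⟨b, mem_range.2 (Nat.lt_of_mul_lt_mul_left (mem_range.1 h1)), rfl⟩

variable {F : Type} [Field F]

lemma notSq_of_root {g : F[X]} (hg : g ≠ 0) {z : AlgebraicClosure F}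
    (hz : rootMultiplicity z (g.map (algebraMap F _)) = 1) : NotSq g := by
  intro r s h
  by_contra hr
  have h1 := congrArg (Polynomial.map (algebraMap F (AlgebraicClosure F))) h
  simp only [Polynomial.map_mul, map_C] at h1
  have hr' : r.map (algebraMap F (AlgebraicClosure F)) ≠ 0 := Polynomial.map_ne_zero hr
  have h4 := mul_ne_zero (mul_ne_zero hr' hr')
    (Polynomial.map_ne_zero (f := algebraMap F (AlgebraicClosure F)) hg)
  have h6 := congrArg (rootMultiplicity z) h1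
  have h7 := h1 ▸ h4
  rw [rootMultiplicity_mul h4, rootMultiplicity_mul (left_ne_zero_of_mul h4),
    rootMultiplicity_mul h7, rootMultiplicity_mul (right_ne_zero_of_mul h7), rootMultiplicity_C,
    hz] at h6
  omega

lemma monic_pr {T : Finset ℕ} {d : ℕ} (hd : 0 < d) (hT : ∀ j ∈ T, 0 < j) :
    ∀ j ∈ T, (X ^ (d * j) - 1 : F[X]).Monic := fun j hj =>
  monic_X_pow_sub_C 1 (Nat.mul_pos hd (hT j hj)).ne'

lemma notSq_pr {T : Finset ℕ} (hne : T.Nonempty) {d : ℕ} (hd : (d : F) ≠ 0)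
    (hT : ∀ j ∈ T, (j : F) ≠ 0) : NotSq (∏ j ∈ T, (X ^ (d * j) - 1) : F[X]) := by
  have hd0 : 0 < d := Nat.pos_of_ne_zero fun h => hd (by rw [h, Nat.cast_zero])
  have hT0 : ∀ j ∈ T, 0 < j := fun j hj =>
    Nat.pos_of_ne_zero fun h => hT j hj (by rw [h, Nat.cast_zero])
  let K := AlgebraicClosure F
  have hm := T.max'_mem hne
  set m := T.max' hne
  have hmK : ((d * m : ℕ) : K) ≠ 0 := by
    rw [← map_natCast (algebraMap F K), Nat.cast_mul]
    exact (_root_.map_ne_zero _).2 (mul_ne_zero hd (hT m hm))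
  have : NeZero ((d * m : ℕ) : K) := ⟨hmK⟩
  have : NeZero (d * m) := ⟨(Nat.mul_pos hd0 (hT0 m hm)).ne'⟩
  obtain ⟨z, hz⟩ := HasEnoughRootsOfUnity.exists_primitiveRoot K (d * m)
  refine notSq_of_root (monic_prod_of_monic _ _ (monic_pr hd0 hT0)).ne_zero (z := z) ?_
  simp only [Polynomial.map_prod, Polynomial.map_sub, Polynomial.map_pow, map_X,
    Polynomial.map_one]
  have h0 : (∏ j ∈ T, (X ^ (d * j) - 1) : K[X]) ≠ 0 :=
    (monic_prod_of_monic _ _ (monic_pr hd0 hT0)).ne_zero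
  rw [← mul_prod_erase T _ hm] at h0 ⊢
  have e1 : rootMultiplicity z (X ^ (d * m) - 1 : K[X]) = 1 := by
    refine le_antisymm (rootMultiplicity_le_one_of_separable
      (X_pow_sub_one_separable_iff.2 hmK) z)
      ((rootMultiplicity_pos (left_ne_zero_of_mul h0)).2 ?_)
    simp [hz.pow_eq_one]
  have e2 : rootMultiplicity z (∏ j ∈ T.erase m, (X ^ (d * j) - 1) : K[X]) = 0 := by
    refine rootMultiplicity_eq_zero ?_
    rw [IsRoot.def, eval_prod]
    refine prod_ne_zero_iff.2 fun j hj => ?_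
    have h1 := mem_of_mem_erase hj
    have h2 : j < m := lt_of_le_of_ne (T.le_max' j h1) (ne_of_mem_erase hj)
    simpa [sub_eq_zero] using hz.pow_ne_one_of_pos_of_lt (Nat.mul_pos hd0 (hT0 j h1)).ne'
      (Nat.mul_lt_mul_of_pos_left h2 hd0)
  rw [rootMultiplicity_mul h0, e1, e2]

variable [Fintype F] [DecidableEq F] {n : ℕ}

lemma abs_ch (y : F) : |ch y| ≤ 1 := by
  rcases eq_or_ne y 0 with rfl | h
  · simp [ch]
  · rcases quadraticChar_dichotomy h with h | h <;> rw [ch, h] <;> norm_num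

lemma st_all (hF : ringChar F ≠ 2) {g : F[X]} (hg : g.Monic) (hg0 : g.eval 0 ≠ 0) (hz : NotSq g) :
    |∑ x : F, ch (g.eval x)| ≤ (41 * g.natDegree + 72) * Real.sqrt (Fintype.card F) := by
  have h1 : (1 : ℝ) ≤ Real.sqrt (Fintype.card F) :=
    Real.one_le_sqrt.2 (by exact_mod_cast Fintype.card_pos)
  have h0 : (0 : ℝ) ≤ g.natDegree := by positivity
  by_cases hq : 64 + 4 * (g.natDegree + 2) ≤ Fintype.card F
  · exact (st_sum hF hg hg0 hz hq).trans (by nlinarith)
  · have h2 : (Fintype.card F : ℝ) ≤ 72 + 4 * g.natDegree := by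
      exact_mod_cast (by omega : Fintype.card F ≤ 72 + 4 * g.natDegree)
    refine (abs_sum_le_sum_abs _ _).trans ((sum_le_card_nsmul _ _ 1 fun x _ => abs_ch _).trans ?_)
    rw [card_univ, nsmul_eq_mul]
    nlinarith

lemma sum_units (hn : Fintype.card F = n + 2) {α : F} (hα : IsPrimitiveRoot α (n + 1))
    (h : F → ℝ) : ∑ b ∈ range (n + 1), h (α ^ b) = ∑ y, h y - h 0 := by
  rw [sum_range_succ', ← Fin.sum_univ_eq_sum_range (fun i => h (α ^ (i + 1))),
    sum_pos_eq hn hα h, pow_zero]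
  ring

/-- The sum over primitive elements of the character of a product of binomials. -/
theorem prim_sum (hF : ringChar F ≠ 2) (hn : Fintype.card F = n + 2) {g : F}
    (hg : IsPrimitiveRoot g (n + 1)) {T : Finset ℕ} (hne : T.Nonempty) {k D : ℕ}
    (hk : T.card ≤ k) (hT : ∀ j ∈ T, (j : F) ≠ 0 ∧ j ≤ D) :
    |∑ a ∈ (range (n + 1)).filter ((n + 1).Coprime ·), ∏ j ∈ T, ch ((g ^ a) ^ j - 1)| ≤
      (n + 1).divisors.card * (114 * (k * D) * Real.sqrt (n + 2 : ℕ)) := by
  have hT0 : ∀ j ∈ T, 0 < j := fun j hj =>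
    Nat.pos_of_ne_zero fun h => (hT j hj).1 (by rw [h, Nat.cast_zero])
  have hkD : (1 : ℝ) ≤ k * D := by
    obtain ⟨j, hj⟩ := id hne
    have h1 := hne.card_pos
    have h2 := (hT j hj).2
    have h3 := hT0 j hj
    exact_mod_cast Nat.mul_pos (by omega : 0 < k) (by omega : 0 < D)
  have hs : (1 : ℝ) ≤ Real.sqrt (n + 2 : ℕ) :=
    Real.one_le_sqrt.2 (by exact_mod_cast (by omega : 1 ≤ n + 2))
  rw [sum_coprime _ (Nat.succ_ne_zero n), ← nsmul_eq_mul]
  refine (abs_sum_le_sum_abs _ _).trans (sum_le_card_nsmul _ _ _ fun d hd => ?_)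
  have hd0 : 0 < d := Nat.pos_of_mem_divisors hd
  obtain ⟨m, hm⟩ := Nat.dvd_of_mem_divisors hd
  have hdF : (d : F) ≠ 0 := fun h => by
    have h1 : ((n + 1 : ℕ) : F) = 0 := by
      rw [show n + 1 = d * m from hm, Nat.cast_mul, h, zero_mul]
    have h2 := FiniteField.cast_card_eq_zero F
    rw [hn, show n + 2 = n + 1 + 1 from rfl, Nat.cast_succ, h1] at h2
    simp at h2
  let P : F[X] := ∏ j ∈ T, (X ^ (d * j) - 1)
  have hP : ∀ b, ∏ j ∈ T, ch ((g ^ (d * b)) ^ j - 1) = ch (P.eval (g ^ b)) := by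
    intro b
    simp only [P, eval_prod, ch, map_prod, Int.cast_prod, eval_sub, eval_pow, eval_X, eval_one]
    refine prod_congr rfl fun j _ => ?_
    rw [← pow_mul, ← pow_mul, show d * b * j = b * (d * j) by ring]
  have hdeg : (P.natDegree : ℝ) ≤ d * (k * D) := by
    have h1 : P.natDegree ≤ d * (k * D) := by
      rw [natDegree_prod_of_monic _ _ (monic_pr hd0 hT0)]
      refine (sum_le_card_nsmul _ _ (d * D) fun j hj => ?_).trans ?_
      · rw [← C_1, natDegree_X_pow_sub_C]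
        exact Nat.mul_le_mul_left _ (hT j hj).2
      · rw [smul_eq_mul, mul_left_comm]
        gcongr
    exact_mod_cast h1
  have hP0 : P.eval 0 ≠ 0 := by
    rw [eval_prod]
    refine prod_ne_zero_iff.2 fun j hj => ?_
    simp [hd0.ne', (hT0 j hj).ne']
  have h1 := st_all hF (monic_prod_of_monic _ _ (monic_pr hd0 hT0)) hP0
    (notSq_pr hne hdF fun j hj => (hT j hj).1)
  rw [hn] at h1
  have h2 := sum_period (fun b => ∏ j ∈ T, ch ((g ^ (d * b)) ^ j - 1)) m (fun x => by
    rw [mul_add, pow_add, ← show n + 1 = d * m from hm, hg.pow_eq_one, one_mul]) d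
  rw [mul_comm m d, ← show n + 1 = d * m from hm, sum_congr rfl fun b _ => hP b,
    sum_units hn hg fun y => ch (P.eval y)] at h2
  have e : (n + 1) / d = m := by rw [show n + 1 = d * m from hm, Nat.mul_div_cancel_left _ hd0]
  have hd1 : (1 : ℝ) ≤ d := by exact_mod_cast hd0
  have h3 : |∑ b ∈ range m, ∏ j ∈ T, ch ((g ^ (d * b)) ^ j - 1)| ≤
      114 * (k * D) * Real.sqrt (n + 2 : ℕ) := by
    refine le_of_mul_le_mul_left ?_ (show (0 : ℝ) < d by linarith)
    have h4 := abs_sub (∑ y, ch (P.eval y)) (ch (P.eval 0))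
    rw [h2, abs_mul, abs_of_nonneg (show (0 : ℝ) ≤ d by linarith)] at h4
    have h5 := abs_ch (P.eval 0)
    have h6 : (1 : ℝ) ≤ d * (k * D) := by nlinarith
    have h7 : (41 * (P.natDegree : ℝ) + 72) * Real.sqrt (n + 2 : ℕ) ≤
        113 * (d * (k * D)) * Real.sqrt (n + 2 : ℕ) := by
      gcongr
      linarith
    nlinarith
  have h8 : |(moebius d : ℝ)| ≤ 1 := by exact_mod_cast abs_moebius_le_one
  rw [abs_mul, Nat.succ_eq_add_one, e]
  exact (mul_le_of_le_one_left (abs_nonneg _) h8).trans h3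

end Pool.Agent.Lib.MP_34b234_co.Ty
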