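import Pool.Agent.Lib.MP_34b234_co.Fields

/-!
Logarithmic Welch permutations and Golomb permutations of order `8190`, and the reduction of
the lower bound on the degrees of freedom to the certificate.
-/

set_option autoImplicit false

namespace Pool.Agent.Lib.MP_34b234_co

/-- A function on `1, …, 8190` that is a Costas permutation. -/
structure CosFun (F : ℕ → ℕ) : Prop where
  range : ∀ x, 1 ≤ x → x ≤ 8190 → 1 ≤ F x ∧ F x ≤ 8190
  inj : ∀ x y, 1 ≤ x → x ≤ 8190 → 1 ≤ y → y ≤ 8190 → F x = F y → x = y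
  costas : ∀ x y h, 1 ≤ x → 1 ≤ y → 1 ≤ h → x + h ≤ 8190 → y + h ≤ 8190 →
    F (x + h) + F y = F (y + h) + F x → x = y

theorem CosFun.exists_perm {F : ℕ → ℕ} (h : CosFun F) :
    ∃ f : Equiv.Perm (Fin 8190), IsCostas f ∧ ∀ i : Fin 8190, (f i : ℕ) + 1 = F (i + 1) := by
  let g : Fin 8190 → Fin 8190 := fun i =>
    ⟨F (i + 1) - 1, by have := h.range (i + 1) (by omega) (by omega); omega⟩
  have hg : ∀ i : Fin 8190, (g i : ℕ) + 1 = F (i + 1) := by
    intro i
    have := h.range (i + 1) (by omega) (by omega)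
    change F (i + 1) - 1 + 1 = F (i + 1)
    omega
  have hinj : Function.Injective g := by
    intro i j e
    have e1 := hg i
    have e2 := hg j
    rw [e] at e1
    have := h.inj (i + 1) (j + 1) (by omega) (by omega) (by omega) (by omega) (e1.symm.trans e2)
    exact Fin.ext (by omega)
  refine ⟨Equiv.ofBijective g (Finite.injective_iff_bijective.1 hinj), ?_, hg⟩
  intro i j k l hij hkl e
  simp only [Equiv.ofBijective_apply, Prod.mk.injEq] at e
  obtain ⟨e1, e2⟩ := e
  have hi := hg i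
  have hj := hg j
  have hk := hg k
  have hl := hg l
  have hij' : (i : ℕ) < j := hij
  have hkl' : (k : ℕ) < l := hkl
  have a1 : (i : ℕ) + 1 + (j - i) = j + 1 := by omega
  have a2 : (k : ℕ) + 1 + (j - i) = l + 1 := by omega
  have := h.costas (i + 1) (k + 1) (j - i) (by omega) (by omega) (by omega) (by omega) (by omega)
    (by rw [a1, a2]; omega)
  exact ⟨Fin.ext (by omega), Fin.ext (by omega)⟩

theorem natCast_inj {x y : ℕ} (hx : x ≤ 8190) (hy : y ≤ 8190)
    (h : (x : ZMod 8191) = (y : ZMod 8191)) : x = y := by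
  have := (ZMod.natCast_eq_natCast_iff' x y 8191).1 h
  omega

theorem natCast_inj' {x y : ℕ} (hx1 : 1 ≤ x) (hx : x ≤ 8190) (hy1 : 1 ≤ y) (hy : y ≤ 8190)
    (h : (x : ZMod 8190) = (y : ZMod 8190)) : x = y := by
  have := (ZMod.natCast_eq_natCast_iff' x y 8190).1 h
  omega

/-- Logarithmic Welch permutation. -/
noncomputable def welch (A D : ZMod 8190) (x : ℕ) : ℕ := (A * lam (x : ZMod 8191) + D).val + 1

theorem welch_cast (A D : ZMod 8190) (x : ℕ) :
    (welch A D x : ZMod 8190) = A * lam (x : ZMod 8191) + D + 1 := by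
  simp [welch]

theorem welch_range (A D : ZMod 8190) (x : ℕ) : 1 ≤ welch A D x ∧ welch A D x ≤ 8190 := by
  have := ZMod.val_lt (A * lam (x : ZMod 8191) + D)
  unfold welch
  omega

theorem cosFun_welch {A : ZMod 8190} (hA : IsUnit A) (D : ZMod 8190) : CosFun (welch A D) := by
  refine ⟨fun x _ _ => welch_range A D x, ?_, ?_⟩
  · intro x y x1 x2 y1 y2 e
    have e' := congrArg (Nat.cast : ℕ → ZMod 8190) e
    rw [welch_cast, welch_cast] at e'
    have : A * lam (x : ZMod 8191) = A * lam (y : ZMod 8191) := by linear_combination e'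
    exact natCast_inj x2 y2
      (lam_inj (natCast_ne_zero x1 x2) (natCast_ne_zero y1 y2) (hA.mul_left_cancel this))
  · intro x y h x1 y1 h1 x2 y2 e
    have e' := congrArg (Nat.cast : ℕ → ZMod 8190) e
    rw [Nat.cast_add, Nat.cast_add, welch_cast, welch_cast, welch_cast, welch_cast] at e'
    have hx := natCast_ne_zero x1 (by omega)
    have hy := natCast_ne_zero y1 (by omega)
    have hh := natCast_ne_zero h1 (by omega)
    have hxh := natCast_ne_zero (x := x + h) (by omega) x2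
    have hyh := natCast_ne_zero (x := y + h) (by omega) y2
    have e2 : A * lam (((x + h : ℕ) : ZMod 8191) * y) = A * lam (((y + h : ℕ) : ZMod 8191) * x) := by
      rw [lam_mul hxh hy, lam_mul hyh hx]
      linear_combination e'
    have e3 := lam_inj (mul_ne_zero hxh hy) (mul_ne_zero hyh hx) (hA.mul_left_cancel e2)
    push_cast at e3
    have e4 : (h : ZMod 8191) * x = h * y := by linear_combination -e3
    exact natCast_inj (by omega) (by omega) (mul_left_cancel₀ hh e4)

/-- Golomb permutation. -/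
noncomputable def golomb (s b : ZMod 8191) (x : ℕ) : ℕ := (b * zech (s * (x : ZMod 8191))).val

theorem golomb_cast (s b : ZMod 8191) (x : ℕ) :
    (golomb s b x : ZMod 8191) = b * zech (s * (x : ZMod 8191)) := by
  simp [golomb]

theorem cosFun_golomb {s b : ZMod 8191} (hs : s ≠ 0) (hb : b ≠ 0) : CosFun (golomb s b) := by
  refine ⟨?_, ?_, ?_⟩
  · intro x x1 x2
    have h1 := ZMod.val_lt (b * zech (s * (x : ZMod 8191)))
    have h2 : (b * zech (s * (x : ZMod 8191))).val ≠ 0 := by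
      rw [Ne, ZMod.val_eq_zero]
      exact mul_ne_zero hb (zech_ne_zero (mul_ne_zero hs (natCast_ne_zero x1 x2)))
    unfold golomb
    omega
  · intro x y x1 x2 y1 y2 e
    have e' := congrArg (Nat.cast : ℕ → ZMod 8191) e
    rw [golomb_cast, golomb_cast] at e'
    have := zech_inj (mul_ne_zero hs (natCast_ne_zero x1 x2))
      (mul_ne_zero hs (natCast_ne_zero y1 y2)) (mul_left_cancel₀ hb e')
    exact natCast_inj x2 y2 (mul_left_cancel₀ hs this)
  · intro x y h x1 y1 h1 x2 y2 e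
    have e' := congrArg (Nat.cast : ℕ → ZMod 8191) e
    rw [Nat.cast_add, Nat.cast_add, golomb_cast, golomb_cast, golomb_cast, golomb_cast] at e'
    have hx := mul_ne_zero hs (natCast_ne_zero x1 (by omega))
    have hy := mul_ne_zero hs (natCast_ne_zero y1 (by omega))
    have hh := mul_ne_zero hs (natCast_ne_zero h1 (by omega))
    have hxh := mul_ne_zero hs (natCast_ne_zero (x := x + h) (by omega) x2)
    have hyh := mul_ne_zero hs (natCast_ne_zero (x := y + h) (by omega) y2)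
    rw [Nat.cast_add, mul_add] at hxh hyh
    rw [Nat.cast_add, Nat.cast_add, mul_add s, mul_add s, ← mul_add b, ← mul_add b] at e'
    have := zech_costas hx hy hh hxh hyh (mul_left_cancel₀ hb e')
    exact natCast_inj (by omega) (by omega) (mul_left_cancel₀ hs this)

theorem odd_of_isUnit {A : ZMod 8190} (hA : IsUnit A) : A * 4095 = 4095 := by
  have h1 : IsUnit (ZMod.castHom (show 2 ∣ 8190 by norm_num) (ZMod 2) A) := hA.map _
  rw [← ZMod.natCast_zmod_val A, map_natCast] at h1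
  have h2 : A.val % 2 = 1 := by
    by_contra h
    have h3 : (A.val : ZMod 2) = 0 := (ZMod.natCast_eq_zero_iff _ 2).2 (by omega)
    exact h1.ne_zero h3
  rw [← ZMod.natCast_zmod_val A, ← Nat.div_add_mod A.val 2, h2]
  have : (2 : ZMod 8190) * 4095 = 0 := by decide +kernel
  push_cast
  linear_combination (A.val / 2 : ℕ) * this

theorem welch_ne_golomb {A : ZMod 8190} (hA : IsUnit A) (D : ZMod 8190) {s b : ZMod 8191}
    (hs : s ≠ 0) (hb : b ≠ 0)
    (h : ∀ x, 1 ≤ x → x ≤ 8190 → welch A D x = golomb s b x) : False := by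
  have key : ∀ x : ℕ, 1 ≤ x → x ≤ 8190 → (b * s * x) ^ 2 = (4095 : ZMod 8191) ^ 2 := by
    intro x x1 x2
    have hx := natCast_ne_zero x1 x2
    have hneg : ((8191 - x : ℕ) : ZMod 8191) = -(x : ZMod 8191) := by
      rw [Nat.cast_sub (by omega)]
      have : ((8191 : ℕ) : ZMod 8191) = 0 := ZMod.natCast_self 8191
      rw [this, zero_sub]
    have e1 : (welch A D (8191 - x) : ZMod 8190) = ((welch A D x + 4095 : ℕ) : ZMod 8190) := by
      rw [Nat.cast_add, welch_cast, welch_cast, hneg, neg_eq_neg_one_mul,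
        lam_mul (neg_ne_zero.2 one_ne_zero) hx, lam_neg_one, mul_add, odd_of_isUnit hA]
      push_cast
      ring
    have e2 := (ZMod.natCast_eq_natCast_iff' _ _ 8190).1 e1
    have r1 := welch_range A D x
    have r2 := welch_range A D (8191 - x)
    have g1 := golomb_cast s b x
    have g2 := golomb_cast s b (8191 - x)
    rw [hneg, mul_neg, zech_neg (mul_ne_zero hs hx)] at g2
    rw [← h x x1 x2] at g1
    rw [← h (8191 - x) (by omega) (by omega)] at g2
    have e3 : welch A D (8191 - x) = welch A D x + 4095 ∨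
        welch A D (8191 - x) + 4095 = welch A D x := by omega
    rcases e3 with e3 | e3
    · have e4 := congrArg (Nat.cast : ℕ → ZMod 8191) e3
      push_cast at e4
      have : b * s * x = -4095 := by linear_combination g2 - g1 - e4
      rw [this]; ring
    · have e4 := congrArg (Nat.cast : ℕ → ZMod 8191) e3
      push_cast at e4
      have : b * s * x = 4095 := by linear_combination g2 - g1 + e4 - 2 * e4
      rw [this]
  have k1 := key 1 (by omega) (by omega)
  have k2 := key 2 (by omega) (by omega)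
  push_cast at k1 k2
  have h3 : (3 : ZMod 8191) ≠ 0 := natCast_ne_zero (x := 3) (by omega) (by omega)
  have : 3 * (b * s) ^ 2 = 0 := by linear_combination k2 - k1
  exact mul_ne_zero h3 (pow_ne_zero 2 (mul_ne_zero hb hs)) this

theorem bezout3 (x y : ℕ) (h : Nat.gcd (Nat.gcd x 4095) y = 1) :
    ∃ p q : ZMod 4095, p * x + q * y = 1 := by
  have h1 := Nat.gcd_eq_gcd_ab x 4095
  have h2 := Nat.gcd_eq_gcd_ab (Nat.gcd x 4095) y
  rw [h] at h2
  have c1 := congrArg (Int.cast : ℤ → ZMod 4095) h1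
  have c2 := congrArg (Int.cast : ℤ → ZMod 4095) h2
  push_cast at c1 c2
  have h0 : (4095 : ZMod 4095) = 0 := ZMod.natCast_self 4095
  refine ⟨(Nat.gcdA x 4095 : ℤ) * (Nat.gcdA (Nat.gcd x 4095) y : ℤ),
    (Nat.gcdB (Nat.gcd x 4095) y : ℤ), ?_⟩
  rw [c1, h0] at c2
  linear_combination -c2

theorem exists_unit {u v d1 d2 : ℕ} (hu : u ≤ 4095) (hg : Nat.gcd (Nat.gcd u 4095) v = 1)
    (h : (d1 * v + d2 * (4095 - u)) % 4095 + Nat.gcd (Nat.gcd d1 d2) 4095 +
      (((d1 + u) ||| (d2 + v)) &&& 1) = 1) :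
    Nat.gcd (Nat.gcd d1 d2) 4095 = 1 ∧
      ∃ A : ZMod 8190, IsUnit A ∧ A * u = d1 ∧ A * v = d2 := by
  have hpos : 0 < Nat.gcd (Nat.gcd d1 d2) 4095 := Nat.gcd_pos_of_pos_right _ (by norm_num)
  have h1 : (d1 * v + d2 * (4095 - u)) % 4095 = 0 := by omega
  have h2 : Nat.gcd (Nat.gcd d1 d2) 4095 = 1 := by omega
  have h3 : ((d1 + u) ||| (d2 + v)) &&& 1 = 0 := by omega
  refine ⟨h2, ?_⟩
  rw [Nat.and_one_is_mod] at h3
  have h45 : ¬ ((d1 + u) % 2 = 1 ∨ (d2 + v) % 2 = 1) := by
    rw [← Nat.or_mod_two_eq_one]; omega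
  have h4 : (d1 + u) % 2 = 0 := by omega
  have h5 : (d2 + v) % 2 = 0 := by omega
  obtain ⟨p, q, hpq⟩ := bezout3 u v hg
  obtain ⟨p', q', hpq'⟩ := bezout3 d1 d2 (by
    rw [Nat.gcd_assoc, Nat.gcd_comm 4095, ← Nat.gcd_assoc]; exact h2)
  have h0 : (4095 : ZMod 4095) = 0 := ZMod.natCast_self 4095
  have h6 : (d1 : ZMod 4095) * v = d2 * u := by
    have := (ZMod.natCast_eq_zero_iff _ 4095).2 (Nat.dvd_of_mod_eq_zero h1)
    push_cast [Nat.cast_sub hu] at this
    rw [h0] at this
    linear_combination this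
  have a1 : (p * d1 + q * d2) * u = d1 := by linear_combination d1 * hpq - q * h6
  have a2 : (p * d1 + q * d2) * v = d2 := by linear_combination d2 * hpq + p * h6
  have a3 : IsUnit (p * d1 + q * d2) :=
    IsUnit.of_mul_eq_one (p' * u + q' * v) (by linear_combination hpq' + p' * a1 + q' * a2)
  have b1 : (u : ZMod 2) = d1 := (ZMod.natCast_eq_natCast_iff' _ _ 2).2 (by omega)
  have b2 : (v : ZMod 2) = d2 := (ZMod.natCast_eq_natCast_iff' _ _ 2).2 (by omega)
  let e : ZMod 8190 ≃+* ZMod 2 × ZMod 4095 :=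
    ZMod.chineseRemainder (m := 2) (n := 4095) (by norm_num)
  refine ⟨e.symm (1, p * d1 + q * d2), ?_, ?_, ?_⟩
  · exact IsUnit.map e.symm (Prod.isUnit_iff.2 ⟨isUnit_one, a3⟩)
  · apply e.injective
    rw [map_mul, RingEquiv.apply_symm_apply, map_natCast, map_natCast]
    ext
    · simpa using b1
    · simpa using a1
  · apply e.injective
    rw [map_mul, RingEquiv.apply_symm_apply, map_natCast, map_natCast]
    ext
    · simpa using b2
    · simpa using a2

/-- Two different Costas permutations agree at the positions `γ ^ l, γ ^ (l + u), γ ^ (l + v)`. -/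
def Agree (l u v : ℕ) : Prop :=
  ∃ F G : ℕ → ℕ, CosFun F ∧ CosFun G ∧ (¬ ∀ x, 1 ≤ x → x ≤ 8190 → F x = G x) ∧
    ∀ x : ℕ, 1 ≤ x → x ≤ 8190 →
      ((x : ZMod 8191) = gam ^ l ∨ (x : ZMod 8191) = gam ^ (l + u) ∨
        (x : ZMod 8191) = gam ^ (l + v)) → F x = G x

theorem agree_of_wit {u v : ℕ} (hu : u ≤ 2730) (hv : v ≤ 8190)
    (hg : Nat.gcd (Nat.gcd u 4095) v = 1) (h : Wit u v) (l : ℕ) : Agree l u v := by
  obtain ⟨t, b, ht, hb, hc⟩ := h
  obtain ⟨hgcd, A, hA, h1, h2⟩ := exists_unit (by omega) hg hc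
  have hb0 : 1 ≤ b := by
    by_contra h0
    have : b = 0 := by omega
    subst this
    simp at hgcd
  have hb' := natCast_ne_zero hb0 (by omega)
  have hgl : gam ^ l ≠ 0 := pow_ne_zero l gam_ne_zero
  have hs : gam ^ t * (gam ^ l)⁻¹ ≠ 0 :=
    mul_ne_zero (pow_ne_zero t gam_ne_zero) (inv_ne_zero hgl)
  have hgol : ∀ (x k : ℕ), k ≤ 8190 → (x : ZMod 8191) = gam ^ (l + k) →
      golomb (gam ^ t * (gam ^ l)⁻¹) b x = b * W (k + t) % 8191 := by
    intro x k hk e
    have : gam ^ t * (gam ^ l)⁻¹ * gam ^ (l + k) = gam ^ (k + t) := by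
      rw [pow_add, pow_add]
      field_simp
    rw [golomb, e, this, zech_pow _ (by omega), ← Nat.cast_mul, ZMod.val_natCast]
  have hw0 : b * W t % 8191 ≤ 8190 := by omega
  have h0 : ((8190 : ℕ) : ZMod 8190) = 0 := ZMod.natCast_self 8190
  rw [Nat.cast_add, Nat.cast_sub hw0, h0] at h1 h2
  have hG := cosFun_golomb hs hb'
  refine ⟨welch A (((b * W t % 8191 : ℕ) : ZMod 8190) - A * l - 1),
    golomb (gam ^ t * (gam ^ l)⁻¹) b, cosFun_welch hA _, hG,
    welch_ne_golomb hA _ hs hb', ?_⟩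
  intro x x1 x2 hx
  have r1 := welch_range A (((b * W t % 8191 : ℕ) : ZMod 8190) - A * l - 1) x
  have r2 := hG.range x x1 x2
  apply natCast_inj' r1.1 r1.2 r2.1 r2.2
  rw [welch_cast]
  rcases hx with hx | hx | hx
  · rw [hgol x 0 (by omega) hx, hx, lam_pow, Nat.zero_add]
    ring
  · rw [hgol x u (by omega) hx, hx, lam_pow, Nat.cast_add]
    linear_combination h1
  · rw [hgol x v (by omega) hx, hx, lam_pow, Nat.cast_add]
    linear_combination h2

theorem agree_of_unit {u v : ℕ} (A : ZMod 8190) (hA : IsUnit A) (h1 : A ≠ 1)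
    (hu : (A - 1) * u = 0) (hv : (A - 1) * v = 0) (l : ℕ) : Agree l u v := by
  refine ⟨welch 1 0, welch A ((1 - A) * l), cosFun_welch isUnit_one _, cosFun_welch hA _, ?_, ?_⟩
  · intro h
    have hz : gam ^ (l + 1) ≠ 0 := pow_ne_zero _ gam_ne_zero
    have r1 := ZMod.val_lt (gam ^ (l + 1))
    have r2 : (gam ^ (l + 1)).val ≠ 0 := by rwa [Ne, ZMod.val_eq_zero]
    have e := congrArg (Nat.cast : ℕ → ZMod 8190) (h (gam ^ (l + 1)).val (by omega) (by omega))
    rw [welch_cast, welch_cast, ZMod.natCast_zmod_val, lam_pow] at e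
    push_cast at e
    apply h1
    linear_combination -e
  · intro x x1 x2 hx
    have r1 := welch_range 1 0 x
    have r2 := welch_range A ((1 - A) * l) x
    apply natCast_inj' r1.1 r1.2 r2.1 r2.2
    rw [welch_cast, welch_cast]
    rcases hx with hx | hx | hx
    · rw [hx, lam_pow]
      ring
    · rw [hx, lam_pow, Nat.cast_add]
      linear_combination -hu
    · rw [hx, lam_pow, Nat.cast_add]
      linear_combination -hv

theorem agree_of_dvd {u v : ℕ} (q m : ℕ) (hq : q * m = 8190) (hm : Nat.Coprime (m + 1) 8190)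
    (hm0 : (m : ZMod 8190) ≠ 0) (hu : q ∣ u) (hv : q ∣ v) (l : ℕ) : Agree l u v := by
  have h0 : (q : ZMod 8190) * m = 0 := by
    rw [← Nat.cast_mul, hq]; exact ZMod.natCast_self 8190
  obtain ⟨u', rfl⟩ := hu
  obtain ⟨v', rfl⟩ := hv
  refine agree_of_unit ((m + 1 : ℕ) : ZMod 8190) ((ZMod.isUnit_iff_coprime _ _).2 hm) ?_ ?_ ?_ l
  · intro h
    apply hm0
    push_cast at h
    linear_combination h
  · push_cast
    linear_combination u' * h0
  · push_cast
    linear_combination v' * h0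

theorem agree_all (H : Rng 1 2731) {u v : ℕ} (h1 : 1 ≤ u) (h2 : 2 * u ≤ v) (h3 : v + u ≤ 8190)
    (l : ℕ) : Agree l u v := by
  by_cases hg : Nat.gcd (Nat.gcd u 4095) v = 1
  · exact agree_of_wit (by omega) (by omega) hg (H u h1 (by omega) v h2 (by omega) hg) l
  · obtain ⟨q, hq, hd⟩ := Nat.exists_prime_and_dvd hg
    have d1 : q ∣ v := hd.trans (Nat.gcd_dvd_right _ _)
    have d2 : q ∣ u := (hd.trans (Nat.gcd_dvd_left _ _)).trans (Nat.gcd_dvd_left _ _)
    have d3 : q ∣ 3 * (3 * (5 * (7 * 13))) :=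
      (hd.trans (Nat.gcd_dvd_left _ _)).trans (Nat.gcd_dvd_right _ _)
    simp only [hq.dvd_mul] at d3
    rcases d3 with h | h | h | h | h
    · rw [(Nat.prime_dvd_prime_iff_eq hq (by norm_num)).1 h] at d1 d2
      exact agree_of_dvd 3 2730 rfl (by norm_num) (by decide +kernel) d2 d1 l
    · rw [(Nat.prime_dvd_prime_iff_eq hq (by norm_num)).1 h] at d1 d2
      exact agree_of_dvd 3 2730 rfl (by norm_num) (by decide +kernel) d2 d1 l
    · rw [(Nat.prime_dvd_prime_iff_eq hq (by norm_num)).1 h] at d1 d2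
      exact agree_of_dvd 5 1638 rfl (by norm_num) (by decide +kernel) d2 d1 l
    · rw [(Nat.prime_dvd_prime_iff_eq hq (by norm_num)).1 h] at d1 d2
      exact agree_of_dvd 7 1170 rfl (by norm_num) (by decide +kernel) d2 d1 l
    · rw [(Nat.prime_dvd_prime_iff_eq hq (by norm_num)).1 h] at d1 d2
      exact agree_of_dvd 13 630 rfl (by norm_num) (by decide +kernel) d2 d1 l

/-- Two different Costas permutations agree at the positions `γ ^ a, γ ^ b, γ ^ c`. -/
def Agree3 (a b c : ℕ) : Prop :=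
  ∃ F G : ℕ → ℕ, CosFun F ∧ CosFun G ∧ (¬ ∀ x, 1 ≤ x → x ≤ 8190 → F x = G x) ∧
    ∀ x : ℕ, 1 ≤ x → x ≤ 8190 →
      ((x : ZMod 8191) = gam ^ a ∨ (x : ZMod 8191) = gam ^ b ∨
        (x : ZMod 8191) = gam ^ c) → F x = G x

theorem gam_period (a : ℕ) : gam ^ (8190 + a) = gam ^ a := by
  have := pow_orderOf_eq_one gam
  rw [orderOf_gam] at this
  rw [pow_add, this, one_mul]

theorem agree3_sorted (H : Rng 1 2731) {a b c : ℕ} (hab : a < b) (hbc : b < c) (hc : c < 8190) :
    Agree3 a b c := by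
  by_cases c1 : b - a ≤ c - b ∧ b - a ≤ 8190 + a - c
  · obtain ⟨F, G, hF, hG, hne, h⟩ := agree_all H (u := b - a) (v := c - a) (by omega) (by omega)
      (by omega) a
    rw [show a + (b - a) = b by omega, show a + (c - a) = c by omega] at h
    exact ⟨F, G, hF, hG, hne, h⟩
  by_cases c2 : c - b ≤ b - a ∧ c - b ≤ 8190 + a - c
  · obtain ⟨F, G, hF, hG, hne, h⟩ := agree_all H (u := c - b) (v := 8190 + a - b) (by omega)
      (by omega) (by omega) b
    rw [show b + (c - b) = c by omega, show b + (8190 + a - b) = 8190 + a by omega,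
      gam_period] at h
    exact ⟨F, G, hF, hG, hne, fun x x1 x2 hx => h x x1 x2 (by tauto)⟩
  · obtain ⟨F, G, hF, hG, hne, h⟩ := agree_all H (u := 8190 + a - c) (v := 8190 + b - c)
      (by omega) (by omega) (by omega) c
    rw [show c + (8190 + a - c) = 8190 + a by omega, show c + (8190 + b - c) = 8190 + b by omega,
      gam_period, gam_period] at h
    exact ⟨F, G, hF, hG, hne, fun x x1 x2 hx => h x x1 x2 (by tauto)⟩

theorem Agree3.swap12 {a b c : ℕ} (h : Agree3 a b c) : Agree3 b a c := by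
  obtain ⟨F, G, hF, hG, hne, h⟩ := h
  exact ⟨F, G, hF, hG, hne, fun x x1 x2 hx => h x x1 x2 (by tauto)⟩

theorem Agree3.swap23 {a b c : ℕ} (h : Agree3 a b c) : Agree3 a c b := by
  obtain ⟨F, G, hF, hG, hne, h⟩ := h
  exact ⟨F, G, hF, hG, hne, fun x x1 x2 hx => h x x1 x2 (by tauto)⟩

theorem agree3 (H : Rng 1 2731) {a b c : ℕ} (ha : a < 8190) (hb : b < 8190) (hc : c < 8190)
    (hab : a ≠ b) (hac : a ≠ c) (hbc : b ≠ c) : Agree3 a b c := by
  rcases lt_or_gt_of_ne hab with h1 | h1 <;> rcases lt_or_gt_of_ne hac with h2 | h2 <;>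
    rcases lt_or_gt_of_ne hbc with h3 | h3
  · exact agree3_sorted H h1 h3 hc
  · exact (agree3_sorted H h2 h3 hb).swap23
  · omega
  · exact (agree3_sorted H h2 h1 hb).swap12.swap23
  · exact (agree3_sorted H h1 h2 hc).swap12
  · omega
  · exact (agree3_sorted H h3 h2 ha).swap23.swap12
  · exact (agree3_sorted H h3 h1 ha).swap12.swap23.swap12

theorem not_determines (H : Rng 1 2731) (S : Finset (Fin 8190)) (hS : S.card ≤ 3) :
    ¬ Determines S := by
  obtain ⟨T, hST, hT⟩ := Finset.exists_superset_card_eq hS (by simp)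
  obtain ⟨i, j, k, hij, hik, hjk, rfl⟩ := Finset.card_eq_three.1 hT
  have nz : ∀ i : Fin 8190, (((i : ℕ) + 1 : ℕ) : ZMod 8191) ≠ 0 := fun i =>
    natCast_ne_zero (by omega) (by omega)
  have inj : ∀ i j : Fin 8190, lg (((i : ℕ) + 1 : ℕ) : ZMod 8191) =
      lg (((j : ℕ) + 1 : ℕ) : ZMod 8191) → i = j := by
    intro i j e
    have e2 : (((i : ℕ) + 1 : ℕ) : ZMod 8191) = (((j : ℕ) + 1 : ℕ) : ZMod 8191) := by
      rw [← gam_lg (nz i), ← gam_lg (nz j), e]
    have := natCast_inj (by omega) (by omega) e2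
    exact Fin.ext (by omega)
  obtain ⟨F, G, hF, hG, hne, h⟩ := agree3 H (lg_lt (nz i)) (lg_lt (nz j)) (lg_lt (nz k))
    (fun e => hij (inj _ _ e)) (fun e => hik (inj _ _ e)) (fun e => hjk (inj _ _ e))
  rw [gam_lg (nz i), gam_lg (nz j), gam_lg (nz k)] at h
  obtain ⟨f, hf, ef⟩ := hF.exists_perm
  obtain ⟨g, hg, eg⟩ := hG.exists_perm
  intro hD
  have hfg : f = g := by
    refine hD f g hf hg fun m hm => ?_
    have hm' := hST hm
    simp only [Finset.mem_insert, Finset.mem_singleton] at hm'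
    have := h (m + 1) (by omega) (by omega) (by rcases hm' with rfl | rfl | rfl <;> simp)
    have e1 := ef m
    have e2 := eg m
    exact Fin.ext (by omega)
  apply hne
  intro x x1 x2
  have e1 := ef ⟨x - 1, by omega⟩
  have e2 := eg ⟨x - 1, by omega⟩
  rw [hfg] at e1
  have e3 : x - 1 + 1 = x := by omega
  simp only [e3] at e1 e2
  omega

theorem four_le_dof (H : Rng 1 2731) : 4 ≤ dof 8190 := by
  have hne : {k : ℕ | 1 ≤ k ∧ k ≤ 8190 ∧
      ∃ S : Finset (Fin 8190), S.card = k ∧ Determines S}.Nonempty :=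
    ⟨8190, by norm_num, le_rfl, Finset.univ, by simp,
      fun f g _ _ h => Equiv.ext fun i => h i (Finset.mem_univ i)⟩
  obtain ⟨-, -, S, hS, hD⟩ := Nat.sInf_mem hne
  by_contra hlt
  exact not_determines H S (by unfold dof at hlt; omega) hD

end Pool.Agent.Lib.MP_34b234_co
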