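import Pool.Agent.Lib.MP_34b234_co.Defs

/-! Golomb permutations; the pair `(α, α)`, `(α, -α)` agrees where `1 - α ^ i` is a square. -/

set_option autoImplicit false

namespace Pool.Agent.Lib.MP_34b234_co.Ty

variable {F : Type} [Field F] [Fintype F] {n : ℕ}

lemma pow_card (hn : Fintype.card F = n + 2) {y : F} (hy : y ≠ 0) : y ^ (n + 1) = 1 := by
  have h := FiniteField.pow_card_sub_one_eq_one y hy
  rwa [hn] at h

omit [Fintype F] in
lemma pw_ne_one {α : F} (hα : IsPrimitiveRoot α (n + 1)) (i : Fin n) : α ^ ((i : ℕ) + 1) ≠ 1 :=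
  hα.pow_ne_one_of_pos_of_lt (by omega) (by have := i.2; omega)

omit [Fintype F] in
lemma pw_ne_zero {α : F} (hα : IsPrimitiveRoot α (n + 1)) (i : ℕ) : α ^ i ≠ 0 :=
  pow_ne_zero _ (hα.ne_zero (by omega))

omit [Fintype F] in
lemma pw_inj {α : F} (hα : IsPrimitiveRoot α (n + 1)) {i j : Fin n}
    (h : α ^ ((i : ℕ) + 1) = α ^ ((j : ℕ) + 1)) : i = j := by
  have h1 := hα.pow_inj (by have := i.2; omega) (by have := j.2; omega) h
  exact Fin.ext (by omega)

lemma pw_surj (hn : Fintype.card F = n + 2) {α : F} (hα : IsPrimitiveRoot α (n + 1)) {y : F}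
    (h0 : y ≠ 0) (h1 : y ≠ 1) : ∃ i : Fin n, α ^ ((i : ℕ) + 1) = y := by
  obtain ⟨u, hu, h⟩ := hα.eq_pow_of_pow_eq_one (pow_card hn h0)
  have hu0 : u ≠ 0 := by
    rintro rfl
    exact h1 (by rw [← h, pow_zero])
  refine ⟨⟨u - 1, by omega⟩, ?_⟩
  rw [← h]
  congr 1
  simp only
  omega

theorem exists_golomb (hn : Fintype.card F = n + 2) {α β : F} (hα : IsPrimitiveRoot α (n + 1))
    (hβ : IsPrimitiveRoot β (n + 1)) : ∃ f : Equiv.Perm (Fin n), IsCostas f ∧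
      ∀ i, β ^ ((f i : ℕ) + 1) = 1 - α ^ ((i : ℕ) + 1) := by
  have h1 : ∀ i : Fin n, ∃ u : Fin n, β ^ ((u : ℕ) + 1) = 1 - α ^ ((i : ℕ) + 1) := fun i =>
    pw_surj hn hβ (sub_ne_zero.2 (pw_ne_one hα i).symm)
      (fun h => pw_ne_zero hα _ (sub_eq_self.1 h))
  choose φ hφ using h1
  have hinj : Function.Injective φ := fun i j h => by
    have h2 := hφ i
    rw [h, hφ j] at h2
    exact pw_inj hα (sub_right_injective h2).symm
  refine ⟨Equiv.ofBijective φ (Finite.injective_iff_bijective.1 hinj), ?_, hφ⟩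
  intro i j k l hij hkl h
  simp only [Equiv.ofBijective_apply, Prod.mk.injEq] at h
  have hij' : (i : ℕ) < j := hij
  have hkl' : (k : ℕ) < l := hkl
  obtain ⟨a, ha⟩ : ∃ a : ℕ, (j : ℕ) = i + a := ⟨j - i, by omega⟩
  have ha' : (l : ℕ) = k + a := by omega
  have hA : α ^ a ≠ 1 := hα.pow_ne_one_of_pos_of_lt (by omega) (by have := j.2; omega)
  have h3 : β ^ ((φ j : ℕ) + 1) * β ^ ((φ k : ℕ) + 1) =
      β ^ ((φ l : ℕ) + 1) * β ^ ((φ i : ℕ) + 1) := by
    rw [← pow_add, ← pow_add]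
    congr 1
    omega
  rw [hφ, hφ, hφ, hφ, ha, ha'] at h3
  have h4 : (α ^ a - 1) * (α ^ ((k : ℕ) + 1) - α ^ ((i : ℕ) + 1)) = 0 := by
    linear_combination h3
  have h5 := pw_inj hα (sub_eq_zero.1 ((mul_eq_zero.1 h4).resolve_left (sub_ne_zero.2 hA)))
  exact ⟨h5.symm, Fin.ext (by rw [ha, ha', h5])⟩

theorem not_determines (hn : Fintype.card F = n + 2) (h4 : 4 ∣ n + 1) {α : F}
    (hα : IsPrimitiveRoot α (n + 1)) {S : Finset (Fin n)}
    (hS : ∀ i ∈ S, IsSquare (1 - α ^ ((i : ℕ) + 1))) : ¬ Determines S := by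
  obtain ⟨t, ht⟩ := h4
  have hm : α ^ (2 * t) = -1 :=
    (hα.pow (by omega) (show n + 1 = 2 * t * 2 by omega)).eq_neg_one_of_two_right
  have hne : α ^ (2 * t) ≠ 1 := hα.pow_ne_one_of_pos_of_lt (by omega) (by omega)
  have hc : Nat.Coprime (1 + 2 * t) (n + 1) := by
    rw [ht]
    refine Nat.Coprime.mul_right ?_ ?_
    · have ho : Odd (1 + 2 * t) := ⟨t, by omega⟩
      exact (Nat.coprime_two_right.2 ho).pow_right 2
    · exact (Nat.coprime_add_mul_right_left 1 t 2).2 (Nat.coprime_one_left t)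
  have hβ : IsPrimitiveRoot (-α) (n + 1) := by
    have h := hα.pow_of_coprime _ hc
    rwa [pow_add, hm, pow_one, mul_neg, mul_one] at h
  obtain ⟨f, hf, ef⟩ := exists_golomb hn hα hα
  obtain ⟨g, hg, eg⟩ := exists_golomb hn hα hβ
  intro hD
  have hfg : f = g := by
    refine hD f g hf hg fun i hi => pw_inj hβ ?_
    obtain ⟨s, hs⟩ := hS i hi
    rw [← ef] at hs
    have hs0 : s ≠ 0 := by
      rintro rfl
      exact pw_ne_zero hα _ (hs.trans (mul_zero _))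
    have h1 : (-1 : F) ^ ((f i : ℕ) + 1) = 1 := by
      rw [← hm, ← pow_mul, mul_comm, pow_mul, hs, ← pow_card hn hs0, mul_pow, ← pow_add]
      congr 1
      omega
    rw [eg, ← ef, neg_pow, h1, one_mul]
  have h1 := ef (f.symm ⟨0, by omega⟩)
  have h2 := eg (f.symm ⟨0, by omega⟩)
  rw [← hfg, ← h1, Equiv.apply_symm_apply] at h2
  simp only [zero_add, pow_one] at h2
  refine hne (mul_left_cancel₀ (hα.ne_zero (by omega)) ?_)
  rw [hm, mul_neg, mul_one, h2]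

end Pool.Agent.Lib.MP_34b234_co.Ty
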