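import Mathlib

/-! Second moment: few `k`-sets lie in none of many nearly independent sets of equal size. -/

set_option autoImplicit false

namespace Pool.Agent.Lib.MP_34b234_co.Ty

open Finset

variable {V ι : Type} [Fintype V] [DecidableEq V] [DecidableEq ι]

lemma sum_sub (k : ℕ) (B : Finset V) :
    ∑ S ∈ powersetCard k (univ : Finset V), (if S ⊆ B then (1 : ℝ) else 0) = B.card.choose k := by
  rw [sum_boole, ← card_powersetCard]
  congr 2
  ext S
  simp only [mem_filter, mem_powersetCard, subset_univ, true_and]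
  tauto

lemma moment (R : Finset ι) (A : ι → Finset V) (s ν k : ℕ) (hs : ∀ m ∈ R, (A m).card = s)
    (hν : ∀ m ∈ R, ∀ m' ∈ R, m ≠ m' → (A m ∩ A m').card ≤ ν) :
    ((R.card : ℝ) * s.choose k) ^ 2 ≤
      (((powersetCard k (univ : Finset V)).filter fun S => ∃ m ∈ R, S ⊆ A m).card : ℝ) *
        (R.card * (s.choose k + R.card * ν.choose k)) := by
  set P := powersetCard k (univ : Finset V) with hP
  let X : Finset V → ℝ := fun S => ∑ m ∈ R, if S ⊆ A m then (1 : ℝ) else 0
  have h1 : ∑ S ∈ P, X S = R.card * s.choose k := by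
    rw [sum_comm, sum_congr rfl fun m hm => (sum_sub k (A m)).trans (by rw [hs m hm]), sum_const,
      nsmul_eq_mul]
  have h2 : ∑ S ∈ P, X S ^ 2 ≤ R.card * (s.choose k + R.card * ν.choose k) := by
    have e : ∀ S, X S ^ 2 = ∑ m ∈ R, ∑ m' ∈ R, if S ⊆ A m ∩ A m' then (1 : ℝ) else 0 := by
      intro S
      rw [sq, sum_mul_sum]
      refine sum_congr rfl fun m _ => sum_congr rfl fun m' _ => ?_
      simp only [subset_inter_iff]
      by_cases h : S ⊆ A m <;> by_cases h' : S ⊆ A m' <;> simp [h, h']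
    rw [sum_congr rfl fun S _ => e S, sum_comm, ← nsmul_eq_mul, ← sum_const]
    refine sum_le_sum fun m hm => ?_
    rw [sum_comm, sum_congr rfl fun m' _ => sum_sub k (A m ∩ A m'), ← add_sum_erase R _ hm,
      inter_self, hs m hm]
    refine add_le_add le_rfl ?_
    refine (sum_le_card_nsmul _ _ (ν.choose k : ℝ) fun m' hm' => ?_).trans ?_
    · exact_mod_cast Nat.choose_le_choose k
        (hν m hm m' (mem_of_mem_erase hm') (ne_of_mem_erase hm').symm)
    · rw [nsmul_eq_mul]
      gcongr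
      exact erase_subset _ _
  have h3 : ∑ S ∈ P.filter fun S => ∃ m ∈ R, S ⊆ A m, X S = ∑ S ∈ P, X S := by
    refine sum_filter_of_ne fun S _ h => ?_
    by_contra hc
    push Not at hc
    exact h (sum_eq_zero fun m hm => if_neg (hc m hm))
  rw [← h1, ← h3]
  refine sq_sum_le_card_mul_sum_sq.trans (mul_le_mul_of_nonneg_left (le_trans ?_ h2) (by positivity))
  exact sum_le_sum_of_subset_of_nonneg (filter_subset _ _) fun _ _ _ => sq_nonneg _

lemma bad_le {T G B K c d : ℝ} (hT : G + B = T) (hG : 0 ≤ G) (hB : 0 ≤ B) (hK : 0 < K)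
    (hc : 0 < c) (hd : 0 ≤ d) (h : (K * c) ^ 2 ≤ G * (K * (c + K * d))) :
    B ≤ (T / c / K + (T * d / c ^ 2 - 1)) * T := by
  have h1 : K * c ^ 2 ≤ G * (c + K * d) := by
    refine le_of_mul_le_mul_left ?_ hK
    nlinarith
  have hb : 0 ≤ c + K * d := by positivity
  have ha : 0 < K * c ^ 2 := by positivity
  have e : (T / c / K + (T * d / c ^ 2 - 1)) * T =
      T * (T * (c + K * d) - K * c ^ 2) / (K * c ^ 2) := by
    field_simp
    ring
  rw [e, le_div_iff₀ ha]
  have h2 : B * (K * c ^ 2) ≤ B * (G * (c + K * d)) := mul_le_mul_of_nonneg_left h1 hB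
  have h3 : T * (B * (c + K * d)) ≤ T * (T * (c + K * d) - K * c ^ 2) := by
    refine mul_le_mul_of_nonneg_left ?_ (by linarith)
    rw [← hT]
    nlinarith
  have h4 : 0 ≤ B * (B * (c + K * d)) := by positivity
  have h5 : T * (B * (c + K * d)) = B * (G * (c + K * d)) + B * (B * (c + K * d)) := by
    rw [← hT]
    ring
  linarith

/-- The number of `k`-sets inside no `A m`. -/
theorem bad_card (R : Finset ι) (hR : R.Nonempty) (A : ι → Finset V) (s ν k : ℕ) (hk : k ≤ s)
    (hs : ∀ m ∈ R, (A m).card = s)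
    (hν : ∀ m ∈ R, ∀ m' ∈ R, m ≠ m' → (A m ∩ A m').card ≤ ν) :
    (((powersetCard k (univ : Finset V)).filter fun S => ¬ ∃ m ∈ R, S ⊆ A m).card : ℝ) ≤
      (((Fintype.card V : ℝ) / (s + 1 - k : ℕ)) ^ k / R.card +
        (((Fintype.card V : ℝ) * ν / ((s + 1 - k : ℕ) : ℝ) ^ 2) ^ k - 1)) *
        (Fintype.card V).choose k := by
  have h1 := card_filter_add_card_filter_not (s := powersetCard k (univ : Finset V))
    (fun S => ∃ m ∈ R, S ⊆ A m)
  rw [card_powersetCard, card_univ] at h1
  have hK : (0 : ℝ) < R.card := by exact_mod_cast hR.card_pos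
  have hc : (0 : ℝ) < s.choose k := by exact_mod_cast Nat.choose_pos hk
  refine (bad_le (T := (Fintype.card V).choose k) (by exact_mod_cast h1) (by positivity)
    (by positivity) hK hc (by positivity) (moment R A s ν k hs hν)).trans ?_
  have hw : (0 : ℝ) < (s + 1 - k : ℕ) := by exact_mod_cast (by omega : 0 < s + 1 - k)
  have hf : (0 : ℝ) < k.factorial := by exact_mod_cast k.factorial_pos
  have a1 : ((Fintype.card V).choose k : ℝ) ≤ (Fintype.card V : ℝ) ^ k / k.factorial :=
    Nat.choose_le_pow_div k _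
  have a2 : (ν.choose k : ℝ) ≤ (ν : ℝ) ^ k / k.factorial := Nat.choose_le_pow_div k _
  have a3 : ((s + 1 - k : ℕ) : ℝ) ^ k / k.factorial ≤ s.choose k := Nat.pow_le_choose k s
  have b1 : ((Fintype.card V).choose k : ℝ) / s.choose k ≤
      ((Fintype.card V : ℝ) / (s + 1 - k : ℕ)) ^ k := by
    refine (div_le_div₀ (by positivity) a1 (by positivity) a3).trans (le_of_eq ?_)
    rw [div_pow]
    field_simp
  have b2 : ((Fintype.card V).choose k : ℝ) * ν.choose k / (s.choose k : ℝ) ^ 2 ≤
      ((Fintype.card V : ℝ) * ν / ((s + 1 - k : ℕ) : ℝ) ^ 2) ^ k := by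
    refine (div_le_div₀ (by positivity) (mul_le_mul a1 a2 (by positivity) (by positivity))
      (by positivity) (pow_le_pow_left₀ (by positivity) a3 2)).trans (le_of_eq ?_)
    rw [div_pow, div_pow, mul_pow, ← pow_mul, ← pow_mul, mul_comm k 2]
    field_simp
  gcongr

end Pool.Agent.Lib.MP_34b234_co.Ty
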