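import Mathlib

/-! Primes not dividing a given number, and the numerical estimates. -/

set_option autoImplicit false

namespace Pool.Agent.Lib.MP_34b234_co.Ty

open Finset Real

lemma card_pf (N : ℕ) (hN : N ≠ 0) : (N.primeFactors.card : ℝ) * log 2 ≤ log N := by
  have h1 : 2 ^ N.primeFactors.card ≤ N :=
    (pow_card_le_prod _ _ _ fun p hp => (Nat.prime_of_mem_primeFactors hp).two_le).trans
      (Nat.le_of_dvd (Nat.pos_of_ne_zero hN) (Nat.prod_primeFactors_dvd N))
  rw [← log_pow]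
  exact log_le_log (by positivity) (by exact_mod_cast h1)

/-- Many primes up to `M` do not divide `N`. -/
lemma primes_card {M N : ℕ} (hN : N ≠ 0) {L : ℝ} (hL : 1 ≤ L) (hM : 2 ≤ M)
    (h1 : log (M + 1) ≤ L) (h2 : log N ≤ 2 * L) (h3 : 16 * L ^ 2 ≤ M) :
    (M : ℝ) / (4 * L) ≤ ((Nat.primesLE M \ N.primeFactors).card : ℝ) := by
  have hM' : (2 : ℝ) ≤ M := by exact_mod_cast hM
  have l2 := log_two_gt_d9
  have a1 := card_pf N hN
  have a2 := Chebyshev.pi_ge M
  rw [← Nat.primesLE_card_eq_primeCounting] at a2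
  have a3 : ((Nat.primesLE M).card : ℝ) ≤
      (Nat.primesLE M \ N.primeFactors).card + N.primeFactors.card := by
    exact_mod_cast card_le_card_sdiff_add_card
  have a4 : 0 < log M := log_pos (by linarith)
  have a5 : log M ≤ L := (log_le_log (by linarith) (by linarith)).trans h1
  have a6 : L ≤ L ^ 2 := by nlinarith
  have a7 : (M : ℝ) / (2 * L) ≤ (M * log 2 - log (M + 1)) / log M := by
    rw [show (M : ℝ) / (2 * L) = M / 2 / L by rw [div_div]]
    refine div_le_div₀ ?_ ?_ a4 a5 <;> nlinarith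
  have a8 : (N.primeFactors.card : ℝ) ≤ 4 * L := by
    have : (0 : ℝ) ≤ N.primeFactors.card := by positivity
    nlinarith
  have a9 : 4 * L ≤ M / (4 * L) := by
    rw [le_div_iff₀ (by linarith)]
    nlinarith
  have e : (M : ℝ) / (2 * L) = M / (4 * L) + M / (4 * L) := by
    field_simp
    ring
  linarith

lemma pow_sub_one_le {ρ t : ℝ} {k : ℕ} (h0 : 0 ≤ ρ) (ht : 0 ≤ t) (h : ρ ≤ 1 + t)
    (hk : k * t ≤ 1) : ρ ^ k ≤ 1 + 2 * (k * t) := by
  have h1 : ρ ^ k ≤ exp (k * t) := by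
    rw [exp_nat_mul]
    exact pow_le_pow_left₀ h0 (h.trans (by linarith [add_one_le_exp t])) k
  have h2 : 0 ≤ k * t := by positivity
  have h3 := abs_exp_sub_one_le (x := k * t) (by rwa [abs_of_nonneg h2])
  rw [abs_of_nonneg h2] at h3
  linarith [le_abs_self (exp (k * t) - 1)]

/-- The two terms of the second moment bound. -/
lemma num {n w ν K x u L M : ℝ} {k : ℕ} (hx : 100 ≤ x) (hn : n = x ^ 4 - 2) (hL : 1 ≤ L)
    (hu : 1 ≤ u) (hu2 : u ^ 2 = 2 ^ k) (hk : (k : ℝ) ≤ L) (hs : 1000 * L * u ≤ x)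
    (hw : n - 2 * k ≤ 2 * w) (hν0 : 0 ≤ ν) (hν : 4 * ν ≤ n + (82 * M + 40) * x ^ 2)
    (hM : u * x ≤ M) (hM' : M ≤ 2 * u * x) (hK : M / (4 * L) ≤ K) :
    (n / w) ^ k / K + ((n * ν / w ^ 2) ^ k - 1) ≤ 1000 * L * u / x := by
  have hk0 : (0 : ℝ) ≤ k := by positivity
  have hx0 : 0 < x := by linarith
  have hLx : 1000 * L ≤ x := by nlinarith
  have hkx : 1000 * k ≤ x := by linarith
  have hx2 : 100 * x ≤ x ^ 2 := by nlinarith
  have hx3 : 100 * x ^ 2 ≤ x ^ 3 := by nlinarith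
  have hx4 : 100 * x ^ 3 ≤ x ^ 4 := by nlinarith
  have hn1 : 0.99 * x ^ 4 ≤ n := by nlinarith
  have hn0 : 0 < n := by nlinarith
  have hw0 : 0 < w := by nlinarith
  have hw1 : n / w ≤ 2 * (1 + 1 / x ^ 3) := by
    rw [div_le_iff₀ hw0]
    have h1 : n ≤ (1 + 1 / x ^ 3) * (n - 2 * k) := by
      have h2 : (1 + 1 / x ^ 3) * (n - 2 * k) = n + (n - 2 * k - 2 * k * x ^ 3) / x ^ 3 := by
        field_simp
        ring
      have h3 : 0 ≤ n - 2 * k - 2 * k * x ^ 3 := by
        have : 1000 * k * x ^ 3 ≤ x * x ^ 3 := by gcongr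
        nlinarith
      rw [h2]
      linarith [div_nonneg h3 (by positivity : (0 : ℝ) ≤ x ^ 3)]
    have h4 : (1 + 1 / x ^ 3) * (n - 2 * k) ≤ (1 + 1 / x ^ 3) * (2 * w) := by gcongr
    linarith
  have hi : 1 / x ^ 3 ≤ 1 / x := one_div_le_one_div_of_le hx0 (by nlinarith)
  have hi1 : 1 / x ≤ u / x := by gcongr
  have hi2 : u / x ≤ 1 / 1000 := by
    rw [div_le_div_iff₀ hx0 (by norm_num)]
    nlinarith
  have hi0 : 0 ≤ 1 / x ^ 3 := by positivity
  have hz : k * (u / x) ≤ L * u / x := by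
    rw [mul_div_assoc]
    gcongr
  have hz1 : L * u / x ≤ 1 / 1000 := by
    rw [div_le_div_iff₀ hx0 (by norm_num)]
    nlinarith
  have hz0 : 0 ≤ L * u / x := by positivity
  have t1 : (n / w) ^ k / K ≤ 12 * (L * u / x) := by
    have h1 : (n / w) ^ k ≤ u ^ 2 * 3 := by
      refine (pow_le_pow_left₀ (by positivity) hw1 k).trans ?_
      rw [mul_pow, hu2]
      gcongr
      have h2 : k * (1 / x ^ 3) ≤ k * (u / x) := by gcongr; linarith
      have := pow_sub_one_le (k := k) (by positivity) hi0 le_rfl (by linarith)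
      linarith
    have h2 : u * x / (4 * L) ≤ K := le_trans (by gcongr) hK
    refine (div_le_div₀ (by positivity) h1 (by positivity) h2).trans (le_of_eq ?_)
    field_simp
    ring
  have t2 : n * ν / w ^ 2 ≤ 1 + 400 * (u / x) := by
    have h1 : 4 * ν ≤ n * (1 + 210 * (u / x)) := by
      have h2 : (82 * M + 40) * x ^ 2 ≤ 204 * u * x ^ 3 := by nlinarith
      have h3 : 0.99 * x ^ 4 * (210 * (u / x)) ≤ n * (210 * (u / x)) := by gcongr
      have h4 : 0.99 * x ^ 4 * (210 * (u / x)) = 207.9 * u * x ^ 3 := by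
        field_simp
        ring
      have h5 : 0 ≤ u * x ^ 3 := by positivity
      nlinarith
    have h2 : n * ν / w ^ 2 = (n / w) ^ 2 * (ν / n) := by
      field_simp
    have h3 : ν / n ≤ (1 + 210 * (u / x)) / 4 := by
      rw [div_le_iff₀ hn0]
      linarith
    have h4 : (n / w) ^ 2 ≤ (2 * (1 + u / x)) ^ 2 :=
      pow_le_pow_left₀ (by positivity) (by linarith) 2
    have h5 : 0 ≤ u / x := by positivity
    rw [h2]
    refine (mul_le_mul h4 h3 (by positivity) (by positivity)).trans ?_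
    generalize u / x = y at hi2 h5
    nlinarith [mul_nonneg h5 h5, mul_nonneg h5 (mul_nonneg h5 h5)]
  have t3 := pow_sub_one_le (k := k) (by positivity) (by positivity) t2 (by nlinarith)
  have e : 1000 * L * u / x = 1000 * (L * u / x) := by ring
  nlinarith

end Pool.Agent.Lib.MP_34b234_co.Ty
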