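import Pool.Agent.Lib.MP_34b234_co.TyPair
import Pool.Agent.Lib.MP_34b234_co.TyMom
import Pool.Agent.Lib.MP_34b234_co.TyNum

/-! Few `k`-sets of positions determine Costas permutations of order `q - 2`, `q = 1 mod 4`. -/

set_option autoImplicit false

namespace Pool.Agent.Lib.MP_34b234_co.Ty

open Finset Real

lemma det_le (n k : ℕ) :
    ({S : Finset (Fin n) | S.card = k ∧ Determines S}.ncard : ℝ) ≤ n.choose k := by
  have h := Set.ncard_le_ncard (s := {S : Finset (Fin n) | S.card = k ∧ Determines S})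
    (t := (powersetCard k (univ : Finset (Fin n)) : Finset (Finset (Fin n))))
    (fun S hS => by simpa using hS.1) (Set.toFinite _)
  rw [Set.ncard_coe_finset, card_powersetCard, card_univ, Fintype.card_fin] at h
  exact_mod_cast h

theorem main_field {F : Type} [Field F] [Fintype F] {n : ℕ} (hn : Fintype.card F = n + 2)
    (h4 : 4 ∣ n + 1) (k : ℕ) {x u L : ℝ} (hx : 100 ≤ x) (hxq : x ^ 4 = (n + 2 : ℕ))
    (hL : L = log (n + 2 : ℕ)) (hL1 : 1 ≤ L) (hu : 1 ≤ u) (hu2 : u ^ 2 = 2 ^ k)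
    (hs : 1000 * L * u ≤ x) (hLx : 16 * L ^ 2 ≤ x) :
    ({S : Finset (Fin n) | S.card = k ∧ Determines S}.ncard : ℝ) ≤
      1000 * L * u / x * n.choose k := by
  classical
  have hF : ringChar F ≠ 2 := fun h => by
    have := FiniteField.even_card_of_char_two h
    omega
  obtain ⟨g0, hg0⟩ := IsCyclic.exists_ofOrder_eq_natCard (α := Fˣ)
  have hg : IsPrimitiveRoot (g0 : F) (n + 1) := by
    have h := IsPrimitiveRoot.orderOf g0
    rw [hg0, Nat.card_units, Nat.card_eq_fintype_card, hn] at h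
    exact IsPrimitiveRoot.coe_units_iff.2 h
  have hx0 : 0 < x := by linarith
  have hux : 1000 * u ≤ x := by nlinarith
  have hx2 : 100 * x ≤ x ^ 2 := by nlinarith
  have hx3 : 100 * x ^ 2 ≤ x ^ 3 := by nlinarith
  have hx4 : 100 * x ^ 3 ≤ x ^ 4 := by nlinarith
  have hnx : (n : ℝ) = x ^ 4 - 2 := by
    rw [hxq]
    push_cast
    ring
  have hk : (k : ℝ) ≤ L := by
    have h1 : (k : ℝ) * log 2 ≤ 2 * log x := by
      rw [← log_pow, ← hu2]
      refine (log_le_log (by positivity) (pow_le_pow_left₀ (by positivity)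
        (show u ≤ x by linarith) 2)).trans (le_of_eq ?_)
      rw [log_pow, Nat.cast_ofNat]
    have h2 : L = 4 * log x := by rw [hL, ← hxq, log_pow, Nat.cast_ofNat]
    have h3 := log_two_gt_d9
    have h5 : (0 : ℝ) ≤ k := by positivity
    nlinarith
  set M := ⌈u * x⌉₊ with hMd
  have hM : u * x ≤ M := Nat.le_ceil _
  have hM1 : (M : ℝ) ≤ u * x + 1 := (Nat.ceil_lt_add_one (by positivity)).le
  have hxu : x ≤ u * x := by nlinarith
  have hxu2 : 1000 * (u * x) ≤ x ^ 2 := by nlinarith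
  have hN : (n + 2) * (n + 1) ≠ 0 := by positivity
  set R := Nat.primesLE M \ ((n + 2) * (n + 1)).primeFactors with hR
  have hK : (M : ℝ) / (4 * L) ≤ R.card := by
    refine primes_card hN hL1 (by exact_mod_cast (show (2 : ℝ) ≤ M by linarith)) ?_ ?_
      (by linarith)
    · rw [hL, ← hxq]
      exact log_le_log (by positivity) (by linarith)
    · rw [hL, Nat.cast_mul, log_mul (by positivity) (by positivity), two_mul]
      gcongr
      omega
  have hRne : R.Nonempty := by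
    have h1 : (0 : ℝ) < M / (4 * L) := div_pos (by linarith) (by linarith)
    exact card_pos.1 (by exact_mod_cast h1.trans_le hK)
  have hm : ∀ m ∈ R, 0 < m ∧ m ≤ M ∧ m.Coprime (n + 1) ∧ (m : F) ≠ 0 := by
    intro m hm
    obtain ⟨h1, h2⟩ := mem_sdiff.1 hm
    obtain ⟨h3, h5⟩ := Nat.mem_primesLE.1 h1
    have h6 : m.Coprime ((n + 2) * (n + 1)) :=
      (Nat.Prime.coprime_iff_not_dvd h5).2 fun h => h2 (Nat.mem_primeFactors.2 ⟨h5, h, hN⟩)
    refine ⟨h5.pos, h3, h6.coprime_mul_left_right, fun h0 => ?_⟩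
    have h7 : IsCoprime (m : F) ((n + 2 : ℕ) : F) := h6.coprime_mul_right_right.cast
    rw [h0, ← hn, FiniteField.cast_card_eq_zero] at h7
    exact not_isCoprime_zero_zero h7
  obtain ⟨s, hs2⟩ : ∃ s, 2 * s + 1 = n := ⟨n / 2, by omega⟩
  have hsq : √((n + 2 : ℕ) : ℝ) = x ^ 2 := by
    rw [← hxq, show x ^ 4 = (x ^ 2) ^ 2 by ring, sqrt_sq (by positivity)]
  have hq : 64 + 4 * (2 * M + 2) ≤ n + 2 := by
    have h1 : (64 : ℝ) + 4 * (2 * M + 2) ≤ (n + 2 : ℕ) := by
      rw [← hxq]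
      linarith
    exact_mod_cast h1
  set ν := ⌊((n : ℝ) + (82 * M + 40) * x ^ 2) / 4⌋₊ with hν
  have hν1 : (ν : ℝ) ≤ ((n : ℝ) + (82 * M + 40) * x ^ 2) / 4 := Nat.floor_le (by positivity)
  have hpair : ∀ m ∈ R, ∀ m' ∈ R, m' < m →
      (sqSet n ((g0 : F) ^ m) ∩ sqSet n ((g0 : F) ^ m')).card ≤ ν := by
    intro m h m' h' hlt
    have h1 := card_inter hF hn hg (hm m h).2.2.2 (hm m' h').1 hlt (hm m h).2.1 (hm m h).2.2.1
      (hm m' h').2.2.1 hq
    rw [hsq] at h1
    exact Nat.le_floor (by linarith)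
  have hs3 : (2 : ℝ) * s + 1 = n := by exact_mod_cast hs2
  have hks : k ≤ s := by
    have h1 : (k : ℝ) ≤ s := by nlinarith
    exact_mod_cast h1
  have hb := bad_card R hRne (fun m => sqSet n ((g0 : F) ^ m)) s ν k hks
    (fun m h => by
      have := card_sqSet hF hn (hg.pow_of_coprime m (hm m h).2.2.1)
      omega)
    (fun m h m' h' hne => by
      rcases lt_or_gt_of_ne hne with h1 | h1
      · rw [inter_comm]
        exact hpair m' h' m h h1
      · exact hpair m h m' h' h1)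
  rw [Fintype.card_fin] at hb
  have hw : (n : ℝ) - 2 * k ≤ 2 * (s + 1 - k : ℕ) := by
    rw [Nat.cast_sub (by omega)]
    push_cast
    linarith
  have hnum := num hx hnx hL1 hu hu2 hk hs hw (Nat.cast_nonneg ν) (by linarith) hM
    (by linarith) hK
  refine le_trans ?_ (hb.trans (mul_le_mul_of_nonneg_right hnum (by positivity)))
  rw [← Set.ncard_coe_finset]
  refine Nat.cast_le.2 (Set.ncard_le_ncard (fun S hS => ?_) (Set.toFinite _))
  refine mem_coe.2 (mem_filter.2 ⟨mem_powersetCard.2 ⟨subset_univ _, hS.1⟩, ?_⟩)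
  rintro ⟨m, h, hsub⟩
  exact not_determines hn h4 (hg.pow_of_coprime m (hm m h).2.2.1)
    (fun i hi => (mem_filter.1 (hsub hi)).2) hS.2

theorem typical (q k : ℕ) (hq : IsPrimePow q) (h4 : q % 4 = 1) :
    ({S : Finset (Fin (q - 2)) | S.card = k ∧ Determines S}.ncard : ℝ) ≤
      2 ^ 24 * log q * √(2 ^ k) / (q : ℝ) ^ (1 / 4 : ℝ) * (q - 2).choose k := by
  have h2 := hq.two_le
  obtain ⟨n, rfl⟩ : ∃ n, q = n + 2 := ⟨q - 2, by omega⟩
  simp only [Nat.add_sub_cancel]
  set Q : ℝ := ((n + 2 : ℕ) : ℝ) with hQ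
  have hQ5 : 5 ≤ Q := by
    rw [hQ]
    exact_mod_cast (by omega : 5 ≤ n + 2)
  set x := Q ^ (1 / 4 : ℝ) with hx
  set r := Q ^ (1 / 16 : ℝ) with hr
  set u := √((2 : ℝ) ^ k) with hu
  have hx0 : 0 < x := by positivity
  have hr0 : 0 < r := by positivity
  have hxq : x ^ 4 = Q := by
    rw [hx, ← rpow_natCast, ← rpow_mul (by linarith)]
    norm_num
  have hrx : r ^ 4 = x := by
    rw [hr, hx, ← rpow_natCast, ← rpow_mul (by linarith)]
    norm_num
  have hL1 : 1 ≤ log Q := by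
    rw [le_log_iff_exp_le (by linarith)]
    linarith [exp_one_lt_d9]
  have hu1 : 1 ≤ u := one_le_sqrt.2 (one_le_pow₀ one_le_two)
  have hu2 : u ^ 2 = 2 ^ k := sq_sqrt (by positivity)
  have hLu : 1 ≤ log Q * u := by nlinarith
  have hc : (0 : ℝ) ≤ n.choose k := by positivity
  by_cases h : x ≤ 2 ^ 24 * log Q * u
  · refine (det_le n k).trans (le_mul_of_one_le_left hc ?_)
    rwa [one_le_div hx0]
  push Not at h
  have hxb : 2 ^ 24 ≤ x := by nlinarith
  have hLr : log Q ≤ 16 * r := by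
    have := log_le_rpow_div (x := Q) (ε := 1 / 16) (by linarith) (by norm_num)
    linarith
  have hr2 : 4096 ≤ r ^ 2 := by
    refine le_of_sq_le_sq ?_ (by positivity)
    nlinarith
  obtain ⟨p, e, hp, he, hpe⟩ := (isPrimePow_nat_iff _).1 hq
  have : Fact p.Prime := ⟨hp⟩
  let _ : Fintype (GaloisField p e) := Fintype.ofFinite _
  have hcard : Fintype.card (GaloisField p e) = n + 2 := by
    rw [← Nat.card_eq_fintype_card, GaloisField.card p e he.ne', hpe]
  refine (main_field hcard (by omega) k (by linarith) hxq rfl hL1 hu1 hu2 (by nlinarith) ?_).trans ?_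
  · have h3 : log Q ^ 2 ≤ (16 * r) ^ 2 := pow_le_pow_left₀ (by linarith) hLr 2
    nlinarith
  · gcongr
    norm_num

end Pool.Agent.Lib.MP_34b234_co.Ty
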