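import Pool.Agent.Lib.MP_34b234_co.TyStep
import Pool.Agent.Lib.MP_34b234_co.TyGol

/-! The sets of positions where `1 - α ^ i` is a square: sizes and intersections. -/

set_option autoImplicit false

namespace Pool.Agent.Lib.MP_34b234_co.Ty

open Polynomial Finset

variable {F : Type} [Field F]

lemma notSq {m m' : ℕ} (hm : (m : F) ≠ 0) (h0 : 0 < m') (hlt : m' < m) :
    NotSq ((X ^ m - 1) * (X ^ m' - 1) : F[X]) := by
  intro r s h
  by_contra hr
  let K := AlgebraicClosure F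
  have hmK : (m : K) ≠ 0 := by
    rw [← map_natCast (algebraMap F K)]
    exact (_root_.map_ne_zero _).2 hm
  have : NeZero (m : K) := ⟨hmK⟩
  have : NeZero m := ⟨by omega⟩
  obtain ⟨z, hz⟩ := HasEnoughRootsOfUnity.exists_primitiveRoot K m
  have h1 := congrArg (Polynomial.map (algebraMap F K)) h
  simp only [Polynomial.map_mul, Polynomial.map_sub, Polynomial.map_pow, map_X, Polynomial.map_one,
    map_C] at h1
  have hA : (X ^ m - 1 : K[X]) ≠ 0 := X_pow_sub_C_ne_zero (by omega) 1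
  have hB : (X ^ m' - 1 : K[X]) ≠ 0 := X_pow_sub_C_ne_zero h0 1
  have hr' : r.map (algebraMap F K) ≠ 0 := Polynomial.map_ne_zero hr
  have e1 : rootMultiplicity z (X ^ m - 1 : K[X]) = 1 := by
    refine le_antisymm (rootMultiplicity_le_one_of_separable
      (X_pow_sub_one_separable_iff.2 hmK) z) ((rootMultiplicity_pos hA).2 ?_)
    simp [hz.pow_eq_one]
  have e2 : rootMultiplicity z (X ^ m' - 1 : K[X]) = 0 := by
    refine rootMultiplicity_eq_zero ?_
    simpa [sub_eq_zero] using hz.pow_ne_one_of_pos_of_lt h0.ne' hlt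
  have h4 : r.map (algebraMap F K) * r.map (algebraMap F K) * ((X ^ m - 1) * (X ^ m' - 1)) ≠ 0 :=
    mul_ne_zero (mul_ne_zero hr' hr') (mul_ne_zero hA hB)
  have h6 := congrArg (rootMultiplicity z) h1
  have h7 := h1 ▸ h4
  rw [rootMultiplicity_mul h4, rootMultiplicity_mul (left_ne_zero_of_mul h4),
    rootMultiplicity_mul (mul_ne_zero hA hB), rootMultiplicity_mul h7,
    rootMultiplicity_mul (right_ne_zero_of_mul h7), rootMultiplicity_C, e1, e2] at h6
  omega

variable [Fintype F] [DecidableEq F] {n : ℕ}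

lemma sum_pos_eq (hn : Fintype.card F = n + 2) {α : F} (hα : IsPrimitiveRoot α (n + 1))
    (h : F → ℝ) : ∑ i : Fin n, h (α ^ ((i : ℕ) + 1)) = ∑ y, h y - h 0 - h 1 := by
  have e : (univ : Finset (Fin n)).image (fun i : Fin n => α ^ ((i : ℕ) + 1)) =
      (univ.erase 0).erase 1 := by
    ext y
    simp only [mem_image, mem_univ, true_and, mem_erase, and_true]
    constructor
    · rintro ⟨i, rfl⟩
      exact ⟨pw_ne_one hα i, pw_ne_zero hα _⟩
    · exact fun hy => pw_surj hn hα hy.2 hy.1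
  rw [← sum_image (f := h) (g := fun i : Fin n => α ^ ((i : ℕ) + 1))
    fun i _ j _ hij => pw_inj hα hij, e, ← add_sum_erase univ h (mem_univ 0),
    ← add_sum_erase (univ.erase 0) h (mem_erase.2 ⟨one_ne_zero, mem_univ 1⟩)]
  ring

/-- The real quadratic character. -/
def ch (y : F) : ℝ := ((quadraticChar F y : ℤ) : ℝ)

lemma ch_mul (x y : F) : ch (x * y) = ch x * ch y := by
  rw [ch, ch, ch, map_mul, Int.cast_mul]

lemma ch_ind {y : F} (hy : y ≠ 0) : (if IsSquare y then (1 : ℝ) else 0) = (1 + ch y) / 2 := by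
  split_ifs with h
  · rw [ch, (quadraticChar_one_iff_isSquare hy).2 h]
    norm_num
  · rw [ch, quadraticChar_neg_one_iff_not_isSquare.2 h]
    norm_num

lemma sum_ch (hF : ringChar F ≠ 2) (hn : Fintype.card F = n + 2) {α : F}
    (hα : IsPrimitiveRoot α (n + 1)) : ∑ i : Fin n, ch (1 - α ^ ((i : ℕ) + 1)) = -1 := by
  rw [sum_pos_eq hn hα fun y => ch (1 - y)]
  have h1 : ∑ y : F, ch (1 - y) = 0 := by
    have h2 := Equiv.sum_comp (Equiv.subLeft (1 : F)) ch
    simp only [Equiv.subLeft_apply] at h2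
    rw [h2]
    simp only [ch]
    exact_mod_cast quadraticChar_sum_zero hF
  rw [h1]
  simp [ch]

/-- Positions where `1 - α ^ i` is a square. -/
def sqSet (n : ℕ) (α : F) : Finset (Fin n) :=
  univ.filter fun i => IsSquare (1 - α ^ ((i : ℕ) + 1))

lemma card_sqSet (hF : ringChar F ≠ 2) (hn : Fintype.card F = n + 2) {α : F}
    (hα : IsPrimitiveRoot α (n + 1)) : 2 * (sqSet n α).card + 1 = n := by
  have h1 : ((sqSet n α).card : ℝ) = ∑ i : Fin n, (1 + ch (1 - α ^ ((i : ℕ) + 1))) / 2 := by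
    rw [sqSet, ← sum_boole]
    exact sum_congr rfl fun i _ => ch_ind (sub_ne_zero.2 (pw_ne_one hα i).symm)
  rw [← sum_div, sum_add_distrib, sum_ch hF hn hα] at h1
  simp only [sum_const, card_univ, Fintype.card_fin, nsmul_eq_mul, mul_one] at h1
  have h2 : (2 : ℝ) * (sqSet n α).card + 1 = n := by linarith
  exact_mod_cast h2

lemma card_inter (hF : ringChar F ≠ 2) (hn : Fintype.card F = n + 2) {g : F}
    (hg : IsPrimitiveRoot g (n + 1)) {m m' M : ℕ} (hm : (m : F) ≠ 0) (h0 : 0 < m') (hlt : m' < m)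
    (hM : m ≤ M) (c : m.Coprime (n + 1)) (c' : m'.Coprime (n + 1))
    (hq : 64 + 4 * (2 * M + 2) ≤ n + 2) :
    4 * ((sqSet n (g ^ m) ∩ sqSet n (g ^ m')).card : ℝ) ≤
      n + (82 * M + 40) * Real.sqrt (n + 2 : ℕ) := by
  have hα := hg.pow_of_coprime m c
  have hβ := hg.pow_of_coprime m' c'
  have h1 : ((sqSet n (g ^ m) ∩ sqSet n (g ^ m')).card : ℝ) = ∑ i : Fin n,
      (1 + ch (1 - (g ^ m) ^ ((i : ℕ) + 1))) / 2 * ((1 + ch (1 - (g ^ m') ^ ((i : ℕ) + 1))) / 2) := by
    rw [sqSet, sqSet, ← filter_and, ← sum_boole]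
    refine sum_congr rfl fun i _ => ?_
    rw [← ch_ind (sub_ne_zero.2 (pw_ne_one hα i).symm),
      ← ch_ind (sub_ne_zero.2 (pw_ne_one hβ i).symm), ite_zero_mul_ite_zero, mul_one]
  let P : F[X] := (X ^ m - 1) * (X ^ m' - 1)
  have a1 : (X ^ m - 1 : F[X]).Monic := monic_X_pow_sub_C 1 (by omega)
  have a2 : (X ^ m' - 1 : F[X]).Monic := monic_X_pow_sub_C 1 h0.ne'
  have hd : P.natDegree = m + m' := by
    rw [a1.natDegree_mul a2, ← C_1, natDegree_X_pow_sub_C, natDegree_X_pow_sub_C]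
  have hP0 : P.eval 0 = 1 := by simp [P, h0.ne', (show m ≠ 0 by omega)]
  have hP1 : P.eval 1 = 0 := by simp [P]
  have h2 := st_sum hF (a1.mul a2) (by rw [hP0]; exact one_ne_zero) (notSq hm h0 hlt)
    (by rw [hd, hn]; omega)
  rw [hd, hn] at h2
  have h3 := sum_pos_eq hn hg fun y => ch (P.eval y)
  rw [hP0, hP1] at h3
  have h4 : ∀ i : Fin n, (1 + ch (1 - (g ^ m) ^ ((i : ℕ) + 1))) / 2 *
      ((1 + ch (1 - (g ^ m') ^ ((i : ℕ) + 1))) / 2) = (1 + ch (1 - (g ^ m) ^ ((i : ℕ) + 1)) +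
        ch (1 - (g ^ m') ^ ((i : ℕ) + 1)) + ch (P.eval (g ^ ((i : ℕ) + 1)))) / 4 := by
    intro i
    have e : P.eval (g ^ ((i : ℕ) + 1)) =
        (1 - (g ^ m) ^ ((i : ℕ) + 1)) * (1 - (g ^ m') ^ ((i : ℕ) + 1)) := by
      simp only [P, eval_mul, eval_sub, eval_pow, eval_X, eval_one]
      ring
    rw [e, ch_mul]
    ring
  rw [sum_congr rfl fun i _ => h4 i, ← sum_div, sum_add_distrib, sum_add_distrib, sum_add_distrib,
    sum_ch hF hn hα, sum_ch hF hn hβ, h3] at h1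
  simp only [sum_const, card_univ, Fintype.card_fin, nsmul_eq_mul, mul_one] at h1
  have h5 : ∑ y : F, ch (P.eval y) ≤ (82 * M + 40) * Real.sqrt (n + 2 : ℕ) := by
    refine ((le_abs_self _).trans h2).trans (mul_le_mul_of_nonneg_right ?_ (Real.sqrt_nonneg _))
    have : ((m + m' : ℕ) : ℝ) ≤ 2 * M := by exact_mod_cast (by omega : m + m' ≤ 2 * M)
    linarith
  have h6 : ch (1 : F) = 1 := by simp [ch]
  have h7 : ch (0 : F) = 0 := by simp [ch]
  linarith

end Pool.Agent.Lib.MP_34b234_co.Ty
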