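import Pool.Agent.Lib.MP_e97e2b_nt.Weil

/-! Stepanov's bound for quadratic character sums of a polynomial that is not a constant times a
square (the proofs are those of `MP_e97e2b_nt/Weil`, with the simple root replaced by `NotSq`). -/

set_option autoImplicit false

namespace Pool.Agent.Lib.MP_34b234_co.Ty

open Polynomial Module Pool.Agent.Lib.MP_e97e2b_nt

variable {F : Type} [Field F]

/-- `g` is not `g(0)` times the square of a rational function. -/
def NotSq (g : F[X]) : Prop := ∀ r s : F[X], r * r * g = C (g.eval 0) * (s * s) → r = 0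

lemma st_key [Fintype F] {g : F[X]} (hg0 : g.eval 0 ≠ 0) (hz : NotSq g)
    {c D : ℕ} (hc : 2 * c + 1 = Fintype.card F) (hD : 2 * D + g.natDegree < Fintype.card F)
    {r s : F[X]} (hr : r.natDegree ≤ D) (hs : s.natDegree ≤ D)
    (h : X ^ Fintype.card F ∣ r + s * g ^ c) : r = 0 ∧ s = 0 := by
  have h1 : X ^ Fintype.card F ∣ g ^ Fintype.card F - C (g.eval 0) := by
    have := map_dvd (expand F (Fintype.card F)) (X_dvd_sub_C (p := g))
    rwa [map_sub, expand_C, expand_X, FiniteField.expand_card, coeff_zero_eq_eval_zero] at this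
  have h2 : X ^ Fintype.card F ∣ r ^ 2 * g - C (g.eval 0) * s ^ 2 := by
    have e : r ^ 2 * g - C (g.eval 0) * s ^ 2 = (r + s * g ^ c) * ((r - s * g ^ c) * g)
        + s ^ 2 * (g ^ Fintype.card F - C (g.eval 0)) := by
      rw [← hc]; ring
    rw [e]
    exact dvd_add (h.mul_right _) (h1.mul_left _)
  have h3 : r ^ 2 * g - C (g.eval 0) * s ^ 2 = 0 := by
    refine eq_zero_of_dvd_of_natDegree_lt h2 ?_
    rw [natDegree_X_pow]
    refine lt_of_le_of_lt (natDegree_sub_le _ _) (max_lt ?_ ?_)
    · have := natDegree_mul_le (p := r ^ 2) (q := g)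
      have := natDegree_pow_le (p := r) (n := 2)
      omega
    · have := natDegree_C_mul_le (g.eval 0) (s ^ 2)
      have := natDegree_pow_le (p := s) (n := 2)
      omega
  have hC : C (g.eval 0) ≠ 0 := by simpa using hg0
  have hr0 : r = 0 := hz r s (by linear_combination h3)
  refine ⟨hr0, ?_⟩
  rw [hr0] at h3
  simpa [hC] using h3

lemma st_count [Fintype F] [DecidableEq F] {g : F[X]} (hg : g.Monic) (hg0 : g.eval 0 ≠ 0)
    (hz : NotSq g) {c D J l : ℕ} (hc : 2 * c + 1 = Fintype.card F)
    (hD : 2 * D + g.natDegree < Fintype.card F) (hl : l ≤ Fintype.card F)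
    (hdim : l * (l * g.natDegree + D + J + 1) < J * (2 * D)) {a : F} (ha : a ≠ 0) :
    l * (Finset.univ.filter fun x => g.eval x ^ c = a).card
      ≤ (l + c) * g.natDegree + D + (J - 1) * Fintype.card F := by
  set m := g.natDegree with hm
  set q := Fintype.card F with hq
  let T : ℕ → (Fin J → degreeLT F D × degreeLT F D) →ₗ[F] F[X] := fun k =>
    ∑ j : Fin J, LinearMap.mulRight F (X ^ (j : ℕ)) ∘ₗ
      ((LinearMap.mulLeft F (g ^ c) ∘ₗ hasseDeriv k ∘ₗ LinearMap.mulLeft F (g ^ l) ∘ₗ
          (degreeLT F D).subtype ∘ₗ LinearMap.fst F _ _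
        + LinearMap.mulLeft F (C a) ∘ₗ hasseDeriv k ∘ₗ LinearMap.mulLeft F (g ^ (l + c)) ∘ₗ
          (degreeLT F D).subtype ∘ₗ LinearMap.snd F _ _) ∘ₗ LinearMap.proj j)
  have hT : ∀ k v, T k v = ∑ j : Fin J, (g ^ c * hasseDeriv k (g ^ l * ((v j).1 : F[X]))
      + C a * hasseDeriv k (g ^ (l + c) * ((v j).2 : F[X]))) * X ^ (j : ℕ) := by
    intro k v
    simp [T]
  let W : Fin l → Submodule F F[X] := fun k =>
    (degreeLT F (l * m + D + J + 1)).map (LinearMap.mulLeft F (g ^ (l + c - k)))
  have hW : ∀ (k : Fin l) v, T k v ∈ W k := by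
    intro k v
    have hk := k.2
    apply wl_mem hg
    · rw [hT]
      refine Finset.dvd_sum fun j _ => Dvd.dvd.mul_right (dvd_add ?_ ?_) _
      · rw [show l + c - k = c + (l - k) by omega, pow_add]
        exact mul_dvd_mul_left _ (wl_dvd _ _ _ _)
      · exact (wl_dvd _ _ _ _).mul_left _
    · have h1 : (T k v).natDegree ≤ (l + c) * m + D + J := by
        rw [hT]
        refine natDegree_sum_le_of_forall_le _ _ fun j _ => ?_
        refine natDegree_mul_le.trans ?_
        rw [natDegree_X_pow]
        refine add_le_add ((natDegree_add_le _ _).trans (max_le ?_ ?_)) j.2.le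
        · refine natDegree_mul_le.trans ?_
          have h2 := natDegree_hasseDeriv_le (g ^ l * ((v j).1 : F[X])) k
          have h3 := natDegree_mul_le (p := g ^ l) (q := ((v j).1 : F[X]))
          have h4 := wl_natDegree (v j).1
          rw [hg.natDegree_pow, ← hm] at h3 ⊢
          rw [add_mul]
          omega
        · refine (natDegree_C_mul_le _ _).trans ?_
          have h2 := natDegree_hasseDeriv_le (g ^ (l + c) * ((v j).2 : F[X])) k
          have h3 := natDegree_mul_le (p := g ^ (l + c)) (q := ((v j).2 : F[X]))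
          have h4 := wl_natDegree (v j).2
          rw [hg.natDegree_pow, ← hm] at h3
          omega
      have h5 : (l + c) * m ≤ (l + c - k) * m + l * m := by
        rw [← add_mul]
        exact Nat.mul_le_mul_right _ (by omega)
      rw [← hm]
      omega
  let L : (Fin J → degreeLT F D × degreeLT F D) →ₗ[F] (∀ k : Fin l, W k) :=
    LinearMap.pi fun k => (T k).codRestrict (W k) (hW k)
  have hker := LinearMap.ker_ne_bot_of_finrank_lt (f := L) (by
    rw [Module.finrank_pi_fintype, Module.finrank_pi_fintype]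
    simp only [Module.finrank_prod, wl_finrank, Finset.sum_const, Finset.card_univ,
      Fintype.card_fin, smul_eq_mul]
    have h1 : ∑ k : Fin l, finrank F (W k) ≤ ∑ _k : Fin l, (l * m + D + J + 1) :=
      Finset.sum_le_sum fun k _ => (Submodule.finrank_map_le _ _).trans (wl_finrank _).le
    simp only [Finset.sum_const, Finset.card_univ, Fintype.card_fin, smul_eq_mul] at h1
    rw [← two_mul]
    omega)
  obtain ⟨v, hv, hv0⟩ := (Submodule.ne_bot_iff _).1 hker
  have hv' : ∀ k < l, T k v = 0 := fun k hk =>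
    congrArg Subtype.val (congrFun (LinearMap.mem_ker.1 hv) ⟨k, hk⟩)
  let G : Fin J → F[X] := fun j => g ^ l * ((v j).1 : F[X]) + g ^ (l + c) * ((v j).2 : F[X])
  set R := ∑ j, G j * (X ^ q) ^ (j : ℕ) with hR
  have hR0 : R ≠ 0 := by
    intro h0
    have e : R = g ^ l * ∑ j, (((v j).1 : F[X]) + ((v j).2 : F[X]) * g ^ c) * (X ^ q) ^ (j : ℕ) := by
      rw [hR, Finset.mul_sum]
      exact Finset.sum_congr rfl fun j _ => by simp only [G]; ring
    rw [e, mul_eq_zero] at h0
    have hk := fun j (h : X ^ q ∣ ((v j).1 : F[X]) + ((v j).2 : F[X]) * g ^ c) =>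
      st_key hg0 hz hc hD (wl_natDegree (v j).1) (wl_natDegree (v j).2) h
    have h1 := wl_indep (q := q) (fun j => ((v j).1 : F[X]) + ((v j).2 : F[X]) * g ^ c)
      (fun j h => by simp [(hk j h).1, (hk j h).2]) (h0.resolve_left (hg.pow l).ne_zero)
    apply hv0
    funext j
    have h2 := hk j (by rw [h1 j]; exact dvd_zero _)
    exact Prod.ext (Subtype.ext h2.1) (Subtype.ext h2.2)
  have hdeg : R.natDegree ≤ (l + c) * m + D + (J - 1) * q := by
    refine natDegree_sum_le_of_forall_le _ _ fun j _ => natDegree_mul_le.trans ?_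
    rw [← pow_mul, natDegree_X_pow]
    refine add_le_add ((natDegree_add_le _ _).trans (max_le ?_ ?_)) ?_
    · have h3 := natDegree_mul_le (p := g ^ l) (q := ((v j).1 : F[X]))
      have h4 := wl_natDegree (v j).1
      rw [hg.natDegree_pow, ← hm] at h3
      rw [add_mul]
      omega
    · have h3 := natDegree_mul_le (p := g ^ (l + c)) (q := ((v j).2 : F[X]))
      have h4 := wl_natDegree (v j).2
      rw [hg.natDegree_pow, ← hm] at h3
      omega
    · rw [mul_comm]
      exact Nat.mul_le_mul_right _ (by have := j.2; omega)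
  set S := Finset.univ.filter fun x => g.eval x ^ c = a with hS
  have hdvd : ∏ x ∈ S, (X - C x) ^ l ∣ R := by
    refine Finset.prod_dvd_of_coprime (fun x _ y _ hxy =>
      (pairwise_coprime_X_sub_C (s := id) Function.injective_id hxy).pow) fun x hx => ?_
    have hx' : g.eval x ^ c = a := (Finset.mem_filter.1 hx).2
    refine wl_vanish x (wl_frob x) hl G fun k hk => ?_
    have h1 := congrArg (eval x) (hv' k hk)
    rw [hT, eval_finsetSum, eval_zero] at h1
    apply mul_left_cancel₀ ha
    rw [mul_zero, ← h1, Finset.mul_sum]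
    refine Finset.sum_congr rfl fun j _ => ?_
    simp only [G, map_add, eval_add, eval_mul, eval_pow, eval_C, eval_X, hx']
    ring
  have h1 := natDegree_le_of_dvd hdvd hR0
  rw [natDegree_prod_of_monic _ _ fun x _ => (monic_X_sub_C x).pow l] at h1
  simp only [natDegree_pow, natDegree_X_sub_C, mul_one, Finset.sum_const, smul_eq_mul] at h1
  rw [mul_comm]
  omega

lemma st_count' [Fintype F] [DecidableEq F] (hF : ringChar F ≠ 2) {g : F[X]} (hg : g.Monic)
    (hg0 : g.eval 0 ≠ 0) (hz : NotSq g)
    (hq : 64 + 4 * (g.natDegree + 2) ≤ Fintype.card F) {a : F} (ha : a ≠ 0) :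
    ((Finset.univ.filter fun x => g.eval x ^ (Fintype.card F / 2) = a).card : ℝ)
      ≤ Fintype.card F / 2 + (20 * g.natDegree + 20) * Real.sqrt (Fintype.card F) := by
  have hodd := FiniteField.odd_card_of_char_ne_two hF
  set m := g.natDegree with hm
  set q := Fintype.card F with hqq
  set s := Nat.sqrt q with hs
  have hs1 : s * s ≤ q := Nat.sqrt_le q
  have hs2 : q < (s + 1) * (s + 1) := Nat.lt_succ_sqrt q
  have hs3 : 8 ≤ s := Nat.le_sqrt.2 (by omega)
  have hs4 : 8 * s ≤ q := (Nat.mul_le_mul_right s hs3).trans hs1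
  set D := (q - m - 1) / 2 with hD
  have hD1 : 2 * D + m < q := by omega
  have hD2 : 3 * q ≤ 8 * D := by omega
  set K := 16 * m + 16 with hK
  have h1 := st_count hg hg0 hz (c := q / 2) (D := D) (J := s + K) (l := 2 * s) (by omega) hD1
    (by omega) (by
      rw [← hm]
      have h2 : s * s * m ≤ q * m := Nat.mul_le_mul_right _ hs1
      have h3 : 8 * s * (K + 1) ≤ q * (K + 1) := Nat.mul_le_mul_right _ hs4
      have h4 : 3 * q * K ≤ 8 * D * K := Nat.mul_le_mul_right _ hD2
      have h5 : 0 < q := by omega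
      rw [hK] at h3 h4 ⊢
      nlinarith) ha
  rw [← hm, ← hqq] at h1
  set N := (Finset.univ.filter fun x => g.eval x ^ (q / 2) = a).card
  have h2 : 2 * s * N ≤ s * q + 2 * s * m + (17 * m + 17) * q := by
    have h3 : q / 2 * m ≤ q * m := Nat.mul_le_mul_right _ (Nat.div_le_self _ _)
    have h4 : (s + K - 1) * q ≤ (s + K) * q := Nat.mul_le_mul_right _ (by omega)
    rw [hK] at h4
    rw [hK] at h1
    nlinarith
  have h3 : (2 * s * N : ℝ) ≤ s * q + 2 * s * m + (17 * m + 17) * q := by exact_mod_cast h2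
  have hsq : Real.sqrt q * Real.sqrt q = q := Real.mul_self_sqrt (by positivity)
  have h4 : Real.sqrt q ≤ 2 * s := by
    rw [Real.sqrt_le_left (by positivity)]
    have : q ≤ (2 * s) ^ 2 := by nlinarith
    exact_mod_cast this
  have h5 : (1 : ℝ) ≤ Real.sqrt q := by
    rw [Real.one_le_sqrt]
    exact_mod_cast (by omega : 1 ≤ q)
  have h6 : (0 : ℝ) < 2 * s := by
    have : (0 : ℝ) < s := by exact_mod_cast (by omega : 0 < s)
    linarith
  have h7 : (q : ℝ) ≤ 2 * s * Real.sqrt q := by nlinarith
  have hm0 : (0 : ℝ) ≤ m := by positivity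
  refine le_of_mul_le_mul_left ?_ h6
  have h8 : (17 * m + 17 : ℝ) * q ≤ (17 * m + 17) * (2 * s * Real.sqrt q) := by gcongr
  have h9 : (2 * s * m : ℝ) ≤ 2 * s * m * Real.sqrt q := le_mul_of_one_le_right (by positivity) h5
  have h10 : 0 ≤ 2 * s * Real.sqrt q := by positivity
  nlinarith [mul_nonneg hm0 h10]

lemma st_sum [Fintype F] [DecidableEq F] (hF : ringChar F ≠ 2) {g : F[X]} (hg : g.Monic)
    (hg0 : g.eval 0 ≠ 0) (hz : NotSq g)
    (hq : 64 + 4 * (g.natDegree + 2) ≤ Fintype.card F) :
    |∑ x : F, ((quadraticChar F (g.eval x) : ℤ) : ℝ)|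
      ≤ (41 * g.natDegree + 40) * Real.sqrt (Fintype.card F) := by
  have hroots : ((Finset.univ.filter fun x => g.eval x = 0).card : ℝ) ≤ g.natDegree := by
    have : (Finset.univ.filter fun x => g.eval x = 0) ⊆ g.roots.toFinset := by
      intro x hx
      simpa [hg.ne_zero] using hx
    exact_mod_cast (Finset.card_le_card this).trans
      ((Multiset.toFinset_card_le _).trans (card_roots' g))
  have key : ∀ ε : ℤ, ε = 1 ∨ ε = -1 → ∑ x : F, ((ε * quadraticChar F (g.eval x) : ℤ) : ℝ)
      ≤ (41 * g.natDegree + 40) * Real.sqrt (Fintype.card F) := by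
    intro ε hε
    have hε0 : ((ε : ℤ) : F) ≠ 0 := by rcases hε with rfl | rfl <;> simp
    have h1 := st_count' hF hg hg0 hz hq hε0
    have h2 : ∀ x : F, ((ε * quadraticChar F (g.eval x) : ℤ) : ℝ) ≤
        2 * (if g.eval x ^ (Fintype.card F / 2) = ε then 1 else 0)
          + (if g.eval x = 0 then 1 else 0) - 1 := by
      intro x
      by_cases h0 : g.eval x = 0
      · simp only [h0, quadraticChar_zero, mul_zero, Int.cast_zero, if_true]
        split_ifs <;> norm_num
      · rw [if_neg h0]
        by_cases h3 : quadraticChar F (g.eval x) = ε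
        · rw [← quadraticChar_eq_pow_of_char_ne_two' hF, h3, if_pos rfl]
          rcases hε with rfl | rfl <;> norm_num
        · have h4 : ε * quadraticChar F (g.eval x) = -1 := by
            rcases quadraticChar_dichotomy h0 with h5 | h5 <;> rcases hε with rfl | rfl <;>
              simp_all
          rw [h4]
          split_ifs <;> norm_num
    refine (Finset.sum_le_sum fun x _ => h2 x).trans ?_
    rw [Finset.sum_sub_distrib, Finset.sum_add_distrib, ← Finset.mul_sum, Finset.sum_boole,
      Finset.sum_boole]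
    simp only [Finset.sum_const, Finset.card_univ, nsmul_eq_mul, mul_one]
    have h5 : (1 : ℝ) ≤ Real.sqrt (Fintype.card F) := by
      rw [Real.one_le_sqrt]
      exact_mod_cast (by omega : 1 ≤ Fintype.card F)
    have hm0 : (0 : ℝ) ≤ g.natDegree := by positivity
    nlinarith [le_mul_of_one_le_right hm0 h5]
  rw [abs_le]
  constructor
  · have := key (-1) (Or.inr rfl)
    simp only [neg_mul, one_mul, Int.cast_neg, Finset.sum_neg_distrib] at this
    linarith
  · simpa only [one_mul] using key 1 (Or.inl rfl)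

end Pool.Agent.Lib.MP_34b234_co.Ty
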